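import Mathlib
import Pool.Agent.Lib.MP_decea1_gt_A.Bump

/-!
# MP_decea1_gt (S14098), block B1.3: clamping into the cube, margins of compact sets in boxes.
-/

set_option autoImplicit false

open MeasureTheory Set
open scoped Topology

namespace Pool.Agent.QM59

theorem mem_Box {a b x : E3} : x ∈ Box a b ↔ ∀ i, a i < x i ∧ x i < b i := Iff.rfl

theorem mem_Cube {x : E3} : x ∈ Cube ↔ ∀ i, 0 < x i ∧ x i < 1 := Iff.rfl

theorem convex_Cube : Convex ℝ Cube := convex_Box 0 1

theorem Box_nonempty {a b : E3} (h : ∀ i, a i < b i) : (Box a b).Nonempty :=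
  (isConnected_Box a b h).nonempty

theorem Cube_nonempty : Cube.Nonempty := isConnected_Cube.nonempty

theorem volume_Box' {a b : E3} (h : ∀ i, a i ≤ b i) :
    volume (Box a b) = ENNReal.ofReal (∏ i, (b i - a i)) := by
  rw [volume_Box, ENNReal.ofReal_prod_of_nonneg]
  exact fun i _ => sub_nonneg.mpr (h i)

theorem volume_Cube : volume Cube = 1 := by
  rw [Cube, volume_Box' (fun i => by simp)]
  simp

theorem volume_Box_ne_top (a b : E3) : volume (Box a b) ≠ ⊤ := by
  rw [volume_Box]
  exact ENNReal.prod_ne_top fun i _ => ENNReal.ofReal_ne_top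

/-- margins of compact subsets of open boxes -/
theorem exists_margin {a b : E3} {A : Set E3} (hA : IsCompact A) (hAC : A ⊆ Box a b) :
    ∃ δ : ℝ, 0 < δ ∧ ∀ x ∈ A, ∀ i, a i + δ < x i ∧ x i < b i - δ := by
  obtain ⟨δ, hδ, h⟩ := hA.exists_cthickening_subset_open (isOpen_Box a b) hAC
  refine ⟨δ, hδ, fun x hx i => ?_⟩
  have key : ∀ s : ℝ, |s| ≤ δ → (fun i => x i + s : E3) ∈ Box a b := by
    intro s hs
    refine h (Metric.mem_cthickening_of_dist_le _ x δ A hx ?_)
    rw [dist_pi_le_iff hδ.le]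
    intro k
    rw [Real.dist_eq]
    simpa using hs
  have h1 := (key δ (by rw [abs_of_pos hδ]) i).2
  have h2 := (key (-δ) (by rw [abs_neg, abs_of_pos hδ]) i).1
  simp only at h1 h2
  constructor <;> linarith

/-- compact subsets of the cube lie in `[e, 1 - e]³` -/
theorem exists_margin_Cube {A : Set E3} (hA : IsCompact A) (hAC : A ⊆ Cube) :
    ∃ e : ℝ, 0 < e ∧ e < 1 / 2 ∧ ∀ x ∈ A, ∀ i, e < x i ∧ x i < 1 - e := by
  obtain ⟨δ, hδ, h⟩ := exists_margin hA hAC
  refine ⟨min δ (1 / 4), lt_min hδ (by norm_num), (min_le_right _ _).trans_lt (by norm_num),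
    fun x hx i => ?_⟩
  have h1 := h x hx i
  have h2 := min_le_left δ (1 / 4)
  simp only [Pi.zero_apply, Pi.one_apply] at h1
  constructor <;> linarith [h1.1, h1.2]

/-- the coordinatewise projection to `[e, 1 - e]³` -/
noncomputable def clamp (e : ℝ) (x : E3) : E3 := fun i => max e (min (1 - e) (x i))

theorem continuous_clamp (e : ℝ) : Continuous (clamp e) :=
  continuous_pi fun i => continuous_const.max (continuous_const.min (continuous_apply i))

theorem clamp_apply (e : ℝ) (x : E3) (i : Fin 3) : clamp e x i = max e (min (1 - e) (x i)) := rfl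

theorem clamp_mem {e : ℝ} (he : e ≤ 1 / 2) (x : E3) (i : Fin 3) :
    e ≤ clamp e x i ∧ clamp e x i ≤ 1 - e :=
  ⟨le_max_left _ _, max_le (by linarith) (min_le_left _ _)⟩

theorem clamp_of_mem {e : ℝ} {x : E3} (h : ∀ i, e ≤ x i ∧ x i ≤ 1 - e) : clamp e x = x := by
  funext i
  rw [clamp_apply, min_eq_right (h i).2, max_eq_right (h i).1]

/-- if `x` is outside, then `clamp e x` lies on the boundary -/
theorem clamp_boundary {e : ℝ} {x : E3} (h : ¬ ∀ i, e ≤ x i ∧ x i ≤ 1 - e) :
    ∃ i, clamp e x i = e ∨ clamp e x i = 1 - e := by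
  push Not at h
  obtain ⟨i, hi⟩ := h
  refine ⟨i, ?_⟩
  rw [clamp_apply]
  by_cases h1 : e ≤ x i
  · have h2 := hi h1
    rw [min_eq_left h2.le]
    rcases max_choice e (1 - e) with h3 | h3
    · exact Or.inl h3
    · exact Or.inr h3
  · push Not at h1
    left
    exact max_eq_left ((min_le_right _ _).trans h1.le)

/-- B1.3 -/
theorem isConnected_Cube_diff {A : Set E3} (hA : IsCompact A) (hAC : A ⊆ Cube)
    (hc : IsConnected Aᶜ) : IsConnected (Cube \ A) := by
  obtain ⟨e, he, he2, hm⟩ := exists_margin_Cube hA hAC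
  -- the sets `[e', 1-e']³ \ A`
  have himg : ∀ e' : ℝ, e' ≤ e → clamp e' '' Aᶜ = {x | ∀ i, e' ≤ x i ∧ x i ≤ 1 - e'} \ A := by
    intro e' he'
    ext y
    constructor
    · rintro ⟨x, hx, rfl⟩
      refine ⟨fun i => clamp_mem (by linarith) x i, fun hy => ?_⟩
      by_cases h : ∀ i, e' ≤ x i ∧ x i ≤ 1 - e'
      · rw [clamp_of_mem h] at hy
        exact hx hy
      · obtain ⟨i, hi⟩ := clamp_boundary h
        have := hm _ hy i
        rcases hi with hi | hi <;> rw [hi] at this <;> linarith [this.1, this.2]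
    · rintro ⟨h1, h2⟩
      exact ⟨y, h2, clamp_of_mem h1⟩
  have hunion : Cube \ A = ⋃ t : Ioc (0 : ℝ) (e / 2),
      ({x : E3 | ∀ i, (t : ℝ) ≤ x i ∧ x i ≤ 1 - t} \ A) := by
    ext x
    simp only [mem_iUnion, mem_sdiff, mem_ofPred]
    constructor
    · rintro ⟨h1, h2⟩
      obtain ⟨δ, hδ, h3⟩ := exists_margin (A := {x}) isCompact_singleton
        (singleton_subset_iff.mpr h1)
      refine ⟨⟨min δ (e / 2), lt_min hδ (by positivity), min_le_right _ _⟩, fun i => ?_, h2⟩
      have h4 := h3 x rfl i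
      have h5 := min_le_left δ (e / 2)
      simp only [Pi.zero_apply, Pi.one_apply] at h4
      constructor <;> simp only <;> linarith [h4.1, h4.2]
    · rintro ⟨⟨t, ht1, ht2⟩, h1, h2⟩
      refine ⟨fun i => ?_, h2⟩
      have := h1 i
      simp only [Pi.zero_apply, Pi.one_apply]
      simp only at this
      constructor <;> linarith [this.1, this.2]
  have hpt : (fun _ => e / 2 : E3) ∉ A := fun h => by
    have : e < e / 2 := (hm _ h 0).1
    linarith
  refine ⟨⟨fun _ => e / 2, fun i => ?_, hpt⟩, ?_⟩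
  · change (0 : ℝ) < e / 2 ∧ e / 2 < 1
    constructor <;> linarith
  · rw [hunion]
    refine isPreconnected_iUnion ⟨fun _ => e / 2, ?_⟩ fun t => ?_
    · rw [mem_iInter]
      rintro ⟨t, ht1, ht2⟩
      refine ⟨fun i => ?_, hpt⟩
      simp only
      constructor <;> linarith
    · rw [← himg t (by linarith [t.2.2])]
      exact hc.isPreconnected.image _ (continuous_clamp _).continuousOn

end Pool.Agent.QM59
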