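import Mathlib
import Pool.Agent.Lib.MP_decea1_gt_B.Clamp

/-!
# MP_decea1_gt (S14098), block B4.1 (a): smooth arcs and cones are null, they do not separate boxes.
-/

set_option autoImplicit false

open MeasureTheory Set

namespace Pool.Agent.QM59

/-- The cone over a smooth arc is null: it is the image of
`x ↦ a + x 1 • (g (p + x 0 • (q - p)) - a)`, which does not depend on `x 2`, so its derivative has
determinant 0; `MeasureTheory.addHaar_image_eq_zero_of_det_fderiv_eq_zero`. -/
theorem volume_cone (g : E3 → E3) (hg : ContDiff ℝ smo g) (p q a : E3) :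
    volume {z : E3 | ∃ s t : ℝ, z = a + t • (g (p + s • (q - p)) - a)} = 0 := by
  have h0 : ContDiff ℝ smo (fun x : E3 => x 0) := contDiff_apply ℝ ℝ (0 : Fin 3)
  have h1 : ContDiff ℝ smo (fun x : E3 => x 1) := contDiff_apply ℝ ℝ (1 : Fin 3)
  have hF : ContDiff ℝ smo (fun x : E3 => a + x 1 • (g (p + x 0 • (q - p)) - a)) :=
    contDiff_const.add (h1.smul
      ((hg.comp (contDiff_const.add (h0.smul contDiff_const))).sub contDiff_const))
  set F : E3 → E3 := fun x => a + x 1 • (g (p + x 0 • (q - p)) - a) with hFdef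
  have hset : {z : E3 | ∃ s t : ℝ, z = a + t • (g (p + s • (q - p)) - a)} = F '' univ := by
    ext z
    constructor
    · rintro ⟨s, t, rfl⟩
      exact ⟨![s, t, 0], mem_univ _, by simp [F]⟩
    · rintro ⟨x, -, rfl⟩
      exact ⟨x 0, x 1, rfl⟩
  rw [hset]
  have hd : ∀ x, HasFDerivAt F (fderiv ℝ F x) x := fun x =>
    (hF.differentiable (by simp) x).hasFDerivAt
  refine addHaar_image_eq_zero_of_det_fderivWithin_eq_zero volume
    (fun x _ => (hd x).hasFDerivWithinAt) fun x _ => ?_
  have hker : fderiv ℝ F x (Pi.single 2 1) = 0 := by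
    have hc : HasDerivAt (fun t : ℝ => x + t • (Pi.single 2 1 : E3)) (Pi.single 2 1) 0 := by
      have := ((hasDerivAt_id (0 : ℝ)).smul_const (Pi.single 2 1 : E3)).const_add x
      simpa using this
    have hx : HasFDerivAt F (fderiv ℝ F x) (x + (0 : ℝ) • (Pi.single 2 1 : E3)) := by
      simpa using hd x
    have h2 := hx.comp_hasDerivAt (0 : ℝ) hc
    have h3 : (F ∘ fun t : ℝ => x + t • (Pi.single 2 1 : E3)) = fun _ => F x := by
      funext t
      simp [F]
    rw [h3] at h2
    exact h2.unique (hasDerivAt_const (0 : ℝ) (F x))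
  by_contra hdet
  have hinj := (LinearMap.equivOfDetNeZero (fderiv ℝ F x : E3 →ₗ[ℝ] E3) hdet).injective
  have h4 : (Pi.single 2 1 : E3) = 0 := by
    apply hinj
    rw [map_zero]
    exact hker
  have h5 := congrFun h4 2
  simp at h5

/-- finite unions of smooth arcs -/
def Arcs {ι : Type} (g : ι → E3 → E3) (p q : ι → E3) : Set E3 :=
  ⋃ k, g k '' segment ℝ (p k) (q k)

theorem isCompact_Arcs {ι : Type} [Finite ι] (g : ι → E3 → E3) (hg : ∀ k, ContDiff ℝ smo (g k))
    (p q : ι → E3) : IsCompact (Arcs g p q) := by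
  refine isCompact_iUnion fun k => IsCompact.image ?_ (hg k).continuous
  rw [segment_eq_image']
  exact isCompact_Icc.image (by fun_prop)

/-- `t = 1` in `volume_cone` -/
theorem volume_Arcs {ι : Type} [Finite ι] (g : ι → E3 → E3) (hg : ∀ k, ContDiff ℝ smo (g k))
    (p q : ι → E3) : volume (Arcs g p q) = 0 := by
  refine measure_iUnion_null fun k => measure_mono_null ?_ (volume_cone (g k) (hg k) (p k) (q k) 0)
  rintro _ ⟨x, hx, rfl⟩
  rw [segment_eq_image'] at hx
  obtain ⟨s, -, rfl⟩ := hx
  exact ⟨s, 1, by simp⟩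

private theorem seg_sub {ι : Type} (g : ι → E3 → E3) (p q : ι → E3) (a b x r : E3)
    (hx : x ∈ Box a b \ Arcs g p q) (hr : r ∈ Box a b)
    (h : ∀ k, r ∉ {z : E3 | ∃ s t : ℝ, z = x + t • (g k (p k + s • (q k - p k)) - x)}) :
    segment ℝ x r ⊆ Box a b \ Arcs g p q := by
  intro z hz
  refine ⟨(convex_Box a b).segment_subset hx.1 hr hz, fun hA => ?_⟩
  obtain ⟨k, hk⟩ := mem_iUnion.1 hA
  obtain ⟨w, hw, hwz⟩ := hk
  rw [segment_eq_image'] at hz
  obtain ⟨τ, -, rfl⟩ := hz
  rw [segment_eq_image'] at hw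
  obtain ⟨s, hs, rfl⟩ := hw
  by_cases hτ : τ = 0
  · apply hx.2
    refine mem_iUnion.2 ⟨k, p k + s • (q k - p k), ?_, ?_⟩
    · rw [segment_eq_image']
      exact ⟨s, hs, rfl⟩
    · rw [hwz, hτ]
      simp
  · apply h k
    refine ⟨s, τ⁻¹, ?_⟩
    rw [hwz, add_sub_cancel_left, smul_smul, inv_mul_cancel₀ hτ, one_smul]
    abel

/-- Smooth arcs do not separate a box. Let `x, y` be points of `Box a b` off the arcs. The cones from
`x` and from `y` over the arcs are null (`volume_cone`), so there is `r ∈ Box a b` outside of all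
of them. Then the segments `[x, r]` and `[r, y]` lie in the box and miss the arcs: a point
`x + τ (r - x)` of the arc `g (p + s (q - p))` with `τ ≠ 0` gives `r = x + τ⁻¹ (g (...) - x)`, and
`τ = 0` is excluded as `x` is not on the arcs. (`IsPreconnected` from
`isPreconnected_of_forall_pair`.) -/
theorem isPreconnected_Box_diff_Arcs {ι : Type} [Finite ι] (g : ι → E3 → E3)
    (hg : ∀ k, ContDiff ℝ smo (g k)) (p q : ι → E3) (a b : E3) :
    IsPreconnected (Box a b \ Arcs g p q) := by
  refine isPreconnected_of_forall_pair fun x hx y hy => ?_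
  have hN : ∀ z : E3, volume (⋃ k, {w : E3 | ∃ s t : ℝ,
      w = z + t • (g k (p k + s • (q k - p k)) - z)}) = 0 := fun z =>
    measure_iUnion_null fun k => volume_cone (g k) (hg k) (p k) (q k) z
  obtain ⟨r, hr, hrN⟩ : ∃ r ∈ Box a b, r ∉ (⋃ k, {w : E3 | ∃ s t : ℝ,
      w = x + t • (g k (p k + s • (q k - p k)) - x)}) ∪ (⋃ k, {w : E3 | ∃ s t : ℝ,
      w = y + t • (g k (p k + s • (q k - p k)) - y)}) := by
    by_contra hcon
    push Not at hcon
    have h1 : volume (Box a b) = 0 :=
      measure_mono_null hcon (measure_union_null (hN x) (hN y))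
    exact ((isOpen_Box a b).measure_pos volume ⟨x, hx.1⟩).ne' h1
  rw [mem_union, not_or, mem_iUnion, mem_iUnion, not_exists, not_exists] at hrN
  refine ⟨segment ℝ x r ∪ segment ℝ y r,
    union_subset (seg_sub g p q a b x r hx hr hrN.1) (seg_sub g p q a b y r hy hr hrN.2),
    Or.inl (left_mem_segment ℝ x r), Or.inr (left_mem_segment ℝ y r), ?_⟩
  exact IsPreconnected.union r (right_mem_segment ℝ x r) (right_mem_segment ℝ y r)
    (convex_segment x r).isPreconnected (convex_segment y r).isPreconnected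

end Pool.Agent.QM59
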