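import Mathlib
import Pool.Agent.Lib.MP_decea1_gt_B.Arc1

/-!
# MP_decea1_gt (S14098), block B4.1 (b): smooth arcs do not separate connected open sets.
-/

set_option autoImplicit false

open MeasureTheory Set

namespace Pool.Agent.QM59

private theorem Arc2_isOpen_Box (a b : E3) : IsOpen (Box a b) := by
  have h : Box a b = ⋂ i : Fin 3, {x : E3 | a i < x i ∧ x i < b i} := by
    ext x
    simp only [Box, mem_ofPred_eq, mem_iInter]
  rw [h]
  refine isOpen_iInter_of_finite fun i => ?_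
  exact (isOpen_lt continuous_const (continuous_apply i)).inter
    (isOpen_lt (continuous_apply i) continuous_const)

private theorem Arc2_exists_box {U : Set E3} (hU : IsOpen U) {x : E3} (hx : x ∈ U) :
    ∃ a b : E3, x ∈ Box a b ∧ Box a b ⊆ U := by
  obtain ⟨r, hr, h⟩ := Metric.isOpen_iff.mp hU x hx
  refine ⟨fun i => x i - r, fun i => x i + r, fun i => ⟨by simp [hr], by simp [hr]⟩, ?_⟩
  intro y hy
  refine h ?_
  rw [Metric.mem_ball, dist_pi_lt_iff hr]
  intro i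
  have h1 := hy i
  rw [Real.dist_eq, abs_lt]
  constructor <;> linarith [h1.1, h1.2]

/-- From boxes to connected open sets. `U \ A` is nonempty since `A` is null. Let `O, O'` be open with
`U \ A ⊆ O ∪ O'`, both meeting `U \ A`, and suppose that `(U \ A) ∩ (O ∩ O')` is empty. Let `U₁` be the
set of `x ∈ U` such that there is a box `B` with `x ∈ B ⊆ U` and `B \ A ⊆ O`, and `U₂` the same with
`O'`. They are open. They cover `U`: for `x ∈ U` take a box `B` with `x ∈ B ⊆ U`; `B \ A` is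
preconnected and contained in `O ∪ O'`, and it does not meet `O ∩ O'`, so it lies in one of them
(`IsPreconnected.subset_left_of_subset_union` or the definition). They are disjoint: two such boxes
with a common point `x` have an open intersection, which is not null, so it contains a point of
`U \ A`, in `O ∩ O'`. Both are nonempty. This contradicts that `U` is connected. -/
theorem isConnected_diff_of_box {U A : Set E3} (hU : IsOpen U) (hc : IsConnected U)
    (hA : volume A = 0) (hb : ∀ a b : E3, IsPreconnected (Box a b \ A)) :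
    IsConnected (U \ A) := by
  have hpos : ∀ V : Set E3, IsOpen V → V.Nonempty → (V \ A).Nonempty := by
    intro V hV hne
    by_contra hcon
    rw [not_nonempty_iff_eq_empty, sdiff_eq_empty] at hcon
    have h1 := hV.measure_pos volume hne
    have h2 := measure_mono hcon (μ := volume)
    rw [hA] at h2
    exact absurd h1 (not_lt.mpr h2)
  refine ⟨hpos U hU hc.nonempty, ?_⟩
  intro O O' hO hO' hcov hne hne'
  by_contra hcon
  have hno : ∀ z, z ∈ U → z ∉ A → z ∈ O → z ∈ O' → False := fun z h1 h2 h3 h4 =>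
    hcon ⟨z, ⟨h1, h2⟩, h3, h4⟩
  have hopen : ∀ P : Set E3, IsOpen {x | ∃ a b, x ∈ Box a b ∧ Box a b ⊆ U ∧ Box a b \ A ⊆ P} := by
    intro P
    rw [isOpen_iff_forall_mem_open]
    rintro x ⟨a, b, h1, h2, h3⟩
    exact ⟨Box a b, fun y hy => ⟨a, b, hy, h2, h3⟩, Arc2_isOpen_Box a b, h1⟩
  have hcase : ∀ x ∈ U, ∃ a b, x ∈ Box a b ∧ Box a b ⊆ U ∧ (Box a b \ A ⊆ O ∨ Box a b \ A ⊆ O') := by
    intro x hx
    obtain ⟨a, b, h1, h2⟩ := Arc2_exists_box hU hx
    refine ⟨a, b, h1, h2, ?_⟩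
    have h3 : Box a b \ A ⊆ O ∪ O' := fun y hy => hcov ⟨h2 hy.1, hy.2⟩
    by_cases h4 : ((Box a b \ A) ∩ O).Nonempty
    · by_cases h5 : ((Box a b \ A) ∩ O').Nonempty
      · obtain ⟨z, hz1, hz2, hz3⟩ := hb a b O O' hO hO' h3 h4 h5
        exact (hno z (h2 hz1.1) hz1.2 hz2 hz3).elim
      · left
        intro y hy
        rcases h3 hy with h | h
        · exact h
        · exact (h5 ⟨y, hy, h⟩).elim
    · right
      intro y hy
      rcases h3 hy with h | h
      · exact (h4 ⟨y, hy, h⟩).elim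
      · exact h
  have hcovU : U ⊆ {x | ∃ a b, x ∈ Box a b ∧ Box a b ⊆ U ∧ Box a b \ A ⊆ O} ∪
      {x | ∃ a b, x ∈ Box a b ∧ Box a b ⊆ U ∧ Box a b \ A ⊆ O'} := by
    intro x hx
    obtain ⟨a, b, h1, h2, h3 | h3⟩ := hcase x hx
    · exact Or.inl ⟨a, b, h1, h2, h3⟩
    · exact Or.inr ⟨a, b, h1, h2, h3⟩
  have hn1 : (U ∩ {x | ∃ a b, x ∈ Box a b ∧ Box a b ⊆ U ∧ Box a b \ A ⊆ O}).Nonempty := by
    obtain ⟨y, hy1, hy2⟩ := hne
    obtain ⟨a, b, h1, h2, h3 | h3⟩ := hcase y hy1.1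
    · exact ⟨y, hy1.1, a, b, h1, h2, h3⟩
    · exact (hno y hy1.1 hy1.2 hy2 (h3 ⟨h1, hy1.2⟩)).elim
  have hn2 : (U ∩ {x | ∃ a b, x ∈ Box a b ∧ Box a b ⊆ U ∧ Box a b \ A ⊆ O'}).Nonempty := by
    obtain ⟨y, hy1, hy2⟩ := hne'
    obtain ⟨a, b, h1, h2, h3 | h3⟩ := hcase y hy1.1
    · exact (hno y hy1.1 hy1.2 (h3 ⟨h1, hy1.2⟩) hy2).elim
    · exact ⟨y, hy1.1, a, b, h1, h2, h3⟩
  obtain ⟨x, -, ⟨a, b, h1, h2, h3⟩, a', b', h1', h2', h3'⟩ :=
    hc.isPreconnected _ _ (hopen O) (hopen O') hcovU hn1 hn2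
  obtain ⟨z, ⟨hz1, hz2⟩, hz3⟩ := hpos (Box a b ∩ Box a' b')
    ((Arc2_isOpen_Box a b).inter (Arc2_isOpen_Box a' b')) ⟨x, h1, h1'⟩
  exact hno z (h2 hz1) hz3 (h3 ⟨hz1, hz3⟩) (h3' ⟨hz2, hz3⟩)

/-- B4.1 -/
theorem nonsep {U : Set E3} (hU : IsOpen U) (hc : IsConnected U) {ι : Type} [Finite ι]
    (g : ι → E3 → E3) (hg : ∀ k, ContDiff ℝ smo (g k)) (p q : ι → E3) :
    IsConnected (U \ Arcs g p q) :=
  isConnected_diff_of_box hU hc (volume_Arcs g hg p q)
    fun a b => isPreconnected_Box_diff_Arcs g hg p q a b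

end Pool.Agent.QM59
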