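import Mathlib
import Pool.Agent.Lib.MP_decea1_gt_A.J2

/-!
# MP_decea1_gt (S14098), block B0: algebra of homogeneous quasimorphisms.
-/

set_option autoImplicit false

open MeasureTheory Set

namespace Pool.Agent.QM59

section Algebra

variable {G : Type*} [Group G] {Γ : Subgroup G} {φ : G → ℝ} {D : ℝ}

theorem HQ.map_one (h : HQ Γ φ D) : φ 1 = 0 := by
  have := h.hom 1 Γ.one_mem 0
  simpa using this

theorem HQ.map_inv (h : HQ Γ φ D) {g : G} (hg : g ∈ Γ) : φ g⁻¹ = - φ g := by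
  have := h.hom g hg (-1)
  simpa using this

theorem HQ.map_pow (h : HQ Γ φ D) {g : G} (hg : g ∈ Γ) (n : ℕ) : φ (g ^ n) = n * φ g := by
  have := h.hom g hg n
  simpa using this

theorem HQ.dphi_le (h : HQ Γ φ D) {f g : G} (hf : f ∈ Γ) (hg : g ∈ Γ) : |dphi φ f g| ≤ D :=
  h.bdd f hf g hg

/-- a real number whose multiples are bounded vanishes -/
theorem eq_zero_of_nat_mul_le {a C : ℝ} (h : ∀ n : ℕ, n * |a| ≤ C) : a = 0 := by
  by_contra ha
  have hpos : 0 < |a| := abs_pos.mpr ha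
  obtain ⟨n, hn⟩ := exists_nat_gt (C / |a|)
  have h1 := h n
  rw [div_lt_iff₀ hpos] at hn
  linarith

theorem HQ.map_conj (h : HQ Γ φ D) {g k : G} (hg : g ∈ Γ) (hk : k ∈ Γ) :
    φ (k * g * k⁻¹) = φ g := by
  have key : φ (k * g * k⁻¹) - φ g = 0 := by
    refine eq_zero_of_nat_mul_le (C := 2 * D) fun n => ?_
    have e1 : (k * g * k⁻¹) ^ n = k * g ^ n * k⁻¹ := by
      rw [conj_pow]
    have m1 : k * g * k⁻¹ ∈ Γ := Γ.mul_mem (Γ.mul_mem hk hg) (Γ.inv_mem hk)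
    have m2 : g ^ n ∈ Γ := Γ.pow_mem hg n
    have a1 := h.map_pow m1 n
    have a2 := h.map_pow hg n
    have a3 := h.bdd _ (Γ.mul_mem hk m2) _ (Γ.inv_mem hk)
    have a4 := h.bdd _ hk _ m2
    have a5 := h.map_inv hk
    rw [e1] at a1
    rw [a5] at a3
    have : (n : ℝ) * |φ (k * g * k⁻¹) - φ g| = |φ (k * g ^ n * k⁻¹) - φ (g ^ n)| := by
      rw [a1, a2, ← mul_sub, abs_mul, Nat.abs_cast]
    rw [this]
    have e2 : φ (k * g ^ n * k⁻¹) - φ (g ^ n)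
        = (φ (k * g ^ n * k⁻¹) - φ (k * g ^ n) - -φ k) + (φ (k * g ^ n) - φ k - φ (g ^ n)) := by
      ring
    rw [e2]
    calc _ ≤ _ := abs_add_le _ _
      _ ≤ D + D := add_le_add a3 a4
      _ = 2 * D := by ring
  linarith

theorem HQ.map_conj' (h : HQ Γ φ D) {g k : G} (hg : g ∈ Γ) (hk : k ∈ Γ) :
    φ (k⁻¹ * g * k) = φ g := by
  have := h.map_conj hg (Γ.inv_mem hk)
  simpa using this

theorem HQ.map_mul_of_commute (h : HQ Γ φ D) {g k : G} (hg : g ∈ Γ) (hk : k ∈ Γ)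
    (hc : Commute g k) : φ (g * k) = φ g + φ k := by
  have key : φ (g * k) - φ g - φ k = 0 := by
    refine eq_zero_of_nat_mul_le (C := D) fun n => ?_
    have a1 := h.map_pow (Γ.mul_mem hg hk) n
    have a2 := h.map_pow hg n
    have a3 := h.map_pow hk n
    have a4 := h.bdd _ (Γ.pow_mem hg n) _ (Γ.pow_mem hk n)
    rw [hc.mul_pow] at a1
    have : (n : ℝ) * |φ (g * k) - φ g - φ k| = |φ (g ^ n * k ^ n) - φ (g ^ n) - φ (k ^ n)| := by
      rw [a1, a2, a3, ← mul_sub, ← mul_sub, abs_mul, Nat.abs_cast]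
    rw [this]
    exact a4
  linarith

theorem HQ.abs_commutator_le (h : HQ Γ φ D) {g k : G} (hg : g ∈ Γ) (hk : k ∈ Γ) :
    |φ (g * k * g⁻¹ * k⁻¹)| ≤ D := by
  have a1 := h.map_conj hk hg
  have a2 := h.map_inv hk
  have a3 := h.bdd _ (Γ.mul_mem (Γ.mul_mem hg hk) (Γ.inv_mem hg)) _ (Γ.inv_mem hk)
  rw [a1, a2] at a3
  simpa using a3

theorem HQ.dphi_inv (h : HQ Γ φ D) {x y : G} (hx : x ∈ Γ) (hy : y ∈ Γ) :
    dphi φ y⁻¹ x⁻¹ = - dphi φ x y := by
  have e : y⁻¹ * x⁻¹ = (x * y)⁻¹ := by group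
  simp only [dphi]
  rw [e, h.map_inv (Γ.mul_mem hx hy), h.map_inv hx, h.map_inv hy]
  ring

theorem HQ.dphi_conj (h : HQ Γ φ D) {x y k : G} (hx : x ∈ Γ) (hy : y ∈ Γ) (hk : k ∈ Γ) :
    dphi φ (k * x * k⁻¹) (k * y * k⁻¹) = dphi φ x y := by
  have e : k * x * k⁻¹ * (k * y * k⁻¹) = k * (x * y) * k⁻¹ := by group
  simp only [dphi]
  rw [e, h.map_conj (Γ.mul_mem hx hy) hk, h.map_conj hx hk, h.map_conj hy hk]

theorem HQ.dphi_conj' (h : HQ Γ φ D) {x y k : G} (hx : x ∈ Γ) (hy : y ∈ Γ) (hk : k ∈ Γ) :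
    dphi φ (k⁻¹ * x * k) (k⁻¹ * y * k) = dphi φ x y := by
  have := h.dphi_conj hx hy (Γ.inv_mem hk)
  simpa using this

/-- B0.3, abstract form: commuting pairs -/
theorem HQ.exists_sum_dphi {ι : Type*} (h : HQ Γ φ D) (s : Finset ι) (x y : ι → G)
    (hx : ∀ i ∈ s, x i ∈ Γ) (hy : ∀ i ∈ s, y i ∈ Γ)
    (hc : ∀ i ∈ s, ∀ j ∈ s, i ≠ j → Commute (x i) (x j) ∧ Commute (x i) (y j) ∧
      Commute (y i) (y j)) :
    ∃ X ∈ Γ, ∃ Y ∈ Γ, ∑ i ∈ s, dphi φ (x i) (y i) = dphi φ X Y ∧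
      ∀ z : G, (∀ i ∈ s, Commute z (x i)) → (∀ i ∈ s, Commute z (y i)) →
        Commute z X ∧ Commute z Y := by
  classical
  induction s using Finset.induction_on with
  | empty =>
    refine ⟨1, Γ.one_mem, 1, Γ.one_mem, ?_, fun z _ _ => ⟨Commute.one_right _,
      Commute.one_right _⟩⟩
    simp [dphi, h.map_one]
  | insert a s ha ih =>
    obtain ⟨X, hX, Y, hY, hs, hz⟩ := ih (fun i hi => hx i (Finset.mem_insert_of_mem hi))
      (fun i hi => hy i (Finset.mem_insert_of_mem hi))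
      (fun i hi j hj => hc i (Finset.mem_insert_of_mem hi) j (Finset.mem_insert_of_mem hj))
    have haa := Finset.mem_insert_self a s
    have hne : ∀ i ∈ s, i ≠ a := fun i hi e => ha (e ▸ hi)
    have hxa := hx a haa
    have hya := hy a haa
    have c1 := hz (x a)
      (fun i hi => ((hc i (Finset.mem_insert_of_mem hi) a haa (hne i hi)).1).symm)
      (fun i hi => (hc a haa i (Finset.mem_insert_of_mem hi) (hne i hi).symm).2.1)
    have c2 := hz (y a)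
      (fun i hi => ((hc i (Finset.mem_insert_of_mem hi) a haa (hne i hi)).2.1).symm)
      (fun i hi => ((hc i (Finset.mem_insert_of_mem hi) a haa (hne i hi)).2.2).symm)
    refine ⟨X * x a, Γ.mul_mem hX hxa, Y * y a, Γ.mul_mem hY hya, ?_, ?_⟩
    · rw [Finset.sum_insert ha, hs]
      have e : X * x a * (Y * y a) = X * Y * (x a * y a) := by
        have : x a * Y = Y * x a := c1.2
        calc X * x a * (Y * y a) = X * (x a * Y) * y a := by group
          _ = X * (Y * x a) * y a := by rw [this]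
          _ = X * Y * (x a * y a) := by group
      have cc : Commute (X * Y) (x a * y a) :=
        Commute.mul_right (Commute.mul_left c1.1.symm c1.2.symm)
          (Commute.mul_left c2.1.symm c2.2.symm)
      simp only [dphi]
      rw [e, h.map_mul_of_commute (Γ.mul_mem hX hY) (Γ.mul_mem hxa hya) cc,
        h.map_mul_of_commute hX hxa c1.1.symm, h.map_mul_of_commute hY hya c2.2.symm]
      ring
    · intro z h1 h2
      obtain ⟨d1, d2⟩ := hz z (fun i hi => h1 i (Finset.mem_insert_of_mem hi))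
        (fun i hi => h2 i (Finset.mem_insert_of_mem hi))
      exact ⟨d1.mul_right (h1 a haa), d2.mul_right (h2 a haa)⟩

theorem HQ.sum_dphi_le {ι : Type*} (h : HQ Γ φ D) (s : Finset ι) (x y : ι → G)
    (hx : ∀ i ∈ s, x i ∈ Γ) (hy : ∀ i ∈ s, y i ∈ Γ)
    (hc : ∀ i ∈ s, ∀ j ∈ s, i ≠ j → Commute (x i) (x j) ∧ Commute (x i) (y j) ∧
      Commute (y i) (y j)) :
    ∑ i ∈ s, dphi φ (x i) (y i) ≤ D := by
  obtain ⟨X, hX, Y, hY, hs, -⟩ := h.exists_sum_dphi s x y hx hy hc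
  rw [hs]
  exact (le_abs_self _).trans (h.bdd X hX Y hY)

/-- the partial products `u_{n-1} ⋯ u_1 u_0` with `u_i = x⁻ⁱ u xⁱ` -/
def pprod (x u : G) : ℕ → G
  | 0 => 1
  | n + 1 => (x⁻¹ ^ n * u * x ^ n) * pprod x u n

theorem mul_pow_eq_pprod (x u : G) (n : ℕ) : (x * u) ^ n = x ^ n * pprod x u n := by
  induction n with
  | zero => simp [pprod]
  | succ n ih =>
    rw [pow_succ', ih, pprod, pow_succ']
    have : x⁻¹ ^ n = (x ^ n)⁻¹ := by rw [inv_pow]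
    rw [this]
    group

/-- B0.4, abstract form -/
theorem HQ.power_bound (h : HQ Γ φ D) {x u : G} (hx : x ∈ Γ) (hu : u ∈ Γ) {Δ : Subgroup G}
    {c : ℝ} (hΔ : ∀ f ∈ Δ, ∀ g ∈ Δ, |dphi φ f g| ≤ c) (hle : Δ ≤ Γ) (n : ℕ) (hn : 1 ≤ n)
    (hi : ∀ i < n, x⁻¹ ^ i * u * x ^ i ∈ Δ) :
    |φ (x * u) - φ x - φ u| ≤ D / n + c := by
  have hc0 : 0 ≤ c := by
    have := hΔ 1 Δ.one_mem 1 Δ.one_mem
    exact (abs_nonneg _).trans this
  have hP : ∀ m, m ≤ n → pprod x u m ∈ Δ := by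
    intro m
    induction m with
    | zero => intro _; exact Δ.one_mem
    | succ m ih => intro hm; exact Δ.mul_mem (hi m (by omega)) (ih (by omega))
  have hconj : ∀ i : ℕ, φ (x⁻¹ ^ i * u * x ^ i) = φ u := by
    intro i
    have := h.map_conj' hu (Γ.pow_mem hx i)
    rwa [← inv_pow] at this
  have hQ : ∀ m : ℕ, m + 1 ≤ n → |φ (pprod x u (m + 1)) - (m + 1) * φ u| ≤ m * c := by
    intro m
    induction m with
    | zero =>
      intro _
      simp [pprod]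
    | succ m ih =>
      intro hm
      have a1 := ih (by omega)
      have a2 := hΔ _ (hi (m + 1) (by omega)) _ (hP (m + 1) (by omega))
      simp only [dphi] at a2
      rw [hconj] at a2
      have e1 : φ (pprod x u (m + 1 + 1)) - ((m + 1 : ℕ) + 1) * φ u
          = (φ (x⁻¹ ^ (m + 1) * u * x ^ (m + 1) * pprod x u (m + 1)) - φ u
              - φ (pprod x u (m + 1)))
            + (φ (pprod x u (m + 1)) - (m + 1) * φ u) := by
        push_cast
        rw [pprod]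
        ring
      rw [e1]
      calc _ ≤ _ := abs_add_le _ _
        _ ≤ c + m * c := add_le_add a2 a1
        _ = ((m + 1 : ℕ) : ℝ) * c := by push_cast; ring
  obtain ⟨m, rfl⟩ : ∃ m, n = m + 1 := ⟨n - 1, by omega⟩
  have b1 := hQ m le_rfl
  have b2 := h.bdd _ (Γ.pow_mem hx (m + 1)) _ (hle (hP (m + 1) le_rfl))
  rw [← mul_pow_eq_pprod, h.map_pow (Γ.mul_mem hx hu), h.map_pow hx] at b2
  have hpos : (0 : ℝ) < ((m + 1 : ℕ) : ℝ) := by positivity
  have b3 : ((m + 1 : ℕ) : ℝ) * |φ (x * u) - φ x - φ u| ≤ D + m * c := by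
    have e2 : ((m + 1 : ℕ) : ℝ) * |φ (x * u) - φ x - φ u|
        = |((m + 1 : ℕ) : ℝ) * φ (x * u) - ((m + 1 : ℕ) : ℝ) * φ x
            - ((m + 1 : ℕ) : ℝ) * φ u| := by
      rw [← mul_sub, ← mul_sub, abs_mul, abs_of_pos hpos]
    rw [e2]
    have e3 : ((m + 1 : ℕ) : ℝ) * φ (x * u) - ((m + 1 : ℕ) : ℝ) * φ x
            - ((m + 1 : ℕ) : ℝ) * φ u
        = (((m + 1 : ℕ) : ℝ) * φ (x * u) - ((m + 1 : ℕ) : ℝ) * φ x - φ (pprod x u (m + 1)))
          + (φ (pprod x u (m + 1)) - (m + 1) * φ u) := by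
      push_cast
      ring
    rw [e3]
    exact (abs_add_le _ _).trans (add_le_add b2 b1)
  have b4 : |φ (x * u) - φ x - φ u| ≤ (D + m * c) / ((m + 1 : ℕ) : ℝ) := by
    rw [le_div_iff₀ hpos, mul_comm]
    exact b3
  refine b4.trans ?_
  rw [add_div]
  have : m * c / ((m + 1 : ℕ) : ℝ) ≤ c := by
    rw [div_le_iff₀ hpos]
    push_cast
    nlinarith
  linarith

end Algebra

/-! ### permutations of `E3` with supports -/

theorem IdOff.apply_mem_iff {K : Set E3} {f : Equiv.Perm E3} (hf : IdOff K f) (x : E3) :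
    f x ∈ K ↔ x ∈ K := by
  constructor
  · intro h
    by_contra hx
    rw [hf x hx] at h
    exact hx h
  · intro h
    by_contra hx
    have := hf _ hx
    have h2 := f.injective this
    rw [h2] at hx
    exact hx h

theorem IdOff.mul' {K L : Set E3} {f g : Equiv.Perm E3} (hf : IdOff K f) (hg : IdOff L g) :
    IdOff (K ∪ L) (f * g) :=
  (hf.mono subset_union_left).mul (hg.mono subset_union_right)

/-- supports of conjugates -/
theorem IdOff.conj' {K : Set E3} {f : Equiv.Perm E3} (hf : IdOff K f) (m : Equiv.Perm E3) :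
    IdOff (m ⁻¹' K) (m⁻¹ * f * m) := fun x hx => by
  have h1 : m x ∉ K := hx
  rw [Equiv.Perm.mul_apply, Equiv.Perm.mul_apply, hf _ h1]
  simp

theorem IdOff.commute {K L : Set E3} {f g : Equiv.Perm E3} (hf : IdOff K f) (hg : IdOff L g)
    (hd : Disjoint K L) : Commute f g := by
  have : Equiv.Perm.Disjoint f g := by
    intro x
    by_cases hx : x ∈ K
    · right
      exact hg x (fun h => (Set.disjoint_left.mp hd) hx h)
    · left
      exact hf x hx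
  exact this.commute

/-- the subgroup of elements of `Γ` which are the identity off `L` -/
def subOff (Γ : Subgroup (Equiv.Perm E3)) (L : Set E3) : Subgroup (Equiv.Perm E3) where
  carrier := {f | f ∈ Γ ∧ IdOff L f}
  mul_mem' := fun ha hb => ⟨Γ.mul_mem ha.1 hb.1, ha.2.mul hb.2⟩
  one_mem' := ⟨Γ.one_mem, IdOff.one L⟩
  inv_mem' := fun ha => ⟨Γ.inv_mem ha.1, ha.2.inv⟩

theorem mem_subOff {Γ : Subgroup (Equiv.Perm E3)} {L : Set E3} {f : Equiv.Perm E3} :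
    f ∈ subOff Γ L ↔ f ∈ Γ ∧ IdOff L f := Iff.rfl

variable {Γ : Subgroup (Equiv.Perm E3)} {φ : Equiv.Perm E3 → ℝ} {D : ℝ}

theorem DB.mono {K : Set E3} {c c' : ℝ} (h : DB Γ φ K c) (hc : c ≤ c') : DB Γ φ K c' :=
  fun f hf g hg h1 h2 => (h f hf g hg h1 h2).trans hc

theorem DB.mono_set {K L : Set E3} {c : ℝ} (h : DB Γ φ L c) (hKL : K ⊆ L) : DB Γ φ K c :=
  fun f hf g hg h1 h2 => h f hf g hg (h1.mono hKL) (h2.mono hKL)

theorem DB.nonneg {K : Set E3} {c : ℝ} (h : DB Γ φ K c) : 0 ≤ c :=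
  (abs_nonneg _).trans (h 1 Γ.one_mem 1 Γ.one_mem (IdOff.one K) (IdOff.one K))

/-- it suffices to bound `dphi` from above -/
theorem DB.of_le (h : HQ Γ φ D) {K : Set E3} {c : ℝ}
    (hc : ∀ f ∈ Γ, ∀ g ∈ Γ, IdOff K f → IdOff K g → 0 ≤ dphi φ f g → dphi φ f g ≤ c)
    (hc0 : 0 ≤ c) : DB Γ φ K c := by
  have hc' : ∀ f ∈ Γ, ∀ g ∈ Γ, IdOff K f → IdOff K g → dphi φ f g ≤ c := by
    intro f hf g hg h1 h2
    rcases le_total 0 (dphi φ f g) with h0 | h0
    · exact hc f hf g hg h1 h2 h0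
    · exact h0.trans hc0
  intro f hf g hg h1 h2
  rw [abs_le]
  constructor
  · have := hc' _ (Γ.inv_mem hg) _ (Γ.inv_mem hf) h2.inv h1.inv
    rw [h.dphi_inv hf hg] at this
    linarith
  · exact hc' f hf g hg h1 h2

/-- B0.3: pairwise disjoint supports -/
theorem B03 {ι : Type*} (h : HQ Γ φ D) (s : Finset ι) (K : ι → Set E3)
    (x y : ι → Equiv.Perm E3) (hx : ∀ i ∈ s, x i ∈ Γ) (hy : ∀ i ∈ s, y i ∈ Γ)
    (hxK : ∀ i ∈ s, IdOff (K i) (x i)) (hyK : ∀ i ∈ s, IdOff (K i) (y i))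
    (hd : ∀ i ∈ s, ∀ j ∈ s, i ≠ j → Disjoint (K i) (K j)) :
    ∑ i ∈ s, dphi φ (x i) (y i) ≤ D :=
  h.sum_dphi_le s x y hx hy fun i hi j hj hij =>
    ⟨(hxK i hi).commute (hxK j hj) (hd i hi j hj hij),
      (hxK i hi).commute (hyK j hj) (hd i hi j hj hij),
      (hyK i hi).commute (hyK j hj) (hd i hi j hj hij)⟩

/-- B0.4 -/
theorem B04 (h : HQ Γ φ D) {x u : Equiv.Perm E3} (hx : x ∈ Γ) (hu : u ∈ Γ) {L : Set E3} {c : ℝ}
    (hL : DB Γ φ L c) (n : ℕ) (hn : 1 ≤ n)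
    (hi : ∀ i < n, IdOff L (x⁻¹ ^ i * u * x ^ i)) :
    |φ (x * u) - φ x - φ u| ≤ D / n + c := by
  refine h.power_bound hx hu (Δ := subOff Γ L) (fun f hf g hg => hL f hf.1 g hg.1 hf.2 hg.2)
    (fun f hf => hf.1) n hn fun i hi' => ⟨?_, hi i hi'⟩
  exact Γ.mul_mem (Γ.mul_mem (Γ.pow_mem (Γ.inv_mem hx) i) hu) (Γ.pow_mem hx i)

/-- B0.4 with the hypothesis on the support of `u` -/
theorem B04' (h : HQ Γ φ D) {x u : Equiv.Perm E3} (hx : x ∈ Γ) (hu : u ∈ Γ) {L K : Set E3} {c : ℝ}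
    (hL : DB Γ φ L c) (n : ℕ) (hn : 1 ≤ n) (hK : IdOff K u)
    (hi : ∀ i < n, ∀ z, (x ^ i) z ∈ K → z ∈ L) :
    |φ (x * u) - φ x - φ u| ≤ D / n + c := by
  refine B04 h hx hu hL n hn fun i hi' => ?_
  have e : x⁻¹ ^ i * u * x ^ i = (x ^ i)⁻¹ * u * x ^ i := by rw [inv_pow]
  rw [e]
  exact (hK.conj' (x ^ i)).mono fun z hz => hi i hi' z hz

end Pool.Agent.QM59
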