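import Mathlib
import Pool.Agent.Lib.MP_decea1_gt_A.A1

/-!
# MP_decea1_gt (S14098), block B1.1 (CL): contraction lemma.
-/

set_option autoImplicit false

open MeasureTheory Set
open scoped Topology

namespace Pool.Agent.QM59

/-- a smooth map with compact support has bounded derivative -/
theorem exists_fderiv_bound {u : E3 → E3} (hu : ContDiff ℝ smo u) {K : Set E3}
    (hK : IsCompact K) (h0 : ∀ x, x ∉ K → u x = 0) :
    ∃ C : ℝ, 0 < C ∧ ∀ x, ‖fderiv ℝ u x‖ ≤ C := by
  have h1 : HasCompactSupport u := HasCompactSupport.intro hK h0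
  have h2 : HasCompactSupport (fderiv ℝ u) := h1.fderiv ℝ
  have h3 : Continuous (fderiv ℝ u) := hu.continuous_fderiv (by simp [smo])
  obtain ⟨C, hC⟩ := h2.exists_bound_of_continuous h3
  exact ⟨max C 1, lt_of_lt_of_le one_pos (le_max_right _ _),
    fun x => (hC x).trans (le_max_left _ _)⟩

/-- one contraction step -/
theorem CL_step (a b a' b' p : E3) (ha : ∀ i, a i < a' i) (hb : ∀ i, b' i < b i)
    (I : Finset (Fin 3)) :
    ∃ t0 : ℝ, 0 < t0 ∧ ∀ t : ℝ, 0 ≤ t → t ≤ t0 → ∃ f : Equiv.Perm E3, InIso (Box a b) f ∧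
      ∀ x ∈ Icc a' b', ∀ i, f x i = if i ∈ I then x i + t * (p i - x i) else x i := by
  have hsub : Icc a' b' ⊆ Box a b := fun x hx i =>
    ⟨lt_of_lt_of_le (ha i) (hx.1 i), lt_of_le_of_lt (hx.2 i) (hb i)⟩
  obtain ⟨χ, hχs, -, ⟨W, -, hKW, hW⟩, K', hK', hK'B, hK'0⟩ :=
    exists_bump (Box a b) (Icc a' b') (isOpen_Box a b) isCompact_Icc hsub
  set w : E3 → E3 := fun x => χ x • (fun i => if i ∈ I then p i - x i else 0) with hwdef
  have hw : ContDiff ℝ smo w := by
    refine hχs.smul (contDiff_pi.mpr fun i => ?_)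
    by_cases hi : i ∈ I
    · simp only [hi, if_true]
      exact contDiff_const.sub (contDiff_apply ℝ ℝ i)
    · simp only [hi, if_false]
      exact contDiff_const
  have hw0 : ∀ x, x ∉ K' → w x = 0 := fun x hx => by simp [hwdef, hK'0 x hx]
  obtain ⟨C, hC, hCb⟩ := exists_fderiv_bound hw hK' hw0
  refine ⟨1 / (2 * C), by positivity, fun t ht ht0 => ?_⟩
  obtain ⟨f, hf, hfx⟩ := A1 (Box a b) (isOpen_Box a b) (fun x => t • w x) (hw.const_smul t) K' hK'
    hK'B (fun x hx => by simp [hw0 x hx]) (fun x => by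
      rw [fderiv_fun_const_smul (hw.contDiffAt.differentiableAt (by simp [smo]))]
      rw [norm_smul, Real.norm_eq_abs, abs_of_nonneg ht]
      calc t * ‖fderiv ℝ w x‖ ≤ 1 / (2 * C) * C :=
            mul_le_mul ht0 (hCb x) (norm_nonneg _) (by positivity)
        _ = 1 / 2 := by field_simp)
  refine ⟨f, hf, fun x hx i => ?_⟩
  rw [hfx]
  simp only [hwdef, hW x (hKW hx), Pi.add_apply, Pi.smul_apply, one_smul, smul_eq_mul]
  split_ifs <;> simp

/-- B1.1 (CL) -/
theorem CL (a b a' b' p : E3) (ha : ∀ i, a i < a' i) (hb : ∀ i, b' i < b i)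
    (hp : p ∈ Icc a' b') (I : Finset (Fin 3)) (q : ℝ) (hq : 0 < q) (hq1 : q ≤ 1) :
    ∃ lam : Equiv.Perm E3, InIso (Box a b) lam ∧
      ∀ x ∈ Icc a' b', ∀ i, lam x i = if i ∈ I then p i + q * (x i - p i) else x i := by
  obtain ⟨t0, ht0, hstep⟩ := CL_step a b a' b' p ha hb I
  -- `N` with `1 - q^(1/N) ≤ t0`
  obtain ⟨N, hN, hNt⟩ : ∃ N : ℕ, 1 ≤ N ∧ 1 - q ^ ((1 : ℝ) / N) ≤ t0 := by
    have h1 : Filter.Tendsto (fun n : ℕ => q ^ ((1 : ℝ) / n)) Filter.atTop (𝓝 (q ^ (0 : ℝ))) := by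
      refine Filter.Tendsto.rpow tendsto_const_nhds tendsto_one_div_atTop_nhds_zero_nat
        (Or.inl hq.ne')
    rw [Real.rpow_zero] at h1
    have h2 := (h1.eventually (lt_mem_nhds (show (1 : ℝ) - t0 < 1 by linarith))).and
      (Filter.eventually_ge_atTop 1)
    obtain ⟨N, hN1, hN2⟩ := h2.exists
    exact ⟨N, hN2, by linarith⟩
  set s : ℝ := q ^ ((1 : ℝ) / N) with hs
  have hs0 : 0 < s := Real.rpow_pos_of_pos hq _
  have hs1 : s ≤ 1 := Real.rpow_le_one hq.le hq1 (by positivity)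
  have hsN : s ^ N = q := by
    rw [hs, ← Real.rpow_natCast, ← Real.rpow_mul hq.le, one_div,
      inv_mul_cancel₀ (by positivity), Real.rpow_one]
  obtain ⟨f, hf, hfx⟩ := hstep (1 - s) (by linarith) hNt
  have key : ∀ n : ℕ, InIso (Box a b) (f ^ n) ∧ ∀ x ∈ Icc a' b', (f ^ n) x ∈ Icc a' b' ∧
      ∀ i, (f ^ n) x i = if i ∈ I then p i + s ^ n * (x i - p i) else x i := by
    intro n
    induction n with
    | zero =>
      refine ⟨by simpa using InIso.one (Box a b), fun x hx => ⟨by simpa using hx, fun i => ?_⟩⟩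
      split_ifs <;> simp
    | succ n ih =>
      obtain ⟨ih1, ih2⟩ := ih
      refine ⟨by rw [pow_succ']; exact hf.mul ih1, fun x hx => ?_⟩
      obtain ⟨h3, h4⟩ := ih2 x hx
      have h5 : ∀ i, (f ^ (n + 1)) x i
          = if i ∈ I then p i + s ^ (n + 1) * (x i - p i) else x i := by
        intro i
        rw [pow_succ' f n, Equiv.Perm.mul_apply, hfx _ h3 i, h4 i]
        split_ifs
        · rw [pow_succ]
          ring
        · rfl
      refine ⟨⟨fun i => ?_, fun i => ?_⟩, h5⟩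
      · rw [h5 i]
        split_ifs
        · have h6 : 0 < s ^ (n + 1) := by positivity
          have h7 : s ^ (n + 1) ≤ 1 := pow_le_one₀ hs0.le hs1
          nlinarith [hp.1 i, hx.1 i]
        · exact hx.1 i
      · rw [h5 i]
        split_ifs
        · have h6 : 0 < s ^ (n + 1) := by positivity
          have h7 : s ^ (n + 1) ≤ 1 := pow_le_one₀ hs0.le hs1
          nlinarith [hp.2 i, hx.2 i]
        · exact hx.2 i
  refine ⟨f ^ N, (key N).1, fun x hx i => ?_⟩
  rw [((key N).2 x hx).2 i, hsN]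

end Pool.Agent.QM59
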