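import Mathlib
import Pool.Agent.Lib.MP_decea1_gt_A.Bump

/-!
# MP_decea1_gt (S14098), block B: bump functions.
-/

set_option autoImplicit false

open MeasureTheory Set
open scoped Manifold ContDiff Topology

namespace Pool.Agent.QM59

/-- a nonnegative smooth function of integral one with support in a small compact set -/
theorem exists_unit_bump {U : Set E3} (hU : IsOpen U) (hne : U.Nonempty) :
    ∃ β : E3 → ℝ, ContDiff ℝ smo β ∧ (∀ x, 0 ≤ β x) ∧ ∫ x, β x = 1 ∧
      ∃ K' : Set E3, IsCompact K' ∧ K' ⊆ U ∧ ∀ x, x ∉ K' → β x = 0 := by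
  obtain ⟨c, hc⟩ := hne
  obtain ⟨ε, hε, hb⟩ := Metric.isOpen_iff.mp hU c hc
  let f : ContDiffBump c := ⟨ε / 4, ε / 2, by positivity, by linarith⟩
  refine ⟨f.normed volume, f.contDiff_normed, fun x => f.nonneg_normed x,
    f.integral_normed, Metric.closedBall c (ε / 2), isCompact_closedBall _ _,
    (Metric.closedBall_subset_ball (by linarith)).trans hb, fun x hx => ?_⟩
  have h1 := f.support_normed_eq (μ := volume)
  have h2 : x ∉ Function.support (f.normed volume) := by
    rw [h1]
    intro h
    exact hx (Metric.ball_subset_closedBall h)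
  simpa using h2

end Pool.Agent.QM59
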