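import Mathlib
import Pool.Agent.Lib.MP_decea1_gt_B.Bump

/-!
# MP_decea1_gt (S14098), block B1.2 (DENS): densities with prescribed masses.
-/

set_option autoImplicit false

open MeasureTheory Set
open scoped Topology ENNReal

namespace Pool.Agent.QM59

/-- B1.2 (DENS) -/
theorem DENS {r : ℕ} {S A : Set E3} (hS : IsOpen S) (hSm : volume S ≠ ⊤) (hA : IsCompact A)
    (hAS : A ⊆ S) (V : Fin r → Set E3) (ho : ∀ i, IsOpen (V i)) (hne : ∀ i, (V i).Nonempty)
    (hd : Pairwise fun i j => Disjoint (V i) (V j)) (hU : S \ A = ⋃ i, V i)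
    (T : Fin r → ℝ) (hT : ∀ i, 0 < T i) (j : E3 → ℝ) (hj : ContDiff ℝ smo j)
    (hjp : ∀ x, 0 < j x) :
    ∃ J : E3 → ℝ, ContDiff ℝ smo J ∧ (∀ x, 0 < J x) ∧
      (∃ W : Set E3, IsOpen W ∧ A ⊆ W ∧ ∀ x ∈ W, J x = j x) ∧
      (∃ K : Set E3, IsCompact K ∧ K ⊆ S ∧ A ⊆ K ∧ ∀ x, x ∉ K → J x = 1) ∧
      ∀ i, ∫ x in V i, J x = T i := by
  classical
  have hVS : ∀ i, V i ⊆ S \ A := fun i => hU ▸ subset_iUnion V i
  have hVfin : ∀ i, volume (V i) ≠ ⊤ := fun i =>
    ne_top_of_le_ne_top hSm (measure_mono ((hVS i).trans sdiff_subset))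
  choose β hβs hβ0 hβ1 Kβ hKc hKV hKβ using fun i => exists_unit_bump (ho i) (hne i)
  obtain ⟨τ, hτ, hτT⟩ : ∃ τ : ℝ, 0 < τ ∧ ∀ i, τ ≤ T i := by
    rcases isEmpty_or_nonempty (Fin r) with h | h
    · exact ⟨1, one_pos, fun i => h.elim i⟩
    · obtain ⟨i0, hi0⟩ := Finite.exists_min T
      exact ⟨T i0, hT i0, hi0⟩
  obtain ⟨K0, hK0, hAK0, hK0S⟩ := exists_compact_between hA hS hAS
  obtain ⟨M0, hM0⟩ := hK0.exists_bound_of_continuousOn hj.continuous.continuousOn
  set M : ℝ := max M0 1 with hMdef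
  have hM1 : 1 ≤ M := le_max_right _ _
  have hM : ∀ x ∈ K0, j x ≤ M := fun x hx =>
    (le_abs_self _).trans ((hM0 x hx).trans (le_max_left _ _))
  set ε : ℝ := τ / (4 * (M + 1)) with hεdef
  have hε : 0 < ε := by positivity
  have hεM : (M + 1) * ε = τ / 4 := by rw [hεdef]; field_simp
  set vS : ℝ := volume.real S with hvS
  have hvS0 : 0 ≤ vS := measureReal_nonneg
  set δ : ℝ := min (1 / 2) (τ / (4 * (vS + 1))) with hδdef
  have hδ0 : 0 < δ := lt_min (by norm_num) (by positivity)
  have hδ1 : δ ≤ 1 / 2 := min_le_left _ _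
  have hδS : δ * vS ≤ τ / 4 := by
    have h1 : δ ≤ τ / (4 * (vS + 1)) := min_le_right _ _
    calc δ * vS ≤ τ / (4 * (vS + 1)) * (vS + 1) :=
          mul_le_mul h1 (by linarith) hvS0 (by positivity)
      _ = τ / 4 := by field_simp
  have hεE : ENNReal.ofReal ε ≠ 0 := by simpa using hε
  obtain ⟨W0, hAW0, hW0o, -, hW0⟩ :=
    hA.measurableSet.exists_isOpen_sdiff_lt (hA.measure_lt_top (μ := volume)).ne hεE
  obtain ⟨K2, hK2S, hK2, hK2m⟩ := hS.measurableSet.exists_isCompact_sdiff_lt hSm hεE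
  have hUK : IsCompact (⋃ i, Kβ i) := isCompact_iUnion hKc
  set W1 : Set E3 := W0 ∩ interior K0 ∩ (⋃ i, Kβ i)ᶜ with hW1def
  have hW1o : IsOpen W1 := (hW0o.inter isOpen_interior).inter hUK.isClosed.isOpen_compl
  have hAβ : ∀ i, ∀ x ∈ A, x ∉ Kβ i := fun i x hx hxK => (hVS i (hKV i hxK)).2 hx
  have hAW1 : A ⊆ W1 := fun x hx => ⟨⟨hAW0 hx, hAK0 hx⟩, by
    simp only [mem_compl_iff, mem_iUnion, not_exists]
    exact fun i => hAβ i x hx⟩
  obtain ⟨ζ, hζs, hζ01, ⟨Wζ, hWζo, hAWζ, hWζ⟩, Kζ, hKζ, hKζW, hζ0⟩ :=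
    exists_bump W1 A hW1o hA hAW1
  obtain ⟨om, homs, hom01, ⟨Wom, hWomo, hKWom, hWom⟩, Kom, hKom, hKomS, hom0⟩ :=
    exists_bump S K2 hS hK2 hK2S
  set J0 : E3 → ℝ := fun x => ζ x * j x + (1 - ζ x) * (1 - (1 - δ) * om x) with hJ0def
  have hJ0s : ContDiff ℝ smo J0 :=
    (hζs.mul hj).add ((contDiff_const.sub hζs).mul (contDiff_const.sub (contDiff_const.mul homs)))
  have hJ0p : ∀ x, 0 < J0 x := by
    intro x
    have h2 : 0 < 1 - (1 - δ) * om x := by nlinarith [(hom01 x).1, (hom01 x).2]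
    rcases (hζ01 x).1.eq_or_lt with h | h
    · simp only [hJ0def, ← h]
      linarith
    · have h3 : 0 < ζ x * j x := mul_pos h (hjp x)
      have h4 : 0 ≤ (1 - ζ x) * (1 - (1 - δ) * om x) :=
        mul_nonneg (by linarith [(hζ01 x).2]) h2.le
      simp only [hJ0def]
      linarith
  have hKζS : Kζ ⊆ S := hKζW.trans fun x hx => hK0S (interior_subset hx.1.2)
  have hJ01 : ∀ x, x ∉ Kζ ∪ Kom → J0 x = 1 := by
    intro x hx
    have h1 : ζ x = 0 := hζ0 x fun h => hx (Or.inl h)
    have h2 : om x = 0 := hom0 x fun h => hx (Or.inr h)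
    simp [hJ0def, h1, h2]
  have hJ0i : Integrable (fun x => J0 x - 1) volume :=
    (hJ0s.continuous.sub continuous_const).integrable_of_hasCompactSupport
      (HasCompactSupport.intro (hKζ.union hKom) fun x hx => by
        simp [hJ01 x hx])
  have hJ0on : ∀ i, IntegrableOn J0 (V i) volume := by
    intro i
    have h2 : IntegrableOn (fun _ : E3 => (1 : ℝ)) (V i) volume := integrableOn_const (hVfin i)
    have h3 := hJ0i.integrableOn.add h2 (s := V i)
    refine h3.congr_fun (fun x _ => ?_) (ho i).measurableSet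
    simp
  have hJ0lt : ∀ i, ∫ x in V i, J0 x < T i := by
    intro i
    have hb : ∀ x ∈ V i, J0 x ≤ (W1 \ A).indicator (fun _ => M) x + δ
        + (S \ K2).indicator (fun _ => (1 : ℝ)) x := by
      intro x hx
      have hxS := hVS i hx
      have t1 : ζ x * j x ≤ (W1 \ A).indicator (fun _ => M) x := by
        by_cases hw : x ∈ W1
        · rw [indicator_of_mem (show x ∈ W1 \ A from ⟨hw, hxS.2⟩)]
          have hk : x ∈ K0 := interior_subset hw.1.2
          nlinarith [(hζ01 x).1, (hζ01 x).2, hM x hk, hjp x]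
        · rw [indicator_of_notMem (fun h => hw h.1), hζ0 x (fun h => hw (hKζW h))]
          simp
      have t2 : (1 - ζ x) * (1 - (1 - δ) * om x)
          ≤ δ + (S \ K2).indicator (fun _ => (1 : ℝ)) x := by
        by_cases hk : x ∈ K2
        · rw [indicator_of_notMem (fun h => h.2 hk), hWom x (hKWom hk)]
          nlinarith [(hζ01 x).1, (hζ01 x).2]
        · rw [indicator_of_mem (show x ∈ S \ K2 from ⟨hxS.1, hk⟩)]
          have h5 : 0 ≤ (1 - δ) * om x := mul_nonneg (by linarith) (hom01 x).1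
          nlinarith [(hζ01 x).1, (hζ01 x).2, (hom01 x).2]
      simp only [hJ0def]
      linarith
    have mW : MeasurableSet (W1 \ A) := hW1o.measurableSet.diff hA.measurableSet
    have mK : MeasurableSet (S \ K2) := hS.measurableSet.diff hK2.measurableSet
    have : IsFiniteMeasure (volume.restrict (V i)) :=
      ⟨by simpa using (hVfin i).lt_top⟩
    have i1 : Integrable ((W1 \ A).indicator (fun _ => M)) (volume.restrict (V i)) :=
      (integrable_const M).indicator mW
    have i2 : Integrable ((S \ K2).indicator (fun _ => (1 : ℝ))) (volume.restrict (V i)) :=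
      (integrable_const 1).indicator mK
    have i3 : Integrable (fun _ : E3 => δ) (volume.restrict (V i)) := integrable_const δ
    have hle : ∫ x in V i, J0 x ≤ ∫ x in V i, ((W1 \ A).indicator (fun _ => M) x + δ
        + (S \ K2).indicator (fun _ => (1 : ℝ)) x) :=
      setIntegral_mono_on (hJ0on i) ((i1.add i3).add i2) (ho i).measurableSet hb
    have hval : ∫ x in V i, ((W1 \ A).indicator (fun _ => M) x + δ
        + (S \ K2).indicator (fun _ => (1 : ℝ)) x)
        = (volume.restrict (V i)).real (W1 \ A) * M + volume.real (V i) * δ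
          + (volume.restrict (V i)).real (S \ K2) := by
      have s1 : ∫ x in V i, ((W1 \ A).indicator (fun _ => M) x + δ
          + (S \ K2).indicator (fun _ => (1 : ℝ)) x)
          = (∫ x in V i, ((W1 \ A).indicator (fun _ => M) x + δ))
            + ∫ x in V i, (S \ K2).indicator (fun _ => (1 : ℝ)) x :=
        integral_add (f := fun x => (W1 \ A).indicator (fun _ => M) x + δ) (i1.add i3) i2
      have s2 : ∫ x in V i, ((W1 \ A).indicator (fun _ => M) x + δ)
          = (∫ x in V i, (W1 \ A).indicator (fun _ => M) x) + ∫ x in V i, δ :=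
        integral_add i1 i3
      rw [s1, s2, integral_indicator_const M mW, integral_indicator_const (1 : ℝ) mK,
        integral_const]
      simp [Measure.real]
    have b1 : (volume.restrict (V i)).real (W1 \ A) ≤ ε := by
      refine ENNReal.toReal_le_of_le_ofReal hε.le ?_
      refine (Measure.restrict_apply_le _ _).trans ((measure_mono ?_).trans hW0.le)
      exact sdiff_subset_sdiff_left fun x hx => hx.1.1
    have b2 : (volume.restrict (V i)).real (S \ K2) ≤ ε := by
      refine ENNReal.toReal_le_of_le_ofReal hε.le ?_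
      exact (Measure.restrict_apply_le _ _).trans hK2m.le
    have b3 : volume.real (V i) ≤ vS :=
      measureReal_mono ((hVS i).trans sdiff_subset) hSm
    have b4 : ∫ x in V i, J0 x ≤ ε * M + vS * δ + ε := by
      rw [hval] at hle
      have c1 : (volume.restrict (V i)).real (W1 \ A) * M ≤ ε * M :=
        mul_le_mul_of_nonneg_right b1 (by linarith)
      have c2 : volume.real (V i) * δ ≤ vS * δ := mul_le_mul_of_nonneg_right b3 hδ0.le
      linarith
    have b5 : ε * M + vS * δ + ε ≤ τ / 2 := by nlinarith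
    have := hτT i
    linarith
  -- the final density
  set c : Fin r → ℝ := fun i => T i - ∫ x in V i, J0 x with hcdef
  have hc0 : ∀ i, 0 < c i := fun i => by simp only [hcdef]; linarith [hJ0lt i]
  refine ⟨fun x => J0 x + ∑ i, c i * β i x, ?_, ?_, ?_, ?_, ?_⟩
  · exact hJ0s.add (ContDiff.sum fun i _ => contDiff_const.mul (hβs i))
  · intro x
    have : 0 ≤ ∑ i, c i * β i x :=
      Finset.sum_nonneg fun i _ => mul_nonneg (hc0 i).le (hβ0 i x)
    linarith [hJ0p x]
  · refine ⟨Wζ ∩ (⋃ i, Kβ i)ᶜ, hWζo.inter hUK.isClosed.isOpen_compl, fun x hx =>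
      ⟨hAWζ hx, (hAW1 hx).2⟩, fun x hx => ?_⟩
    have h1 : ζ x = 1 := hWζ x hx.1
    have h2 : ∀ i, β i x = 0 := fun i => hKβ i x fun h => hx.2 (mem_iUnion.mpr ⟨i, h⟩)
    simp [hJ0def, h1, h2]
  · refine ⟨A ∪ (Kζ ∪ Kom) ∪ ⋃ i, Kβ i, (hA.union (hKζ.union hKom)).union hUK, ?_, ?_, ?_⟩
    · refine union_subset (union_subset hAS (union_subset hKζS hKomS)) (iUnion_subset fun i => ?_)
      exact (hKV i).trans ((hVS i).trans sdiff_subset)
    · exact fun x hx => Or.inl (Or.inl hx)
    · intro x hx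
      have h1 : J0 x = 1 := hJ01 x fun h => hx (Or.inl (Or.inr h))
      have h2 : ∀ i, β i x = 0 := fun i =>
        hKβ i x fun h => hx (Or.inr (mem_iUnion.mpr ⟨i, h⟩))
      simp [h1, h2]
  · intro i
    have hβi : ∀ k, Integrable (β k) volume := fun k =>
      (hβs k).continuous.integrable_of_hasCompactSupport
        (HasCompactSupport.intro (hKc k) fun x hx => hKβ k x hx)
    have e0 : ∫ x in V i, (J0 x + ∑ k, c k * β k x)
        = (∫ x in V i, J0 x) + ∑ k, c k * ∫ x in V i, β k x := by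
      have h1 : Integrable (fun x => ∑ k, c k * β k x) (volume.restrict (V i)) :=
        integrable_finsetSum _ fun k _ => ((hβi k).const_mul _).integrableOn
      have h2 : ∫ x in V i, (J0 x + ∑ k, c k * β k x)
          = (∫ x in V i, J0 x) + ∫ x in V i, ∑ k, c k * β k x := integral_add (hJ0on i) h1
      rw [h2, integral_finsetSum _ fun k _ => ((hβi k).const_mul _).integrableOn]
      simp_rw [integral_const_mul]
    have e1 : ∀ k, ∫ x in V i, β k x = if k = i then 1 else 0 := by
      intro k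
      by_cases hk : k = i
      · subst hk
        rw [if_pos rfl, setIntegral_eq_integral_of_forall_compl_eq_zero, hβ1]
        intro x hx
        exact hKβ k x fun h => hx (hKV k h)
      · rw [if_neg hk]
        refine setIntegral_eq_zero_of_forall_eq_zero fun x hx => ?_
        exact hKβ k x fun h => (Set.disjoint_left.mp (hd hk)) (hKV k h) hx
    rw [e0]
    simp_rw [e1]
    simp [hcdef]

end Pool.Agent.QM59
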