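import Mathlib
import Pool.Agent.Lib.MP_decea1_gt_A.A4
import Pool.Agent.Lib.MP_decea1_gt_B.B0
import Pool.Agent.Lib.MP_decea1_gt_B.B1a
import Pool.Agent.Lib.MP_decea1_gt_B.B1b
import Pool.Agent.Lib.MP_decea1_gt_B.Clamp

/-!
# MP_decea1_gt (S14098), block B1.4 (QL), B1.5.
-/

set_option autoImplicit false

open MeasureTheory Set
open scoped Topology

namespace Pool.Agent.QM59

/-- the Jacobian of a diagonal affine map -/
theorem jac_diag (d c : E3) (x : E3) : jac (fun y i => d i + c i * y i) x = ∏ i, c i := by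
  have h1 : HasFDerivAt (fun (y : E3) (i : Fin 3) => d i + c i * y i)
      (ContinuousLinearMap.pi fun i => c i • (ContinuousLinearMap.proj i : E3 →L[ℝ] ℝ)) x := by
    rw [hasFDerivAt_pi]
    intro i
    exact (((ContinuousLinearMap.proj i : E3 →L[ℝ] ℝ).hasFDerivAt).const_mul (c i)).const_add _
  rw [jac, h1.fderiv]
  have h2 : ((ContinuousLinearMap.pi fun i => c i • (ContinuousLinearMap.proj i : E3 →L[ℝ] ℝ) :
      E3 →L[ℝ] E3) : E3 →ₗ[ℝ] E3) = Matrix.toLin' (Matrix.diagonal c) := by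
    apply LinearMap.ext
    intro v
    funext i
    simp [Matrix.mulVec_diagonal]
  change LinearMap.det _ = _
  rw [h2, LinearMap.det_toLin', Matrix.det_diagonal]

/-- a continuous positive function, equal to one off a compact set, is bounded below -/
theorem exists_pos_lower {J : E3 → ℝ} (hJ : Continuous J) (hp : ∀ x, 0 < J x) {K : Set E3}
    (hK : IsCompact K) (h1 : ∀ x, x ∉ K → J x = 1) : ∃ ι : ℝ, 0 < ι ∧ ι ≤ 1 ∧ ∀ x, ι ≤ J x := by
  rcases K.eq_empty_or_nonempty with h | h
  · refine ⟨1, one_pos, le_rfl, fun x => ?_⟩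
    rw [h1 x (by simp [h])]
  · obtain ⟨x0, hx0, hmin⟩ := hK.exists_isMinOn h hJ.continuousOn
    refine ⟨min (J x0) 1, lt_min (hp x0) one_pos, min_le_right _ _, fun x => ?_⟩
    by_cases hx : x ∈ K
    · exact (min_le_left _ _).trans (hmin hx)
    · rw [h1 x hx]
      exact min_le_right _ _

/-- B1.4 (QL) -/
theorem QL {A : Set E3} (hA : IsCompact A) (hAC : A ⊆ Cube) (hc : IsConnected Aᶜ) (a b : E3)
    (hab : ∀ i, 0 ≤ a i ∧ a i < b i ∧ b i ≤ 1) (hv : volume A < volume (Box a b)) :
    ∃ g : Equiv.Perm E3, InIso Cube g ∧ Vol g ∧ g '' A ⊆ Box a b := by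
  set p : E3 := fun i => (a i + b i) / 2 with hpdef
  have hpC : p ∈ Cube := fun i => by
    have := hab i
    simp only [hpdef, Pi.zero_apply, Pi.one_apply]
    constructor <;> linarith [this.1, this.2.1, this.2.2]
  obtain ⟨e, he, he2, hm⟩ := exists_margin_Cube (A := A ∪ {p}) (hA.union isCompact_singleton)
    (union_subset hAC (singleton_subset_iff.mpr hpC))
  have hmA : ∀ x ∈ A, ∀ i, e < x i ∧ x i < 1 - e := fun x hx => hm x (Or.inl hx)
  have hmp : ∀ i, e < p i ∧ p i < 1 - e := hm p (Or.inr rfl)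
  -- the contraction factor
  obtain ⟨q, hq, hq1, hqab⟩ : ∃ q : ℝ, 0 < q ∧ q ≤ 1 ∧ ∀ i, q < (b i - a i) / 2 := by
    obtain ⟨i0, hi0⟩ := Finite.exists_min fun i => b i - a i
    refine ⟨(b i0 - a i0) / 4, by linarith [(hab i0).2.1], by
      linarith [(hab i0).1, (hab i0).2.2], fun i => ?_⟩
    have := hi0 i
    linarith [(hab i0).2.1]
  have hcomp0 : (∏ _i : Fin 3, q) = q ^ 3 := by simp
  obtain ⟨lam, hlam, hlamx⟩ := CL 0 1 (fun _ => e) (fun _ => 1 - e) p (fun i => he)
    (fun i => by simp only [Pi.one_apply]; linarith)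
    ⟨fun i => (hmp i).1.le, fun i => (hmp i).2.le⟩ Finset.univ q hq hq1
  change InIso Cube lam at hlam
  have hlamx' : ∀ x ∈ Icc (fun _ => e : E3) (fun _ => 1 - e), ∀ i,
      lam x i = p i + q * (x i - p i) := fun x hx i => by rw [hlamx x hx i]; simp
  set R : Set E3 := Box (fun _ => e) (fun _ => 1 - e) with hR
  have hRo : IsOpen R := isOpen_Box _ _
  have hAR : A ⊆ R := fun x hx i => hmA x hx i
  have hRI : R ⊆ Icc (fun _ => e : E3) (fun _ => 1 - e) := Box_subset_Icc _ _
  have hjlam : ∀ x ∈ R, jac (fun y => lam y) x = q ^ 3 := by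
    intro x hx
    rw [jac_congr (fun y => lam y) (fun y i => (p i - q * p i) + q * y i) x]
    · rw [jac_diag (fun i => p i - q * p i) (fun _ => q), hcomp0]
    · filter_upwards [hRo.mem_nhds hx] with y hy
      funext i
      rw [hlamx' y (hRI hy) i]
      ring
  have hlamB : ∀ x ∈ A, lam x ∈ Box a b := by
    intro x hx i
    rw [hlamx' x (hRI (hAR hx)) i]
    have h1 := hmA x hx i
    have h2 := hmp i
    have h3 := hqab i
    have h4 : |x i - p i| ≤ 1 := by rw [abs_le]; constructor <;> linarith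
    have h5 : |q * (x i - p i)| ≤ q := by
      rw [abs_mul, abs_of_pos hq]
      nlinarith
    rw [abs_le] at h5
    simp only [hpdef] at h5 ⊢
    constructor <;> linarith [h5.1, h5.2]
  have hlamd := hlam.isDif
  set A' : Set E3 := lam '' A with hA'
  have hA'c : IsCompact A' := hA.image hlamd.1.continuous
  have hA'B : A' ⊆ Box a b := by
    rintro _ ⟨x, hx, rfl⟩
    exact hlamB x hx
  have hvA' : volume A' = ENNReal.ofReal (q ^ 3) * volume A := by
    rw [hA', lintegral_jac hlamd hlam.jac_pos A hA.measurableSet,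
      setLIntegral_congr_fun hA.measurableSet
        (fun x hx => by simp only [hjlam x (hAR hx)] :
          EqOn (fun x => ENNReal.ofReal (jac (fun y => lam y) x))
            (fun _ => ENNReal.ofReal (q ^ 3)) A)]
    simp
  have hq3 : q ^ 3 ≤ 1 := pow_le_one₀ hq.le hq1
  have hvA'lt : volume A' < volume (Box a b) := by
    refine lt_of_le_of_lt ?_ hv
    rw [hvA']
    calc ENNReal.ofReal (q ^ 3) * volume A ≤ 1 * volume A := by
          gcongr
          rw [← ENNReal.ofReal_one]
          exact ENNReal.ofReal_le_ofReal hq3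
      _ = volume A := one_mul _
  have hBfin : volume (Box a b) ≠ ⊤ := volume_Box_ne_top a b
  have hAfin : volume A ≠ ⊤ := hA.measure_lt_top.ne
  have hVo : IsOpen (Box a b \ A') := (isOpen_Box a b).sdiff hA'c.isClosed
  have hVne : (Box a b \ A').Nonempty := by
    by_contra h
    rw [not_nonempty_iff_eq_empty, sdiff_eq_empty] at h
    exact absurd (measure_mono h) (not_le.mpr hvA'lt)
  have hTpos : 0 < volume.real (Box a b) - volume.real A := by
    rw [sub_pos]
    exact (ENNReal.toReal_lt_toReal hAfin hBfin).mpr hv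
  obtain ⟨J, hJs, hJp, ⟨W, hWo, hAW, hWJ⟩, ⟨K, hKc, hKB, hAK, hK1⟩, hJT⟩ :=
    DENS (r := 1) (isOpen_Box a b) hBfin hA'c hA'B (fun _ => Box a b \ A') (fun _ => hVo)
      (fun _ => hVne) (fun i j hij => absurd (Subsingleton.elim i j) hij)
      (by rw [iUnion_const]) (fun _ => volume.real (Box a b) - volume.real A) (fun _ => hTpos)
      (fun _ => (q ^ 3)⁻¹) contDiff_const (fun _ => by positivity)
  obtain ⟨ι, hι, hι1, hιJ⟩ := exists_pos_lower hJs.continuous hJp hKc hK1
  have hab' : ∀ i, a i < b i := fun i => (hab i).2.1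
  -- the total mass
  have hJint : Integrable (fun x => 1 - J x) volume :=
    (continuous_const.sub hJs.continuous).integrable_of_hasCompactSupport
      (HasCompactSupport.intro hKc fun x hx => by simp [hK1 x hx])
  have hJon : ∀ V : Set E3, MeasurableSet V → volume V ≠ ⊤ → IntegrableOn J V volume := by
    intro V hV hVf
    have h2 : IntegrableOn (fun _ : E3 => (1 : ℝ)) V volume := integrableOn_const hVf
    have h3 := h2.sub (hJint.integrableOn (s := V))
    refine h3.congr_fun (fun x _ => ?_) hV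
    simp
  have hmass : ∫ x, (1 - J x) = 0 := by
    have e1 : ∫ x, (1 - J x) = ∫ x in Box a b, (1 - J x) := by
      rw [setIntegral_eq_integral_of_forall_compl_eq_zero]
      intro x hx
      rw [hK1 x fun h => hx (hKB h), sub_self]
    have i1 : IntegrableOn (fun _ : E3 => (1 : ℝ)) (Box a b) volume := integrableOn_const hBfin
    have i2 := hJon _ (isOpen_Box a b).measurableSet hBfin
    have e2 : ∫ x in Box a b, (1 - J x) = (∫ _x in Box a b, (1 : ℝ)) - ∫ x in Box a b, J x :=
      integral_sub i1 i2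
    have e3 : ∫ x in Box a b, J x = (∫ x in A', J x) + ∫ x in Box a b \ A', J x := by
      have hdis : Disjoint A' (Box a b \ A') := disjoint_sdiff_right
      have hun : A' ∪ (Box a b \ A') = Box a b := union_sdiff_cancel hA'B
      rw [← setIntegral_union hdis hVo.measurableSet
        (i2.mono_set hA'B) (i2.mono_set sdiff_subset), hun]
    have e4 : ∫ x in A', J x = volume.real A := by
      rw [setIntegral_congr_fun hA'c.measurableSet
        (fun x hx => hWJ x (hAW hx) : EqOn J (fun _ => (q ^ 3)⁻¹) A')]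
      rw [setIntegral_const, smul_eq_mul, Measure.real, hvA', ENNReal.toReal_mul,
        ENNReal.toReal_ofReal (by positivity), Measure.real]
      field_simp
    rw [e1, e2, e3, e4, hJT 0, setIntegral_const]
    simp
  obtain ⟨m, hm1, hm2⟩ := A3' (Box a b) (isOpen_Box a b) (isConnected_Box a b hab') K hKc hKB
    (fun _ => 1) J contDiff_const hJs ι hι (fun _ => hι1) hιJ
    (fun x hx => (hK1 x hx).symm) hmass
  have hBC : Box a b ⊆ Cube := fun x hx i => by
    have h1 := hx i
    have h2 := hab i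
    simp only [Pi.zero_apply, Pi.one_apply]
    constructor <;> linarith [h1.1, h1.2, h2.1, h2.2.2]
  have hF : InIso Cube (m * lam) := (hm1.mono hBC).mul hlam
  have hW0 : IsOpen (R ∩ (fun x => lam x) ⁻¹' W) :=
    hRo.inter (hWo.preimage hlamd.1.continuous)
  obtain ⟨m2, hm3, hm4⟩ := A4one Cube isOpen_Cube A hA hAC (isConnected_Cube_diff hA hAC hc)
    (m * lam) hF (R ∩ (fun x => lam x) ⁻¹' W) hW0
    (fun x hx => ⟨hAR hx, hAW (mem_image_of_mem _ hx)⟩) (by
      rintro x ⟨hx1, hx2⟩
      rw [hm1.isDif.jac_mul hlamd, hjlam x hx1]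
      have h1 := hm2 (lam x)
      rw [one_mul, hWJ _ hx2] at h1
      rw [h1]
      field_simp)
  refine ⟨m * lam * m2, hF.mul (hm3.mono sdiff_subset), hm4, ?_⟩
  rintro _ ⟨x, hx, rfl⟩
  have h1 : m2 x = x := hm3.idOff x fun h => h.2 hx
  rw [Equiv.Perm.mul_apply, Equiv.Perm.mul_apply, h1]
  have h2 := hm1.image_eq (V := Box a b) subset_rfl
  rw [← h2]
  exact mem_image_of_mem _ (hlamB x hx)

variable {Γ : Subgroup (Equiv.Perm E3)} {φ : Equiv.Perm E3 → ℝ} {D : ℝ}

/-- B1.5 -/
theorem B15 (hΓ : Good Γ) (hφ : HQ Γ φ D) {A : Set E3} (hA : IsCompact A) (hAC : A ⊆ Cube)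
    (hc : IsConnected Aᶜ) (k : ℕ) (hk : 1 ≤ k) (hkA : k * volume A < 1) :
    DB Γ φ A (D / k) := by
  have hk0 : (0 : ℝ) < k := by exact_mod_cast hk
  -- the boxes
  set a : Fin k → E3 := fun i => Function.update (fun _ => (0 : ℝ)) 0 (i / k) with ha
  set b : Fin k → E3 := fun i => Function.update (fun _ => (1 : ℝ)) 0 ((i + 1) / k) with hb
  have hab : ∀ i j, 0 ≤ a i j ∧ a i j < b i j ∧ b i j ≤ 1 := by
    intro i j
    have hi : ((i : ℕ) : ℝ) + 1 ≤ k := by exact_mod_cast i.2
    fin_cases j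
    · simp only [ha, hb, Fin.zero_eta, Function.update_self]
      refine ⟨by positivity, ?_, ?_⟩
      · gcongr
        linarith
      · rw [div_le_one hk0]
        exact hi
    · simp [ha, hb]
    · simp [ha, hb]
  have hvol : ∀ i, volume (Box (a i) (b i)) = ENNReal.ofReal (1 / k) := by
    intro i
    rw [volume_Box' fun j => (hab i j).2.1.le, Fin.prod_univ_three]
    congr 1
    simp only [ha, hb, Function.update_self, ne_eq, Fin.reduceEq, not_false_eq_true,
      Function.update_of_ne]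
    field_simp
    ring
  have hvA : ∀ i, volume A < volume (Box (a i) (b i)) := by
    intro i
    rw [hvol, ENNReal.ofReal_div_of_pos hk0, ENNReal.ofReal_one, ENNReal.ofReal_natCast,
      ENNReal.lt_div_iff_mul_lt (Or.inr hA.measure_lt_top.ne) (Or.inl (by simp)), mul_comm]
    exact hkA
  choose g hg1 hg2 hg3 using fun i => QL hA hAC hc (a i) (b i) (hab i) (hvA i)
  have hgΓ : ∀ i, g i ∈ Γ := fun i => hΓ.iso _ (hg1 i) (hg2 i)
  refine DB.of_le hφ (fun x hx y hy hxA hyA _ => ?_) (div_nonneg hφ.nonneg hk0.le)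
  have key := B03 hφ Finset.univ (fun i => Box (a i) (b i)) (fun i => g i * x * (g i)⁻¹)
    (fun i => g i * y * (g i)⁻¹)
    (fun i _ => Γ.mul_mem (Γ.mul_mem (hgΓ i) hx) (Γ.inv_mem (hgΓ i)))
    (fun i _ => Γ.mul_mem (Γ.mul_mem (hgΓ i) hy) (Γ.inv_mem (hgΓ i)))
    (fun i _ => (hxA.conj (g i)).mono (hg3 i)) (fun i _ => (hyA.conj (g i)).mono (hg3 i))
    (by
      intro i _ j _ hij
      rw [Set.disjoint_left]
      intro z hz1 hz2
      have h1 := hz1 0
      have h2 := hz2 0
      simp only [ha, hb, Function.update_self] at h1 h2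
      rw [div_lt_iff₀ hk0, lt_div_iff₀ hk0] at h1 h2
      have h3 : ((i : ℕ) : ℝ) < (j : ℕ) + 1 := by linarith [h1.1, h2.2]
      have h4 : ((j : ℕ) : ℝ) < (i : ℕ) + 1 := by linarith [h2.1, h1.2]
      have h5 : (i : ℕ) < (j : ℕ) + 1 := by exact_mod_cast h3
      have h6 : (j : ℕ) < (i : ℕ) + 1 := by exact_mod_cast h4
      exact hij (Fin.ext (by omega)))
  have e : ∀ i, dphi φ (g i * x * (g i)⁻¹) (g i * y * (g i)⁻¹) = dphi φ x y := fun i =>
    hφ.dphi_conj hx hy (hgΓ i)
  simp only [e, Finset.sum_const, Finset.card_univ, Fintype.card_fin, nsmul_eq_mul] at key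
  rw [le_div_iff₀ hk0, mul_comm]
  exact key

/-- B1.5, second form -/
theorem B15' (hΓ : Good Γ) (hφ : HQ Γ φ D) {A : Set E3} (hA : IsCompact A) (hAC : A ⊆ Cube)
    (hc : IsConnected Aᶜ) (v : ℝ) (hv0 : 0 ≤ v) (hv : v ≤ 1 / 2)
    (hvA : volume A ≤ ENNReal.ofReal v) : DB Γ φ A (2 * D * v) := by
  rcases hv0.eq_or_lt with h0 | h0
  · -- measure zero
    subst h0
    have hA0 : volume A = 0 := by simpa using hvA
    intro x hx y hy hxA hyA
    rw [mul_zero]
    by_contra hne
    push Not at hne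
    obtain ⟨n, hn⟩ := exists_nat_gt (D / |dphi φ x y|)
    have h1 := B15 hΓ hφ hA hAC hc (n + 1) (by omega) (by simp [hA0]) x hx y hy hxA hyA
    rw [div_lt_iff₀ hne] at hn
    rw [le_div_iff₀ (by positivity)] at h1
    push_cast at h1
    nlinarith
  · -- `k = ⌈1/v⌉ - 1`
    obtain ⟨k, hk⟩ : ∃ k : ℕ, k + 1 = ⌈1 / v⌉₊ := by
      have : 0 < ⌈1 / v⌉₊ := Nat.ceil_pos.mpr (by positivity)
      exact ⟨⌈1 / v⌉₊ - 1, by omega⟩
    have h1 : (k : ℝ) < 1 / v := by
      have : k < ⌈1 / v⌉₊ := by omega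
      exact Nat.lt_ceil.mp this
    have h2 : 1 / v ≤ k + 1 := by
      have := Nat.le_ceil (1 / v)
      rw [← hk] at this
      exact_mod_cast this
    have h3 : 2 ≤ 1 / v := by
      rw [le_div_iff₀ h0]
      linarith
    have hk1 : (1 : ℝ) ≤ k := by linarith
    have hkN : 1 ≤ k := by exact_mod_cast hk1
    have hkv : k * volume A < 1 := by
      calc (k : ENNReal) * volume A ≤ k * ENNReal.ofReal v := by gcongr
        _ = ENNReal.ofReal (k * v) := by
            rw [ENNReal.ofReal_mul (by positivity), ENNReal.ofReal_natCast]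
        _ < 1 := by
            rw [← ENNReal.ofReal_one]
            refine (ENNReal.ofReal_lt_ofReal_iff one_pos).mpr ?_
            rwa [lt_div_iff₀ h0] at h1
    refine (B15 hΓ hφ hA hAC hc k hkN hkv).mono ?_
    have h4 : 1 ≤ 2 * v * k := by
      have : 1 / v ≤ 2 * k := by linarith
      rw [div_le_iff₀ h0] at this
      linarith
    rw [div_le_iff₀ (by linarith)]
    have := mul_le_mul_of_nonneg_left h4 hφ.nonneg
    nlinarith

end Pool.Agent.QM59
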