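import Mathlib
import Pool.Agent.Lib.MP_decea1_gt_B.B0

/-!
# MP_decea1_gt (S14098), block B2: the transfer lemma.
-/

set_option autoImplicit false

open MeasureTheory Set

namespace Pool.Agent.QM59

/-- the support of `g⁻¹ g'`, `g' = m⁻¹ g m`, when `m⁻¹` is the identity on `K \ N` -/
def Zset (K N : Set E3) (m g : Equiv.Perm E3) : Set E3 :=
  (K ∩ N) ∪ g ⁻¹' (K ∩ N) ∪ m ⁻¹' (K ∩ N)

/-- B2.1 -/
theorem B21 {K N : Set E3} {m g : Equiv.Perm E3} (hg : IdOff K g)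
    (hN : ∀ z ∈ K, z ∉ N → m⁻¹ z = z) : IdOff (Zset K N m g) (g⁻¹ * (m⁻¹ * g * m)) := by
  intro z hz
  have h1 : ¬ (z ∈ K ∧ z ∈ N) := fun h => hz (Or.inl (Or.inl h))
  have h2 : ¬ (g z ∈ K ∧ g z ∈ N) := fun h => hz (Or.inl (Or.inr h))
  have h3 : ¬ (m z ∈ K ∧ m z ∈ N) := fun h => hz (Or.inr h)
  rw [Equiv.Perm.mul_apply, Equiv.Perm.inv_eq_iff_eq, Equiv.Perm.mul_apply,
    Equiv.Perm.mul_apply]
  by_cases hK : z ∈ K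
  · have hmz : m z = z := by
      have := hN z hK (fun h => h1 ⟨hK, h⟩)
      rw [Equiv.Perm.inv_eq_iff_eq] at this
      exact this.symm
    have hgK : g z ∈ K := (hg.apply_mem_iff z).mpr hK
    rw [hmz, hN (g z) hgK (fun h => h2 ⟨hgK, h⟩)]
  · have hmK : m z ∉ K := by
      intro hmK
      have h4 := hN (m z) hmK (fun h => h3 ⟨hmK, h⟩)
      rw [show m⁻¹ (m z) = z from m.symm_apply_apply z] at h4
      rw [← h4] at hmK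
      exact hK hmK
    rw [hg _ hmK, hg _ hK]
    exact m.symm_apply_apply z

/-- B2.2 -/
theorem B22 (m x y : Equiv.Perm E3) :
    (x * y)⁻¹ * (m⁻¹ * (x * y) * m)
      = y⁻¹ * (x⁻¹ * (m⁻¹ * x * m)) * y * (y⁻¹ * (m⁻¹ * y * m)) := by
  group

variable {Γ : Subgroup (Equiv.Perm E3)} {φ : Equiv.Perm E3 → ℝ} {D : ℝ}

/-- B2.3 for one element -/
theorem B23_one (hφ : HQ Γ φ D) {K N L : Set E3} {m x : Equiv.Perm E3} (hx : x ∈ Γ)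
    (hx' : m⁻¹ * x * m ∈ Γ) (hxK : IdOff K x) (hN : ∀ z ∈ K, z ∉ N → m⁻¹ z = z) {c : ℝ}
    (hL : DB Γ φ L c) (n : ℕ) (hn : 1 ≤ n)
    (h1 : ∀ i < n, ∀ z, (x ^ i) z ∈ Zset K N m x → z ∈ L) :
    |φ (m⁻¹ * x * m) - φ x - φ (x⁻¹ * (m⁻¹ * x * m))| ≤ D / n + c := by
  have hu : x⁻¹ * (m⁻¹ * x * m) ∈ Γ := Γ.mul_mem (Γ.inv_mem hx) hx'
  have key := B04' hφ hx hu hL n hn (B21 hxK hN) h1
  have e : x * (x⁻¹ * (m⁻¹ * x * m)) = m⁻¹ * x * m := by group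
  rwa [e] at key

/-- B2.3 -/
theorem B23 (hφ : HQ Γ φ D) {K N L : Set E3} {m x y : Equiv.Perm E3} (hx : x ∈ Γ) (hy : y ∈ Γ)
    (hx' : m⁻¹ * x * m ∈ Γ) (hy' : m⁻¹ * y * m ∈ Γ) (hxK : IdOff K x) (hyK : IdOff K y)
    (hN : ∀ z ∈ K, z ∉ N → m⁻¹ z = z) {c : ℝ} (hL : DB Γ φ L c) (n : ℕ) (hn : 1 ≤ n)
    (h1 : ∀ g, (g = x ∨ g = y ∨ g = x * y) → ∀ i < n, ∀ z, (g ^ i) z ∈ Zset K N m g → z ∈ L)
    (h2 : ∀ z, y z ∈ Zset K N m x → z ∈ L) :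
    |dphi φ (m⁻¹ * x * m) (m⁻¹ * y * m) - dphi φ x y| ≤ 3 * (D / n) + 4 * c := by
  have hxy := Γ.mul_mem hx hy
  have exy : m⁻¹ * x * m * (m⁻¹ * y * m) = m⁻¹ * (x * y) * m := by group
  have hxy' : m⁻¹ * (x * y) * m ∈ Γ := by rw [← exy]; exact Γ.mul_mem hx' hy'
  have a1 := B23_one hφ hx hx' hxK hN hL n hn (h1 x (Or.inl rfl))
  have a2 := B23_one hφ hy hy' hyK hN hL n hn (h1 y (Or.inr (Or.inl rfl)))
  have a3 := B23_one hφ hxy hxy' (hxK.mul hyK) hN hL n hn (h1 (x * y) (Or.inr (Or.inr rfl)))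
  set ux := x⁻¹ * (m⁻¹ * x * m) with hux
  set uy := y⁻¹ * (m⁻¹ * y * m) with huy
  have mux : ux ∈ Γ := Γ.mul_mem (Γ.inv_mem hx) hx'
  have muy : uy ∈ Γ := Γ.mul_mem (Γ.inv_mem hy) hy'
  have sux : IdOff (Zset K N m x) ux := B21 hxK hN
  have suy : IdOff (Zset K N m y) uy := B21 hyK hN
  have l1 : IdOff L (y⁻¹ * ux * y) := (sux.conj' y).mono fun z hz => h2 z hz
  have l2 : IdOff L uy := suy.mono fun z hz => h1 y (Or.inr (Or.inl rfl)) 0 (by omega) z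
    (by simpa using hz)
  have mc : y⁻¹ * ux * y ∈ Γ := Γ.mul_mem (Γ.mul_mem (Γ.inv_mem hy) mux) hy
  have a4 := hL _ mc _ muy l1 l2
  simp only [dphi] at a4
  rw [hφ.map_conj' mux hy] at a4
  have e22 : (x * y)⁻¹ * (m⁻¹ * (x * y) * m) = y⁻¹ * ux * y * uy := B22 m x y
  rw [e22] at a3
  simp only [dphi]
  rw [exy]
  rw [abs_le] at a1 a2 a3 a4 ⊢
  constructor <;> linarith [a1.1, a1.2, a2.1, a2.2, a3.1, a3.2, a4.1, a4.2]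

end Pool.Agent.QM59
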