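import Mathlib
import Pool.Agent.Lib.MP_decea1_gt_A.A5
import Pool.Agent.Lib.MP_decea1_gt_B.B2

/-!
# MP_decea1_gt (S14098), block B2: the transferred elements are in the group.
-/

set_option autoImplicit false

open MeasureTheory Set

namespace Pool.Agent.QM59

variable {Γ : Subgroup (Equiv.Perm E3)} {φ : Equiv.Perm E3 → ℝ} {D : ℝ}

/-- B2, first part -/
theorem B2mem (hΓ : Good Γ) {K : Set E3} (hK : IsClosed K) {m x : Equiv.Perm E3}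
    (hm : InIso Cube m) (hj : ∀ z ∈ K, jac (fun y => m⁻¹ y) z = 1) (hx : x ∈ Γ)
    (hxK : IdOff K x) : m⁻¹ * x * m ∈ Γ :=
  A5' Γ hΓ m x hm hx (vol_conj K hK m x hm.isDif (hΓ.dif x hx) hxK (hΓ.vol x hx) hj)

/-- B2, the transfer lemma in the form used in B6 and B7 -/
theorem B2transfer (hΓ : Good Γ) (hφ : HQ Γ φ D) {K N L : Set E3} (hK : IsClosed K)
    {m x y : Equiv.Perm E3} (hm : InIso Cube m) (hj : ∀ z ∈ K, jac (fun y => m⁻¹ y) z = 1)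
    (hx : x ∈ Γ) (hy : y ∈ Γ) (hxK : IdOff K x) (hyK : IdOff K y)
    (hN : ∀ z ∈ K, z ∉ N → m⁻¹ z = z) {c : ℝ} (hL : DB Γ φ L c) (n : ℕ) (hn : 1 ≤ n)
    (h1 : ∀ g, (g = x ∨ g = y ∨ g = x * y) → ∀ i < n, ∀ z, (g ^ i) z ∈ Zset K N m g → z ∈ L)
    (h2 : ∀ z, y z ∈ Zset K N m x → z ∈ L) :
    m⁻¹ * x * m ∈ Γ ∧ m⁻¹ * y * m ∈ Γ ∧ IdOff (m ⁻¹' K) (m⁻¹ * x * m) ∧
      IdOff (m ⁻¹' K) (m⁻¹ * y * m) ∧
      |dphi φ (m⁻¹ * x * m) (m⁻¹ * y * m) - dphi φ x y| ≤ 3 * (D / n) + 4 * c := by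
  have hx' := B2mem hΓ hK hm hj hx hxK
  have hy' := B2mem hΓ hK hm hj hy hyK
  exact ⟨hx', hy', hxK.conj' m, hyK.conj' m,
    B23 hφ hx hy hx' hy' hxK hyK hN hL n hn h1 h2⟩

end Pool.Agent.QM59
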