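import Mathlib
import Pool.Agent.Lib.MP_decea1_gt_A.Hole
import Pool.Agent.Lib.MP_decea1_gt_B.B1c

/-!
# MP_decea1_gt (S14098), block B5: shells (QL_2).
-/

set_option autoImplicit false

open MeasureTheory Set
open scoped Topology

namespace Pool.Agent.QM59

theorem B5_integrable {J : E3 → ℝ} (hJ : Continuous J) {K : Set E3} (hK : IsCompact K)
    (h1 : ∀ x, x ∉ K → J x = 1) : Integrable (fun x => 1 - J x) volume :=
  (continuous_const.sub hJ).integrable_of_hasCompactSupport
    (HasCompactSupport.intro hK fun x hx => by simp [h1 x hx])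

theorem B5_integrableOn {J : E3 → ℝ} (hJ : Continuous J) {K : Set E3} (hK : IsCompact K)
    (h1 : ∀ x, x ∉ K → J x = 1) {V : Set E3} (hV : MeasurableSet V) (hVf : volume V ≠ ⊤) :
    IntegrableOn J V volume := by
  have h2 : IntegrableOn (fun _ : E3 => (1 : ℝ)) V volume := integrableOn_const hVf
  have h3 := h2.sub ((B5_integrable hJ hK h1).integrableOn (s := V))
  refine h3.congr_fun (fun x _ => ?_) hV
  simp

/-- realisation of a density in a connected open set -/
theorem moser_one {S : Set E3} (hS : IsOpen S) (hSc : IsConnected S) (hSf : volume S ≠ ⊤)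
    {J : E3 → ℝ} (hJ : ContDiff ℝ smo J) (hJp : ∀ x, 0 < J x) {K : Set E3} (hK : IsCompact K)
    (hKS : K ⊆ S) (h1 : ∀ x, x ∉ K → J x = 1) (hm : ∫ x in S, J x = volume.real S) :
    ∃ m : Equiv.Perm E3, InIso S m ∧ ∀ x, jac (fun y => m y) x = J x := by
  obtain ⟨ι, hι, hι1, hιJ⟩ := exists_pos_lower hJ.continuous hJp hK h1
  have hmass : ∫ x, (1 - J x) = 0 := by
    have e1 : ∫ x, (1 - J x) = ∫ x in S, (1 - J x) := by
      rw [setIntegral_eq_integral_of_forall_compl_eq_zero]
      intro x hx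
      rw [h1 x fun h => hx (hKS h), sub_self]
    have i1 : IntegrableOn (fun _ : E3 => (1 : ℝ)) S volume := integrableOn_const hSf
    have i2 := B5_integrableOn hJ.continuous hK h1 hS.measurableSet hSf
    have e2 : ∫ x in S, (1 - J x) = (∫ _x in S, (1 : ℝ)) - ∫ x in S, J x :=
      integral_sub i1 i2
    rw [e1, e2, hm, setIntegral_const]
    simp
  obtain ⟨m, hm1, hm2⟩ := A3' S hS hSc K hK hKS (fun _ => 1) J contDiff_const hJ ι hι
    (fun _ => hι1) hιJ (fun x hx => (h1 x hx).symm) hmass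
  exact ⟨m, hm1, fun x => by simpa using hm2 x⟩

/-- the volume of an image of a compact set as an integral -/
theorem integral_jac_inv_image {f : Equiv.Perm E3} (hf : IsDif f)
    (hp : ∀ x, 0 < jac (fun y => f y) x) {A : Set E3} (hA : MeasurableSet A) :
    ∫ x in f '' A, jac (fun y => f⁻¹ y) x = volume.real A := by
  rw [integral_image hf hp A hA]
  have : ∀ x ∈ A, jac (fun y => f y) x * jac (fun y => f⁻¹ y) (f x) = 1 := by
    intro x _
    rw [hf.jac_inv (f x)]
    have e : f⁻¹ (f x) = x := f.symm_apply_apply x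
    rw [e]
    exact mul_inv_cancel₀ (hp x).ne'
  rw [setIntegral_congr_fun hA this, setIntegral_const]
  simp

/-- the diffeomorphism which prepares the shell -/
theorem B5_lam {L R Ch : Set E3} (hCo : IsOpen Ch) (hne : Ch.Nonempty)
    (hU : Cube \ L = R ∪ Ch) (hLC : L ⊆ Cube) (hcpt : IsCompact (L ∪ Ch)) (a b a' b' : E3)
    (h0 : ∀ i, 0 < a i ∧ a i < a' i ∧ a' i < b' i ∧ b' i < b i ∧ b i < 1)
    (hLd : Disjoint L Ch) :
    ∃ lam : Equiv.Perm E3, InIso Cube lam ∧ (∀ x ∈ L ∪ Ch, lam x ∈ Box a b) ∧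
      Icc a' b' ⊆ lam '' Ch ∧ ∃ x ∈ R, lam x ∈ Box a b \ Icc a' b' := by
  have hChC : Ch ⊆ Cube := fun x hx => by
    have : x ∈ Cube \ L := by rw [hU]; exact Or.inr hx
    exact this.1
  set p : E3 := fun i => (a i + b i) / 2 with hpdef
  have hpC : p ∈ Cube := fun i => by
    have := h0 i
    simp only [hpdef, Pi.zero_apply, Pi.one_apply]
    constructor <;> linarith [this.1, this.2.1, this.2.2.1, this.2.2.2.1, this.2.2.2.2]
  obtain ⟨e, he, he2, hm⟩ := exists_margin_Cube (A := (L ∪ Ch) ∪ {p})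
    (hcpt.union isCompact_singleton)
    (union_subset (union_subset hLC hChC) (singleton_subset_iff.mpr hpC))
  have hmA : ∀ x ∈ L ∪ Ch, ∀ i, e < x i ∧ x i < 1 - e := fun x hx => hm x (Or.inl hx)
  have hmp : ∀ i, e < p i ∧ p i < 1 - e := hm p (Or.inr rfl)
  obtain ⟨q, hq, hq1, hqab⟩ : ∃ q : ℝ, 0 < q ∧ q ≤ 1 ∧ ∀ i, q < (b i - a i) / 2 := by
    obtain ⟨i0, hi0⟩ := Finite.exists_min fun i => b i - a i
    have h00 := h0 i0
    refine ⟨(b i0 - a i0) / 4, by linarith [h00.2.1, h00.2.2.1, h00.2.2.2.1], by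
      linarith [h00.1, h00.2.2.2.2], fun i => ?_⟩
    have := hi0 i
    linarith [h00.2.1, h00.2.2.1, h00.2.2.2.1]
  obtain ⟨l1, hl1, hl1x⟩ := CL 0 1 (fun _ => e) (fun _ => 1 - e) p (fun i => he)
    (fun i => by simp only [Pi.one_apply]; linarith)
    ⟨fun i => (hmp i).1.le, fun i => (hmp i).2.le⟩ Finset.univ q hq hq1
  change InIso Cube l1 at hl1
  have hl1x' : ∀ x ∈ Icc (fun _ => e : E3) (fun _ => 1 - e), ∀ i,
      l1 x i = p i + q * (x i - p i) := fun x hx i => by rw [hl1x x hx i]; simp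
  have hl1B : ∀ x ∈ Icc (fun _ => e : E3) (fun _ => 1 - e), l1 x ∈ Box a b := by
    intro x hx i
    rw [hl1x' x hx i]
    have h1 : e ≤ x i := hx.1 i
    have h1' : x i ≤ 1 - e := hx.2 i
    have h2 := hmp i
    have h3 := hqab i
    have h4 : |x i - p i| ≤ 1 := by rw [abs_le]; constructor <;> linarith
    have h5 : |q * (x i - p i)| ≤ q := by
      rw [abs_mul, abs_of_pos hq]
      nlinarith
    rw [abs_le] at h5
    simp only [hpdef] at h5 ⊢
    constructor <;> linarith [h5.1, h5.2]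
  have hIccR : ∀ x ∈ L ∪ Ch, x ∈ Icc (fun _ => e : E3) (fun _ => 1 - e) := fun x hx =>
    ⟨fun i => (hmA x hx i).1.le, fun i => (hmA x hx i).2.le⟩
  -- the ball in `l1 '' Ch`
  obtain ⟨x1, hx1⟩ := hne
  obtain ⟨h1h, hh1, hh2⟩ := hl1.isDif.exists_homeo
  have himo : IsOpen (l1 '' Ch) := by
    have : (l1 '' Ch) = h1h '' Ch := by
      ext y
      simp only [mem_image, hh1]
    rw [this]
    exact h1h.isOpenMap _ hCo
  obtain ⟨ρ, hρ, hball⟩ := Metric.isOpen_iff.mp himo (l1 x1) (mem_image_of_mem _ hx1)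
  have hc1B : l1 x1 ∈ Box a b := hl1B x1 (hIccR x1 (Or.inr hx1))
  -- the second contraction
  have hbB : Icc a' b' ⊆ Box a b := Icc_subset_Box a b a' b' (fun i => (h0 i).2.1)
    (fun i => (h0 i).2.2.2.1)
  obtain ⟨δ, hδ, hδm⟩ := exists_margin (a := a) (b := b) (A := Icc a' b' ∪ {l1 x1})
    (isCompact_Icc.union isCompact_singleton)
    (union_subset hbB (singleton_subset_iff.mpr hc1B))
  have hc1m := hδm (l1 x1) (Or.inr rfl)
  obtain ⟨ν, hν, hνx⟩ := CL a b (fun i => a i + δ) (fun i => b i - δ) (l1 x1)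
    (fun i => lt_add_of_pos_right _ hδ) (fun i => sub_lt_self _ hδ)
    ⟨fun i => (hc1m i).1.le, fun i => (hc1m i).2.le⟩ Finset.univ (min 1 (ρ / 2))
    (lt_min one_pos (by positivity)) (min_le_left _ _)
  have hνb : ∀ y ∈ Icc a' b', ν y ∈ l1 '' Ch := by
    intro y hy
    apply hball
    rw [Metric.mem_ball, dist_pi_lt_iff hρ]
    intro i
    have hym := hδm y (Or.inl hy)
    rw [hνx y ⟨fun i => (hym i).1.le, fun i => (hym i).2.le⟩ i, if_pos (Finset.mem_univ i),
      Real.dist_eq, add_sub_cancel_left, abs_mul, abs_of_pos (lt_min one_pos (by positivity))]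
    have h1 := hym i
    have h2 := hc1m i
    have h3 := h0 i
    have h4 : |y i - l1 x1 i| ≤ 1 := by
      rw [abs_le]
      constructor <;> linarith [h1.1, h1.2, h2.1, h2.2, h3.1, h3.2.2.2.2]
    have h5 : min 1 (ρ / 2) ≤ ρ / 2 := min_le_right _ _
    have h6 : 0 < min 1 (ρ / 2) := lt_min one_pos (by positivity)
    nlinarith [abs_nonneg (y i - l1 x1 i)]
  have hBC : Box a b ⊆ Cube := fun x hx i => by
    have h1 := hx i
    have h2 := h0 i
    simp only [Pi.zero_apply, Pi.one_apply]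
    constructor <;> linarith [h1.1, h1.2, h2.1, h2.2.2.2.2]
  have hνi : InIso (Box a b) ν⁻¹ := hν.inv
  have hνB : ∀ y ∈ Box a b, ν⁻¹ y ∈ Box a b := by
    intro y hy
    have := hνi.image_eq (V := Box a b) subset_rfl
    rw [← this]
    exact mem_image_of_mem _ hy
  have hbl : Icc a' b' ⊆ (ν⁻¹ * l1) '' Ch := by
    intro y hy
    obtain ⟨x, hx, hxy⟩ := hνb y hy
    refine ⟨x, hx, ?_⟩
    rw [Equiv.Perm.mul_apply, hxy]
    exact ν.symm_apply_apply y
  refine ⟨ν⁻¹ * l1, (hνi.mono hBC).mul hl1, fun x hx => ?_, hbl, ?_⟩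
  · rw [Equiv.Perm.mul_apply]
    exact hνB _ (hl1B x (hIccR x hx))
  · -- the point `(e, e, e)`
    have hpt : (fun _ => e : E3) ∈ Icc (fun _ => e : E3) (fun _ => 1 - e) :=
      ⟨le_rfl, fun i => by simp only; linarith⟩
    have hptn : (fun _ => e : E3) ∉ L ∪ Ch := fun h => by
      have : e < e := (hmA _ h 0).1
      exact lt_irrefl _ this
    have hptC : (fun _ => e : E3) ∈ Cube := fun i => by
      change 0 < e ∧ e < 1
      constructor <;> linarith
    have hptR : (fun _ => e : E3) ∈ R := by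
      have h1 : (fun _ => e : E3) ∈ Cube \ L := ⟨hptC, fun h => hptn (Or.inl h)⟩
      rw [hU] at h1
      exact h1.resolve_right fun h => hptn (Or.inr h)
    refine ⟨fun _ => e, hptR, ?_, fun h => ?_⟩
    · rw [Equiv.Perm.mul_apply]
      exact hνB _ (hl1B _ hpt)
    · obtain ⟨x, hx, hxy⟩ := hbl h
      have h2 := (ν⁻¹ * l1).injective hxy
      exact hptn (Or.inr (h2 ▸ hx))

/-- B5 (shells) -/
theorem B5shell {L R Ch : Set E3} (hL : IsCompact L) (hLC : L ⊆ Cube) (hRo : IsOpen R)
    (hRc : IsConnected R) (hCo : IsOpen Ch) (hCc : IsConnected Ch) (hd : Disjoint R Ch)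
    (hU : Cube \ L = R ∪ Ch) (hcpt : IsCompact (L ∪ Ch)) (a b a' b' : E3)
    (h0 : ∀ i, 0 < a i ∧ a i < a' i ∧ a' i < b' i ∧ b' i < b i ∧ b i < 1)
    (h1 : volume (Icc a' b') < volume Ch) (h2 : volume Ch + volume L < volume (Box a b)) :
    ∃ g : Equiv.Perm E3, InIso Cube g ∧ Vol g ∧ g '' L ⊆ Box a b \ Icc a' b' := by
  have hRC : R ⊆ Cube := fun x hx => by
    have : x ∈ Cube \ L := by rw [hU]; exact Or.inl hx
    exact this.1
  have hChC : Ch ⊆ Cube := fun x hx => by
    have : x ∈ Cube \ L := by rw [hU]; exact Or.inr hx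
    exact this.1
  have hLR : Disjoint L R := Set.disjoint_left.mpr fun x hx hx' => by
    have : x ∈ Cube \ L := by rw [hU]; exact Or.inl hx'
    exact this.2 hx
  have hLd : Disjoint L Ch := Set.disjoint_left.mpr fun x hx hx' => by
    have : x ∈ Cube \ L := by rw [hU]; exact Or.inr hx'
    exact this.2 hx
  obtain ⟨lam, hlam, hlB, hlb, x0, hx0R, hx0⟩ :=
    B5_lam hCo hCc.nonempty hU hLC hcpt a b a' b' h0 hLd
  have hlamd := hlam.isDif
  obtain ⟨H, hH1, hH2⟩ := hlamd.exists_homeo
  have himg : ∀ V : Set E3, lam '' V = H '' V := fun V => by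
    ext y
    simp only [mem_image, hH1]
  have hopen : ∀ V : Set E3, IsOpen V → IsOpen (lam '' V) := fun V hV => by
    rw [himg]
    exact H.isOpenMap _ hV
  set S : Set E3 := Box a b \ Icc a' b' with hSdef
  have hSo : IsOpen S := (isOpen_Box a b).sdiff isClosed_Icc
  have hSc : IsConnected S := isConnected_Box_diff_Icc a b a' b' (fun i => (h0 i).2.1)
    (fun i => (h0 i).2.2.1.le) (fun i => (h0 i).2.2.2.1)
  have hBf : volume (Box a b) ≠ ⊤ := volume_Box_ne_top a b
  have hSf : volume S ≠ ⊤ := ne_top_of_le_ne_top hBf (measure_mono sdiff_subset)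
  have hBC : Box a b ⊆ Cube := fun x hx i => by
    have h1 := hx i
    have h2 := h0 i
    simp only [Pi.zero_apply, Pi.one_apply]
    constructor <;> linarith [h1.1, h1.2, h2.1, h2.2.2.2.2]
  have hbB : Icc a' b' ⊆ Box a b := Icc_subset_Box a b a' b' (fun i => (h0 i).2.1)
    (fun i => (h0 i).2.2.2.1)
  -- the compact set
  set A : Set E3 := lam '' L with hAdef
  have hAc : IsCompact A := hL.image hlamd.1.continuous
  have hAS : A ⊆ S := by
    rintro _ ⟨x, hx, rfl⟩
    refine ⟨hlB x (Or.inl hx), fun h => ?_⟩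
    obtain ⟨y, hy, hyx⟩ := hlb h
    have := lam.injective hyx
    exact (Set.disjoint_left.mp hLd) hx (this ▸ hy)
  -- the two pieces
  set S1 : Set E3 := S ∩ lam '' R with hS1
  set S2 : Set E3 := S ∩ lam '' Ch with hS2
  have hlC : lam '' Cube = Cube := hlam.image_eq subset_rfl
  have hS2' : lam '' Ch = Icc a' b' ∪ S2 := by
    ext y
    constructor
    · intro hy
      by_cases hyb : y ∈ Icc a' b'
      · exact Or.inl hyb
      · obtain ⟨x, hx, rfl⟩ := hy
        exact Or.inr ⟨⟨hlB x (Or.inr hx), hyb⟩, mem_image_of_mem _ hx⟩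
    · rintro (hy | hy)
      · exact hlb hy
      · exact hy.2
  have hS1o : IsOpen S1 := hSo.inter (hopen R hRo)
  have hS2o : IsOpen S2 := hSo.inter (hopen Ch hCo)
  have hS1n : S1.Nonempty := ⟨lam x0, hx0, mem_image_of_mem _ hx0R⟩
  have hS2n : S2.Nonempty := by
    by_contra h
    rw [not_nonempty_iff_eq_empty] at h
    rw [h, union_empty] at hS2'
    have hclo : IsClopen (Icc a' b') := ⟨isClosed_Icc, by rw [← hS2']; exact hopen Ch hCo⟩
    rcases isClopen_iff.mp hclo with h3 | h3
    · have : a' ∈ Icc a' b' := ⟨le_rfl, fun i => (h0 i).2.2.1.le⟩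
      rw [h3] at this
      exact this
    · have : (fun _ => 2 : E3) ∈ Icc a' b' := by rw [h3]; exact mem_univ _
      have h4 : (2 : ℝ) ≤ b' 0 := this.2 0
      linarith [(h0 0).2.2.2.1, (h0 0).2.2.2.2]
  have hS12 : Disjoint S1 S2 := by
    rw [Set.disjoint_left]
    rintro y ⟨-, x, hx, rfl⟩ ⟨-, x', hx', hxx⟩
    have := lam.injective hxx
    exact (Set.disjoint_left.mp hd) hx (this ▸ hx')
  have hSA : S \ A = S1 ∪ S2 := by
    ext y
    constructor
    · rintro ⟨hyS, hyA⟩
      have hyC : y ∈ lam '' Cube := by rw [hlC]; exact hBC hyS.1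
      obtain ⟨x, hx, rfl⟩ := hyC
      have hxL : x ∉ L := fun h => hyA (mem_image_of_mem _ h)
      have h3 : x ∈ Cube \ L := ⟨hx, hxL⟩
      rw [hU] at h3
      rcases h3 with h3 | h3
      · exact Or.inl ⟨hyS, mem_image_of_mem _ h3⟩
      · exact Or.inr ⟨hyS, mem_image_of_mem _ h3⟩
    · rintro (⟨hyS, x, hx, rfl⟩ | ⟨hyS, x, hx, rfl⟩)
      · refine ⟨hyS, ?_⟩
        rintro ⟨x', hx', hxx⟩
        have := lam.injective hxx
        exact (Set.disjoint_left.mp hLR) hx' (this ▸ hx)
      · refine ⟨hyS, ?_⟩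
        rintro ⟨x', hx', hxx⟩
        have := lam.injective hxx
        exact (Set.disjoint_left.mp hLd) hx' (this ▸ hx)
  -- the density
  have hbf : volume (Icc a' b') ≠ ⊤ := isCompact_Icc.measure_lt_top.ne
  have hChf : volume Ch ≠ ⊤ :=
    ne_top_of_le_ne_top (by rw [volume_Cube]; exact ENNReal.one_ne_top) (measure_mono hChC)
  have hLf : volume L ≠ ⊤ := hL.measure_lt_top.ne
  have hT1 : 0 < volume.real (Box a b) - volume.real Ch - volume.real L := by
    have : volume.real Ch + volume.real L < volume.real (Box a b) := by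
      have h3 := (ENNReal.toReal_lt_toReal (ENNReal.add_ne_top.mpr ⟨hChf, hLf⟩) hBf).mpr h2
      rwa [ENNReal.toReal_add hChf hLf] at h3
    linarith
  have hT2 : 0 < volume.real Ch - volume.real (Icc a' b') := by
    have := (ENNReal.toReal_lt_toReal hbf hChf).mpr h1
    exact sub_pos.mpr this
  have hjs : ContDiff ℝ smo (jac (fun y => lam⁻¹ y)) := contDiff_jac _ hlamd.inv.1
  obtain ⟨J, hJs, hJp, ⟨W, hWo, hAW, hWJ⟩, ⟨K, hKc, hKS, hAK, hK1⟩, hJT⟩ :=
    DENS (r := 2) hSo hSf hAc hAS ![S1, S2]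
      (fun i => by fin_cases i; exacts [hS1o, hS2o])
      (fun i => by fin_cases i; exacts [hS1n, hS2n])
      (fun i j hij => by
        fin_cases i <;> fin_cases j
        · exact absurd rfl hij
        · exact hS12
        · exact hS12.symm
        · exact absurd rfl hij)
      (by rw [hSA]; ext y; simp [Fin.exists_fin_two])
      ![volume.real (Box a b) - volume.real Ch - volume.real L,
        volume.real Ch - volume.real (Icc a' b')]
      (fun i => by fin_cases i; exacts [hT1, hT2])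
      (jac (fun y => lam⁻¹ y)) hjs (fun x => hlam.inv.jac_pos x)
  have hJ1 : ∫ x in S1, J x = volume.real (Box a b) - volume.real Ch - volume.real L := hJT 0
  have hJ2 : ∫ x in S2, J x = volume.real Ch - volume.real (Icc a' b') := hJT 1
  have hion : ∀ V : Set E3, MeasurableSet V → volume V ≠ ⊤ → IntegrableOn J V volume :=
    fun V hV hVf => B5_integrableOn hJs.continuous hKc hK1 hV hVf
  have hAm : MeasurableSet A := hAc.measurableSet
  have hJA : ∫ x in A, J x = volume.real L := by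
    rw [setIntegral_congr_fun hAm (fun x hx => hWJ x (hAW hx))]
    exact integral_jac_inv_image hlamd hlam.jac_pos hL.measurableSet
  have hSreal : volume.real S = volume.real (Box a b) - volume.real (Icc a' b') := by
    rw [hSdef, measureReal_sdiff hbB measurableSet_Icc]
  have hS1f : volume S1 ≠ ⊤ := ne_top_of_le_ne_top hSf (measure_mono inter_subset_left)
  have hS2f : volume S2 ≠ ⊤ := ne_top_of_le_ne_top hSf (measure_mono inter_subset_left)
  have hJS : ∫ x in S, J x = volume.real S := by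
    have e1 : S = A ∪ (S1 ∪ S2) := by rw [← hSA, union_sdiff_cancel hAS]
    have hdA : Disjoint A (S1 ∪ S2) := by rw [← hSA]; exact disjoint_sdiff_right
    have i1 := hion A hAm hAc.measure_lt_top.ne
    have i2 := hion S1 hS1o.measurableSet hS1f
    have i3 := hion S2 hS2o.measurableSet hS2f
    have e2 : ∫ x in S, J x = ∫ x in A ∪ (S1 ∪ S2), J x := by rw [← e1]
    rw [e2, setIntegral_union hdA (hS1o.union hS2o).measurableSet i1 (i2.union i3),
      setIntegral_union hS12 hS2o.measurableSet i2 i3, hJA, hJ1, hJ2, hSreal]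
    ring
  obtain ⟨m, hm, hmJ⟩ := moser_one hSo hSc hSf hJs hJp hKc hKS hK1 hJS
  have hSC : S ⊆ Cube := sdiff_subset.trans hBC
  have hF : InIso Cube (m * lam) := (hm.mono hSC).mul hlam
  have hFd := hF.isDif
  have hWop : IsOpen ((fun x => lam x) ⁻¹' W) := hWo.preimage hlamd.1.continuous
  have hLW : L ⊆ (fun x => lam x) ⁻¹' W := fun x hx => hAW (mem_image_of_mem _ hx)
  have hjF : ∀ x ∈ (fun x => lam x) ⁻¹' W, jac (fun y => (m * lam) y) x = 1 := by
    intro x hx
    rw [hm.isDif.jac_mul hlamd, hmJ, hWJ _ hx, hlamd.jac_inv (lam x)]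
    have e : lam⁻¹ (lam x) = x := lam.symm_apply_apply x
    rw [e]
    exact inv_mul_cancel₀ (hlam.jac_pos x).ne'
  -- the volume of the image of the chamber
  have hvCh : volume ((m * lam) '' Ch) = volume Ch := by
    have e1 : (m * lam) '' Ch = m '' (lam '' Ch) := by
      rw [Equiv.Perm.coe_mul, image_comp]
    have hlm : MeasurableSet (lam '' Ch) := (hopen Ch hCo).measurableSet
    have hlf : volume (lam '' Ch) ≠ ⊤ := by
      refine ne_top_of_le_ne_top hBf (measure_mono ?_)
      rintro _ ⟨x, hx, rfl⟩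
      exact hlB x (Or.inr hx)
    have e2 : ∫ x in lam '' Ch, J x = volume.real Ch := by
      have hdb : Disjoint (Icc a' b') S2 := Set.disjoint_left.mpr fun x hx hx' => hx'.1.2 hx
      have e3 : ∫ x in Icc a' b', J x = volume.real (Icc a' b') := by
        rw [setIntegral_congr_fun measurableSet_Icc
          (fun x hx => hK1 x fun h => (hKS h).2 hx : EqOn J (fun _ => 1) (Icc a' b')),
          setIntegral_const]
        simp
      rw [hS2', setIntegral_union hdb hS2o.measurableSet (hion _ measurableSet_Icc hbf)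
        (hion _ hS2o.measurableSet hS2f), e3, hJ2]
      ring
    rw [e1, lintegral_jac hm.isDif hm.jac_pos _ hlm]
    simp only [hmJ]
    rw [← ofReal_integral_eq_lintegral_ofReal (hion _ hlm hlf)
      (Filter.Eventually.of_forall fun x => (hJp x).le), e2, Measure.real,
      ENNReal.ofReal_toReal hChf]
  have hI2 : ∫ x in Ch, (jac (fun y => (m * lam) y) x - 1) = 0 :=
    setIntegral_jac_sub_one hFd hF.jac_pos Ch hCo.measurableSet hChf hvCh
  obtain ⟨KF, hKFC, hKFc, hKFoff⟩ := hF.supp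
  have htot := integral_jac_sub_one hFd KF hKFc hKFoff
  have hjoff : ∀ x, x ∉ KF → jac (fun y => (m * lam) y) x = 1 := fun x hx =>
    hKFoff.jac_eq_one hKFc.isClosed x hx
  have hFint : Integrable (fun x => jac (fun y => (m * lam) y) x - 1) volume :=
    ((contDiff_jac _ hFd.1).continuous.sub continuous_const).integrable_of_hasCompactSupport
      (HasCompactSupport.intro hKFc fun x hx => sub_eq_zero.mpr (hjoff x hx))
  have hI1 : ∫ x in R, (jac (fun y => (m * lam) y) x - 1) = 0 := by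
    have e1 : ∫ x, (jac (fun y => (m * lam) y) x - 1)
        = ∫ x in R ∪ Ch, (jac (fun y => (m * lam) y) x - 1) := by
      rw [setIntegral_eq_integral_of_forall_compl_eq_zero]
      intro x hx
      by_cases hxL : x ∈ L
      · rw [hjF x (hLW hxL), sub_self]
      · have hxC : x ∉ Cube := fun h => hx (by rw [← hU]; exact ⟨h, hxL⟩)
        rw [hjoff x fun h => hxC (hKFC h), sub_self]
    rw [setIntegral_union hd hCo.measurableSet hFint.integrableOn hFint.integrableOn, hI2,
      add_zero] at e1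
    rw [← e1]
    exact htot
  obtain ⟨g, hg1, hg2, W', -, hLW', hgF⟩ := A4 Cube isOpen_Cube L hL hLC 2 ![R, Ch]
    (fun i => by fin_cases i; exacts [hRo, hCo])
    (fun i => by fin_cases i; exacts [hRc, hCc])
    (fun i j hij => by
      fin_cases i <;> fin_cases j
      · exact absurd rfl hij
      · exact hd
      · exact hd.symm
      · exact absurd rfl hij)
    (by rw [hU]; ext y; simp [Fin.exists_fin_two])
    (m * lam) hF _ hWop hLW hjF
    (fun i => by fin_cases i; exacts [hI1, hI2])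
  refine ⟨g, hg1, hg2, ?_⟩
  rintro _ ⟨x, hx, rfl⟩
  rw [hgF x (hLW' hx), Equiv.Perm.mul_apply]
  have h3 := hm.image_eq (V := S) subset_rfl
  rw [← h3]
  exact mem_image_of_mem _ (hAS (mem_image_of_mem _ hx))

end Pool.Agent.QM59
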