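import Mathlib
import Pool.Agent.Lib.MP_decea1_gt_B.B5

/-!
# MP_decea1_gt (S14098), block B3: eating a box (the surgery diffeomorphism).
-/

set_option autoImplicit false

open MeasureTheory Set
open scoped Topology

namespace Pool.Agent.QM59

/-- open vertical tubes -/
def Tub (c : E3) (th zs zt : ℝ) : Set E3 :=
  {x | |x 0 - c 0| < th ∧ |x 1 - c 1| < th ∧ zs < x 2 ∧ x 2 < zt}

theorem Tub_eq_Box (c : E3) (th zs zt : ℝ) :
    Tub c th zs zt = Box ![c 0 - th, c 1 - th, zs] ![c 0 + th, c 1 + th, zt] := by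
  ext x
  simp only [Tub, Box, mem_ofPred, Fin.forall_fin_succ, Matrix.cons_val_zero,
    Matrix.cons_val_succ, Fin.succ_zero_eq_one, Fin.succ_one_eq_two, abs_lt]
  constructor
  · rintro ⟨⟨h1, h2⟩, ⟨h3, h4⟩, h5, h6⟩
    refine ⟨⟨by linarith, by linarith⟩, ⟨by linarith, by linarith⟩, ⟨h5, h6⟩, ?_⟩
    exact fun i => i.elim0
  · rintro ⟨⟨h1, h2⟩, ⟨h3, h4⟩, ⟨h5, h6⟩, -⟩
    exact ⟨⟨by linarith, by linarith⟩, ⟨by linarith, by linarith⟩, h5, h6⟩

theorem isOpen_Tub (c : E3) (th zs zt : ℝ) : IsOpen (Tub c th zs zt) := by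
  rw [Tub_eq_Box]
  exact isOpen_Box _ _

/-- a one-dimensional plateau -/
theorem exists_plateau (z1 z2 z3 z4 : ℝ) (h12 : z1 < z2) (h34 : z3 < z4) :
    ∃ ζ : ℝ → ℝ, ContDiff ℝ smo ζ ∧ (∀ t, 0 ≤ ζ t ∧ ζ t ≤ 1) ∧
      (∀ t, z2 ≤ t → t ≤ z3 → ζ t = 1) ∧ (∀ t, t ≤ z1 → ζ t = 0) ∧
      ∀ t, z4 ≤ t → ζ t = 0 := by
  obtain ⟨h, hs, h01, h0, h1⟩ := exists_step
  refine ⟨fun t => h ((t - z1) / (z2 - z1)) * h ((z4 - t) / (z4 - z3)), ?_, ?_, ?_, ?_, ?_⟩
  · exact (hs.comp ((contDiff_id.sub contDiff_const).div_const _)).mul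
      (hs.comp ((contDiff_const.sub contDiff_id).div_const _))
  · intro t
    exact ⟨mul_nonneg (h01 _).1 (h01 _).1, mul_le_one₀ (h01 _).2 (h01 _).1 (h01 _).2⟩
  · intro t h2 h3
    simp only
    rw [h1 _ ?_, h1 _ ?_, one_mul]
    · rw [le_div_iff₀ (by linarith)]
      linarith
    · rw [le_div_iff₀ (by linarith)]
      linarith
  · intro t h2
    simp only
    rw [h0 _ ?_, zero_mul]
    exact div_nonpos_of_nonpos_of_nonneg (by linarith) (by linarith)
  · intro t h2
    simp only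
    rw [h0 ((z4 - t) / (z4 - z3)) ?_, mul_zero]
    exact div_nonpos_of_nonpos_of_nonneg (by linarith) (by linarith)

/-- the density argument of B3: a diffeomorphism `ρ` of the box `M` which makes `c⁻¹ ρ` volume
preserving on the slab between `zB` and `kap` and off the support of `c`. `Q2` is the support
of the vertical contraction and `K1` the support of the horizontal one. -/
theorem B3_density {c : Equiv.Perm E3} (hcd : IsDif c) (hcp : ∀ x, 0 < jac (fun y => c y) x)
    {K1 K2 : Set E3} (hK1 : IsCompact K1) (hK2 : IsCompact K2) (hoff : IdOff (K1 ∪ K2) c)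
    (c0 : E3) (th zb zB kap kap' zm : ℝ) (hth : 0 < th) (h1 : zb < zB) (h2 : zB < kap)
    (h3 : kap < kap') (h4 : kap' < zm) (hK1b : ∀ x ∈ K1, x 2 < zb)
    (hK2Q : ∀ x ∈ K2, |x 0 - c0 0| < th ∧ |x 1 - c0 1| < th) {Q2 : Set E3}
    (hQ2 : MeasurableSet Q2) (hKQ : K2 ⊆ Q2) (hQ2f : volume Q2 ≠ ⊤) {R : Set E3}
    (hR : IsCompact R) (hcR : ∀ x ∈ R, c x ∈ Tub c0 th kap' zm)
    (hvol : 2 * volume.real Q2 < volume.real R) :
    ∃ ρ : Equiv.Perm E3, InIso (Tub c0 th zb zm) ρ ∧
      ∀ x, ((x 2 < kap ∧ zB ≤ x 2) ∨ (x ∉ K1 ∪ K2 ∧ x ∉ Tub c0 th zb zm)) →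
        jac (fun y => (c⁻¹ * ρ) y) x = 1 := by
  set J : E3 → ℝ := jac (fun y => c⁻¹ y) with hJdef
  have hcid : IsDif c⁻¹ := hcd.inv
  have hJs : ContDiff ℝ smo J := contDiff_jac _ hcid.1
  have hJp : ∀ x, 0 < J x := by
    intro x
    rw [hJdef, hcd.jac_inv x]
    exact inv_pos.mpr (hcp _)
  have hKc : IsCompact (K1 ∪ K2) := hK1.union hK2
  have hJ1 : ∀ x, x ∉ K1 ∪ K2 → J x = 1 := fun x hx =>
    hoff.inv.jac_eq_one hKc.isClosed x hx
  -- the bumps
  set M : Set E3 := Tub c0 th zb zm with hM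
  have hMo : IsOpen M := isOpen_Tub _ _ _ _
  set z1 : ℝ := (zb + zB) / 2 with hz1
  set z4 : ℝ := (kap + kap') / 2 with hz4
  obtain ⟨ζ, hζs, hζ01, hζ1, hζa, hζb⟩ := exists_plateau z1 zB kap z4 (by linarith)
    (by linarith)
  have hcRc : IsCompact (c '' R) := hR.image hcd.1.continuous
  have hcRM : c '' R ⊆ M := by
    rintro _ ⟨x, hx, rfl⟩
    have := hcR x hx
    exact ⟨this.1, this.2.1, by linarith [this.2.2.1], this.2.2.2⟩
  obtain ⟨om, homs, hom01, ⟨Wom, -, hcRW, hWom⟩, Lom, hLom, hLomM, hom0⟩ :=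
    exists_bump M (c '' R) hMo hcRc hcRM
  have hTne : (Tub c0 th kap' zm).Nonempty := by
    refine ⟨![c0 0, c0 1, (kap' + zm) / 2], ?_⟩
    refine ⟨by simpa using hth, by simpa using hth, ?_, ?_⟩
    · change kap' < (kap' + zm) / 2
      linarith
    · change (kap' + zm) / 2 < zm
      linarith
  obtain ⟨β, hβs, hβ0, hβ1, Lβ, hLβ, hLβT, hβoff⟩ := exists_unit_bump (isOpen_Tub c0 th kap' zm)
    hTne
  have hTM : Tub c0 th kap' zm ⊆ M := fun x hx => ⟨hx.1, hx.2.1, by linarith [hx.2.2.1], hx.2.2.2⟩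
  -- the slab part of the support
  set T0 : Set E3 := K2 ∩ {x | z1 ≤ x 2 ∧ x 2 ≤ z4} with hT0
  have hT0c : IsCompact T0 := by
    refine hK2.inter_right ?_
    exact (isClosed_le continuous_const (continuous_apply 2)).inter
      (isClosed_le (continuous_apply 2) continuous_const)
  have hT0M : T0 ⊆ M := fun x hx => ⟨(hK2Q x hx.1).1, (hK2Q x hx.1).2, by
    have := hx.2.1
    linarith, by
    have := hx.2.2
    linarith⟩
  set g0 : E3 → ℝ := fun x => ζ (x 2) + (1 - ζ (x 2)) * J x * (1 - om x / 2) with hg0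
  have hζ3 : ContDiff ℝ smo (fun x : E3 => ζ (x 2)) := hζs.comp (contDiff_apply ℝ ℝ (2 : Fin 3))
  have hg0s : ContDiff ℝ smo g0 :=
    hζ3.add (((contDiff_const.sub hζ3).mul hJs).mul (contDiff_const.sub (homs.div_const 2)))
  have hzJ : ∀ x, x ∉ T0 → ζ (x 2) * (J x - 1) = 0 := by
    intro x hx
    by_cases hxK : x ∈ K1 ∪ K2
    · rcases hxK with hxK | hxK
      · rw [hζa (x 2) (by have := hK1b x hxK; linarith), zero_mul]
      · by_cases ha : x 2 ≤ z1
        · rw [hζa (x 2) ha, zero_mul]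
        · by_cases hb : z4 ≤ x 2
          · rw [hζb (x 2) hb, zero_mul]
          · push Not at ha hb
            exact absurd ⟨hxK, ha.le, hb.le⟩ hx
    · rw [hJ1 x hxK]
      simp
  have hg0J : ∀ x, x ∉ T0 ∪ Lom → g0 x = J x := by
    intro x hx
    have e1 : om x = 0 := hom0 x fun h => hx (Or.inr h)
    have e2 := hzJ x fun h => hx (Or.inl h)
    simp only [hg0, e1]
    linarith
  have hg0p : ∀ x, 0 < g0 x := by
    intro x
    have a1 := hζ01 (x 2)
    have a2 := hom01 x
    have a3 : 0 < J x * (1 - om x / 2) := mul_pos (hJp x) (by linarith)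
    have a4 : g0 x = ζ (x 2) + (1 - ζ (x 2)) * (J x * (1 - om x / 2)) := by
      simp only [hg0]
      ring
    rw [a4]
    rcases a1.1.eq_or_lt with h | h
    · rw [← h]
      linarith
    · have : 0 ≤ (1 - ζ (x 2)) * (J x * (1 - om x / 2)) := mul_nonneg (by linarith) a3.le
      linarith
  have hdint : Integrable (fun x => J x - g0 x) volume :=
    (hJs.continuous.sub hg0s.continuous).integrable_of_hasCompactSupport
      (HasCompactSupport.intro (hT0c.union hLom) fun x hx =>
        sub_eq_zero.mpr (hg0J x hx).symm)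
  set e : ℝ := ∫ x, (J x - g0 x) with he
  -- the mass balance
  have hJRint : ∫ x in c '' R, J x = volume.real R :=
    integral_jac_inv_image hcd hcp hR.measurableSet
  have hcRm : MeasurableSet (c '' R) := hcRc.measurableSet
  have hJon : IntegrableOn J (c '' R) volume := hJs.continuous.continuousOn.integrableOn_compact hcRc
  have hepos : 0 < e := by
    have hb : ∀ x, (c '' R).indicator (fun y => J y / 2) x - Q2.indicator (fun _ => (1 : ℝ)) x
        ≤ J x - g0 x := by
      intro x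
      have a1 := hζ01 (x 2)
      have a2 := hom01 x
      have e1 : J x - g0 x = ζ (x 2) * (J x - 1) + (1 - ζ (x 2)) * J x * om x / 2 := by
        simp only [hg0]
        ring
      have a0 : 0 ≤ Q2.indicator (fun _ => (1 : ℝ)) x := indicator_nonneg (fun _ _ => zero_le_one) x
      by_cases hxR : x ∈ c '' R
      · have hxT : x ∈ Tub c0 th kap' zm := by
          obtain ⟨y, hy, rfl⟩ := hxR
          exact hcR y hy
        have b1 : ζ (x 2) = 0 := hζb (x 2) (by linarith [hxT.2.2.1])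
        have b2 : om x = 1 := hWom x (hcRW hxR)
        rw [e1, b1, b2, indicator_of_mem hxR]
        linarith
      · rw [e1, indicator_of_notMem hxR]
        have b3 : 0 ≤ (1 - ζ (x 2)) * J x * om x / 2 :=
          div_nonneg (mul_nonneg (mul_nonneg (by linarith) (hJp x).le) a2.1) (by norm_num)
        by_cases hxT : x ∈ T0
        · rw [indicator_of_mem (hKQ hxT.1)]
          have b4 : -1 ≤ ζ (x 2) * (J x - 1) := by nlinarith [hJp x]
          linarith
        · rw [hzJ x hxT]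
          linarith
    have i1 : Integrable ((c '' R).indicator (fun y => J y / 2)) volume :=
      (integrable_indicator_iff hcRm).mpr (hJon.div_const 2)
    have i2 : Integrable (Q2.indicator (fun _ => (1 : ℝ))) volume :=
      (integrableOn_const hQ2f).integrable_indicator hQ2
    have hle := integral_mono (i1.sub i2) hdint hb
    have e2 : ∫ x, ((c '' R).indicator (fun y => J y / 2) - Q2.indicator (fun _ => (1 : ℝ))) x
        = volume.real R / 2 - volume.real Q2 := by
      have e3 : ∫ x, ((c '' R).indicator (fun y => J y / 2)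
          - Q2.indicator (fun _ => (1 : ℝ))) x
          = (∫ x, (c '' R).indicator (fun y => J y / 2) x)
            - ∫ x, Q2.indicator (fun _ => (1 : ℝ)) x := integral_sub i1 i2
      rw [e3, integral_indicator hcRm, integral_indicator_const (1 : ℝ) hQ2, integral_div, hJRint]
      simp
    rw [e2] at hle
    rw [he]
    linarith
  -- the new density
  set J' : E3 → ℝ := fun x => g0 x + e * β x with hJ'
  have hJ's : ContDiff ℝ smo J' := hg0s.add (contDiff_const.mul hβs)
  have hJ'p : ∀ x, 0 < J' x := fun x => by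
    have := mul_nonneg hepos.le (hβ0 x)
    simp only [hJ']
    linarith [hg0p x]
  set T : Set E3 := (T0 ∪ Lom) ∪ Lβ with hT
  have hTc : IsCompact T := (hT0c.union hLom).union hLβ
  have hTsub : T ⊆ M := union_subset (union_subset hT0M hLomM) (hLβT.trans hTM)
  have hJJ' : ∀ x, x ∉ T → J x = J' x := by
    intro x hx
    have e1 : β x = 0 := hβoff x fun h => hx (Or.inr h)
    simp only [hJ', e1, hg0J x fun h => hx (Or.inl h)]
    ring
  obtain ⟨ι1, hι1, -, hιJ⟩ := exists_pos_lower hJs.continuous hJp hKc hJ1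
  obtain ⟨ι2, hι2, -, hιJ'⟩ := exists_pos_lower hJ's.continuous hJ'p (hKc.union hTc)
    (fun x hx => by
      rw [← hJJ' x fun h => hx (Or.inr h)]
      exact hJ1 x fun h => hx (Or.inl h))
  have hβint : Integrable β volume := hβs.continuous.integrable_of_hasCompactSupport
    (HasCompactSupport.intro hLβ fun x hx => hβoff x hx)
  have hmass : ∫ x, (J x - J' x) = 0 := by
    have e1 : ∫ x, (J x - J' x) = ∫ x, ((J x - g0 x) - e * β x) := by
      congr 1
      funext x
      simp only [hJ']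
      ring
    have e2 : ∫ x, ((J x - g0 x) - e * β x) = (∫ x, (J x - g0 x)) - ∫ x, e * β x :=
      integral_sub hdint (hβint.const_mul e)
    rw [e1, e2, integral_const_mul, hβ1, ← he]
    ring
  have hMconn : IsConnected M := by
    rw [hM, Tub_eq_Box]
    refine isConnected_Box _ _ fun i => ?_
    fin_cases i
    · change c0 0 - th < c0 0 + th
      linarith
    · change c0 1 - th < c0 1 + th
      linarith
    · change zb < zm
      linarith
  obtain ⟨ρ, hρ, hρJ⟩ := A3' M hMo hMconn T hTc hTsub J J' hJs hJ's (min ι1 ι2)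
    (lt_min hι1 hι2) (fun x => (min_le_left _ _).trans (hιJ x))
    (fun x => (min_le_right _ _).trans (hιJ' x)) hJJ' hmass
  refine ⟨ρ, hρ, fun x hx => ?_⟩
  rw [hcid.jac_mul hρ.isDif]
  change J (ρ x) * jac (fun y => ρ y) x = 1
  rw [hρJ x]
  rcases hx with ⟨hx1, hx2⟩ | ⟨hx1, hx2⟩
  · have b1 : ζ (x 2) = 1 := hζ1 (x 2) hx2 hx1.le
    have b2 : β x = 0 := hβoff x fun h => by
      have := (hLβT h).2.2.1
      linarith
    simp [hJ', hg0, b1, b2]
  · rw [← hJJ' x fun h => hx2 (hTsub h)]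
    exact hJ1 x hx1

/-- B3 (eating a box) -/
theorem B3eat {K : Set E3} {kap : ℝ} (hKk : ∀ x ∈ K, x 2 < kap) (A B a b p q : E3)
    (h0 : ∀ i, 0 < A i ∧ A i < a i ∧ a i < p i ∧ p i < q i ∧ q i < b i ∧ b i < B i ∧ B i < 1)
    (hKB : Disjoint K (Box A B)) (hBk : B 2 < kap) (zs zt : ℝ) (hzs : q 2 < zs) (hzs' : zs < b 2)
    (hzt : kap < zt) (hzt1 : zt < 1) :
    ∃ th0 : ℝ, 0 < th0 ∧ ∀ th : ℝ, 0 < th → th < th0 →
      Box a b ∪ Tub (fun i => (p i + q i) / 2) th zs zt ⊆ Cube ∧
      ∃ m : Equiv.Perm E3, InIso (Box a b ∪ Tub (fun i => (p i + q i) / 2) th zs zt) m ∧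
        (∀ z ∈ K, jac (fun y => m⁻¹ y) z = 1) ∧ (∀ x ∈ Icc p q, kap < m x 2) ∧
        (∀ z ∈ K, z ∉ Tub (fun i => (p i + q i) / 2) th zs zt → m⁻¹ z = z) ∧
        ∀ z, m z ∈ K → z ∉ Icc p q := by
  have hA := fun i => (h0 i).1
  have hAa := fun i => (h0 i).2.1
  have hap := fun i => (h0 i).2.2.1
  have hpq := fun i => (h0 i).2.2.2.1
  have hqb := fun i => (h0 i).2.2.2.2.1
  have hbB := fun i => (h0 i).2.2.2.2.2.1
  have hB1 := fun i => (h0 i).2.2.2.2.2.2
  set c0 : E3 := fun i => (p i + q i) / 2 with hc0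
  -- heights
  set d : ℝ := (p 2 - a 2) / 5 with hd
  have hd0 : 0 < d := by have := hap 2; rw [hd]; linarith
  have h5d : p 2 = a 2 + 5 * d := by rw [hd]; ring
  set r0 : ℝ := a 2 + d with hr0
  set r1 : ℝ := a 2 + 2 * d with hr1
  set r2 : ℝ := a 2 + 3 * d with hr2
  set rho : ℝ := a 2 + 4 * d with hrho
  set s : ℝ := (zt - kap) / 3 with hs
  have hs0 : 0 < s := by rw [hs]; linarith
  have hzt3 : zt = kap + 3 * s := by rw [hs]; ring
  set kap' : ℝ := kap + s with hkap'
  set zst : ℝ := kap + 2 * s with hzst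
  have hq2k : q 2 < kap := by linarith [hqb 2, hbB 2]
  have hden : 0 < zst - r1 := by
    rw [hzst, hr1]
    linarith [hap 2, hpq 2]
  set tau : ℝ := s / (2 * (zst - r1)) with htau
  have htau0 : 0 < tau := by positivity
  have htaur1 : tau * (zst - r1) = s / 2 := by rw [htau]; field_simp
  have htau1 : tau ≤ 1 := by
    rw [htau, div_le_one (by positivity)]
    rw [hzst, hr1]
    linarith [hap 2, hpq 2]
  set zm : ℝ := zst - tau * (zst - rho) with hzm
  have hzm1 : kap' < zm := by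
    have : tau * (zst - rho) ≤ tau * (zst - r1) :=
      mul_le_mul_of_nonneg_left (by rw [hrho, hr1]; linarith) htau0.le
    rw [hzm, hkap']
    linarith
  have hrz : 0 < zst - rho := by
    rw [hzst, hrho]
    linarith [hap 2, hpq 2]
  have hzm2 : zm < zst := by
    have := mul_pos htau0 hrz
    rw [hzm]
    linarith
  set zb : ℝ := (b 2 + B 2) / 2 with hzb
  have hzbB : zb < B 2 := by have := hbB 2; rw [hzb]; linarith
  have hbzb : b 2 < zb := by have := hbB 2; rw [hzb]; linarith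
  -- the volume of the box `R`
  set vR : ℝ := (q 0 - p 0) * (q 1 - p 1) * (r2 - r1) with hvR
  have hvR0 : 0 < vR := by
    have e : r2 - r1 = d := by rw [hr2, hr1]; ring
    rw [hvR, e]
    have := hpq 0
    have := hpq 1
    positivity
  refine ⟨min (min ((q 0 - p 0) / 2) ((q 1 - p 1) / 2)) (min 1 (vR / 8)), ?_, fun th hth hth0 => ?_⟩
  · have := hpq 0
    have := hpq 1
    exact lt_min (lt_min (by linarith) (by linarith)) (lt_min one_pos (by positivity))
  have hth_0 : th < (q 0 - p 0) / 2 :=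
    lt_of_lt_of_le hth0 ((min_le_left _ _).trans (min_le_left _ _))
  have hth_1 : th < (q 1 - p 1) / 2 :=
    lt_of_lt_of_le hth0 ((min_le_left _ _).trans (min_le_right _ _))
  have hth_2 : th < 1 := lt_of_lt_of_le hth0 ((min_le_right _ _).trans (min_le_left _ _))
  have hth_3 : th < vR / 8 := lt_of_lt_of_le hth0 ((min_le_right _ _).trans (min_le_right _ _))
  have hc00 : c0 0 = (p 0 + q 0) / 2 := rfl
  have hc01 : c0 1 = (p 1 + q 1) / 2 := rfl
  -- the set `V`
  set V : Set E3 := Box a b ∪ Tub c0 th zs zt with hV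
  have hTubx : ∀ x : E3, |x 0 - c0 0| < th → |x 1 - c0 1| < th →
      (p 0 < x 0 ∧ x 0 < q 0) ∧ (p 1 < x 1 ∧ x 1 < q 1) := by
    intro x h1 h2
    rw [abs_lt] at h1 h2
    rw [hc00] at h1
    rw [hc01] at h2
    refine ⟨⟨?_, ?_⟩, ⟨?_, ?_⟩⟩ <;> linarith [h1.1, h1.2, h2.1, h2.2]
  have hVC : V ⊆ Cube := by
    rintro x (hx | hx)
    · intro i
      have := hx i
      simp only [Pi.zero_apply, Pi.one_apply]
      constructor <;> linarith [this.1, this.2, hA i, hAa i, hbB i, hB1 i]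
    · obtain ⟨h1, h2⟩ := hTubx x hx.1 hx.2.1
      have h3 := hx.2.2.1
      have h4 := hx.2.2.2
      intro i
      simp only [Pi.zero_apply, Pi.one_apply]
      fin_cases i
      · change 0 < x 0 ∧ x 0 < 1
        constructor <;> linarith [hA 0, hAa 0, hap 0, hqb 0, hbB 0, hB1 0]
      · change 0 < x 1 ∧ x 1 < 1
        constructor <;> linarith [hA 1, hAa 1, hap 1, hqb 1, hbB 1, hB1 1]
      · change 0 < x 2 ∧ x 2 < 1
        constructor <;> linarith [hA 2, hAa 2, hap 2, hpq 2]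
  refine ⟨hVC, ?_⟩
  -- the horizontal contraction
  set qf : ℝ := th / 5 with hqf
  have hqf0 : 0 < qf := by positivity
  obtain ⟨c1, hc1, hc1x⟩ := CL a b ![(a 0 + p 0) / 2, (a 1 + p 1) / 2, r0]
    ![(q 0 + b 0) / 2, (q 1 + b 1) / 2, (q 2 + b 2) / 2] ![c0 0, c0 1, p 2]
    (fun i => by
      fin_cases i
      · change a 0 < (a 0 + p 0) / 2
        linarith [hap 0]
      · change a 1 < (a 1 + p 1) / 2
        linarith [hap 1]
      · change a 2 < r0
        linarith)
    (fun i => by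
      fin_cases i
      · change (q 0 + b 0) / 2 < b 0
        linarith [hqb 0]
      · change (q 1 + b 1) / 2 < b 1
        linarith [hqb 1]
      · change (q 2 + b 2) / 2 < b 2
        linarith [hqb 2])
    ⟨fun i => by
      fin_cases i
      · change (a 0 + p 0) / 2 ≤ c0 0
        linarith [hap 0, hpq 0]
      · change (a 1 + p 1) / 2 ≤ c0 1
        linarith [hap 1, hpq 1]
      · change r0 ≤ p 2
        linarith,
     fun i => by
      fin_cases i
      · change c0 0 ≤ (q 0 + b 0) / 2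
        linarith [hqb 0, hpq 0]
      · change c0 1 ≤ (q 1 + b 1) / 2
        linarith [hqb 1, hpq 1]
      · change p 2 ≤ (q 2 + b 2) / 2
        linarith [hpq 2, hqb 2]⟩ {0, 1} qf hqf0 (by linarith)
  have hc1v : ∀ x : E3, (∀ i, i ≠ 2 → p i ≤ x i ∧ x i ≤ q i) → r1 ≤ x 2 → x 2 ≤ q 2 →
      |c1 x 0 - c0 0| < th / 4 ∧ |c1 x 1 - c0 1| < th / 4 ∧ c1 x 2 = x 2 := by
    intro x hx h1 h2
    have hx0 := hx 0 (by decide)
    have hx1 := hx 1 (by decide)
    have hmem : x ∈ Icc (![(a 0 + p 0) / 2, (a 1 + p 1) / 2, r0] : E3)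
        ![(q 0 + b 0) / 2, (q 1 + b 1) / 2, (q 2 + b 2) / 2] := by
      refine ⟨fun i => ?_, fun i => ?_⟩
      · fin_cases i
        · change (a 0 + p 0) / 2 ≤ x 0
          linarith [hap 0, hx0.1]
        · change (a 1 + p 1) / 2 ≤ x 1
          linarith [hap 1, hx1.1]
        · change r0 ≤ x 2
          linarith
      · fin_cases i
        · change x 0 ≤ (q 0 + b 0) / 2
          linarith [hqb 0, hx0.2]
        · change x 1 ≤ (q 1 + b 1) / 2
          linarith [hqb 1, hx1.2]
        · change x 2 ≤ (q 2 + b 2) / 2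
          linarith [hqb 2]
    have e0 := hc1x x hmem 0
    have e1 := hc1x x hmem 1
    have e2 := hc1x x hmem 2
    rw [if_pos (by decide)] at e0 e1
    rw [if_neg (by decide)] at e2
    change c1 x 0 = c0 0 + qf * (x 0 - c0 0) at e0
    change c1 x 1 = c0 1 + qf * (x 1 - c0 1) at e1
    have hb0 : |x 0 - c0 0| ≤ 1 := by
      rw [abs_le, hc00]
      constructor <;> linarith [hx0.1, hx0.2, hA 0, hAa 0, hap 0, hqb 0, hbB 0, hB1 0]
    have hb1 : |x 1 - c0 1| ≤ 1 := by
      rw [abs_le, hc01]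
      constructor <;> linarith [hx1.1, hx1.2, hA 1, hAa 1, hap 1, hqb 1, hbB 1, hB1 1]
    refine ⟨?_, ?_, e2⟩
    · rw [e0, add_sub_cancel_left, abs_mul, abs_of_pos hqf0]
      calc qf * |x 0 - c0 0| ≤ qf * 1 := mul_le_mul_of_nonneg_left hb0 hqf0.le
        _ < th / 4 := by rw [hqf]; linarith
    · rw [e1, add_sub_cancel_left, abs_mul, abs_of_pos hqf0]
      calc qf * |x 1 - c0 1| ≤ qf * 1 := mul_le_mul_of_nonneg_left hb1 hqf0.le
        _ < th / 4 := by rw [hqf]; linarith
  -- the vertical contraction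
  have hrz0 : r0 < zst := by linarith
  obtain ⟨c2, hc2, hc2x⟩ := CL ![c0 0 - th, c0 1 - th, a 2] ![c0 0 + th, c0 1 + th, zt]
    ![c0 0 - th / 2, c0 1 - th / 2, r0] ![c0 0 + th / 2, c0 1 + th / 2, zst]
    ![c0 0, c0 1, zst]
    (fun i => by
      fin_cases i
      · change c0 0 - th < c0 0 - th / 2
        linarith
      · change c0 1 - th < c0 1 - th / 2
        linarith
      · change a 2 < r0
        linarith)
    (fun i => by
      fin_cases i
      · change c0 0 + th / 2 < c0 0 + th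
        linarith
      · change c0 1 + th / 2 < c0 1 + th
        linarith
      · change zst < zt
        linarith)
    ⟨fun i => by
      fin_cases i
      · change c0 0 - th / 2 ≤ c0 0
        linarith
      · change c0 1 - th / 2 ≤ c0 1
        linarith
      · change r0 ≤ zst
        linarith,
     fun i => by
      fin_cases i
      · change c0 0 ≤ c0 0 + th / 2
        linarith
      · change c0 1 ≤ c0 1 + th / 2
        linarith
      · change zst ≤ zst
        exact le_rfl⟩ {2} tau htau0 htau1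
  set Q2 : Set E3 := Box ![c0 0 - th, c0 1 - th, a 2] ![c0 0 + th, c0 1 + th, zt] with hQ2
  have hc2v : ∀ x : E3, |x 0 - c0 0| < th / 4 → |x 1 - c0 1| < th / 4 → r1 ≤ x 2 → x 2 ≤ q 2 →
      c2 x 0 = x 0 ∧ c2 x 1 = x 1 ∧ c2 x 2 = zst + tau * (x 2 - zst) := by
    intro x h1 h2 h3 h4
    rw [abs_lt] at h1 h2
    have hmem : x ∈ Icc (![c0 0 - th / 2, c0 1 - th / 2, r0] : E3)
        ![c0 0 + th / 2, c0 1 + th / 2, zst] := by
      refine ⟨fun i => ?_, fun i => ?_⟩
      · fin_cases i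
        · change c0 0 - th / 2 ≤ x 0
          linarith [h1.1]
        · change c0 1 - th / 2 ≤ x 1
          linarith [h2.1]
        · change r0 ≤ x 2
          linarith
      · fin_cases i
        · change x 0 ≤ c0 0 + th / 2
          linarith [h1.2]
        · change x 1 ≤ c0 1 + th / 2
          linarith [h2.2]
        · change x 2 ≤ zst
          linarith
    have e0 := hc2x x hmem 0
    have e1 := hc2x x hmem 1
    have e2 := hc2x x hmem 2
    rw [if_neg (by decide)] at e0 e1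
    rw [if_pos (by decide)] at e2
    exact ⟨e0, e1, e2⟩
  have hQ2V : Q2 ⊆ V := by
    intro x hx
    have hx0 := hx 0
    have hx1 := hx 1
    have hx2 := hx 2
    change c0 0 - th < x 0 ∧ x 0 < c0 0 + th at hx0
    change c0 1 - th < x 1 ∧ x 1 < c0 1 + th at hx1
    change a 2 < x 2 ∧ x 2 < zt at hx2
    have h1 : |x 0 - c0 0| < th := by rw [abs_lt]; constructor <;> linarith [hx0.1, hx0.2]
    have h2 : |x 1 - c0 1| < th := by rw [abs_lt]; constructor <;> linarith [hx1.1, hx1.2]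
    by_cases h3 : zs < x 2
    · exact Or.inr ⟨h1, h2, h3, hx2.2⟩
    · left
      obtain ⟨h4, h5⟩ := hTubx x h1 h2
      push Not at h3
      intro i
      fin_cases i
      · change a 0 < x 0 ∧ x 0 < b 0
        constructor <;> linarith [hap 0, hqb 0, h4.1, h4.2]
      · change a 1 < x 1 ∧ x 1 < b 1
        constructor <;> linarith [hap 1, hqb 1, h5.1, h5.2]
      · change a 2 < x 2 ∧ x 2 < b 2
        constructor <;> linarith [hx2.1]
  set c : Equiv.Perm E3 := c2 * c1 with hc
  have hcV : InIso V c := (hc2.mono hQ2V).mul (hc1.mono subset_union_left)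
  have hcd := hcV.isDif
  obtain ⟨K1, hK1s, hK1c, hK1⟩ := hc1.supp
  obtain ⟨K2, hK2s, hK2c, hK2⟩ := hc2.supp
  have hoff : IdOff (K1 ∪ K2) c :=
    (hK2.mono subset_union_right).mul (hK1.mono subset_union_left)
  -- the image of the box `P`
  have hcP : ∀ x ∈ Icc p q, zm < c x 2 := by
    intro x hx
    obtain ⟨e1, e2, e3⟩ := hc1v x (fun i _ => ⟨hx.1 i, hx.2 i⟩)
      (by have := hx.1 2; linarith) (hx.2 2)
    have h6 := hx.1 2
    obtain ⟨-, -, e6⟩ := hc2v (c1 x) e1 e2 (by rw [e3]; linarith) (by rw [e3]; exact hx.2 2)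
    rw [hc, Equiv.Perm.mul_apply, e6, e3, hzm]
    have : tau * (zst - x 2) < tau * (zst - rho) :=
      mul_lt_mul_of_pos_left (by linarith) htau0
    linarith
  -- the image of the box `R`
  set Rb : Set E3 := Icc ![p 0, p 1, r1] ![q 0, q 1, r2] with hRb
  have hcR : ∀ x ∈ Rb, c x ∈ Tub c0 th kap' zm := by
    intro x hx
    have hx0 : p 0 ≤ x 0 ∧ x 0 ≤ q 0 := ⟨hx.1 0, hx.2 0⟩
    have hx1 : p 1 ≤ x 1 ∧ x 1 ≤ q 1 := ⟨hx.1 1, hx.2 1⟩
    have hx2 : r1 ≤ x 2 ∧ x 2 ≤ r2 := ⟨hx.1 2, hx.2 2⟩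
    obtain ⟨e1, e2, e3⟩ := hc1v x (fun i hi => by
      fin_cases i
      · exact hx0
      · exact hx1
      · exact absurd rfl hi) hx2.1 (by linarith [hx2.2, hpq 2])
    obtain ⟨e4, e5, e6⟩ := hc2v (c1 x) e1 e2 (by rw [e3]; exact hx2.1)
      (by rw [e3]; linarith [hx2.2, hpq 2])
    rw [hc, Equiv.Perm.mul_apply]
    refine ⟨?_, ?_, ?_, ?_⟩
    · rw [e4]
      linarith
    · rw [e5]
      linarith
    · rw [e6, e3]
      have : tau * (zst - x 2) ≤ tau * (zst - r1) :=
        mul_le_mul_of_nonneg_left (by linarith [hx2.1]) htau0.le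
      rw [hkap']
      linarith
    · rw [e6, e3, hzm]
      have : tau * (zst - rho) < tau * (zst - x 2) :=
        mul_lt_mul_of_pos_left (by linarith [hx2.2]) htau0
      linarith
  have hvolR : volume.real Rb = vR := by
    have h1 : volume Rb = ENNReal.ofReal vR := by
      rw [hRb, Real.volume_Icc_pi, Fin.prod_univ_three, ← ENNReal.ofReal_mul, ← ENNReal.ofReal_mul]
      · rfl
      · have := hpq 0
        have := hpq 1
        change 0 ≤ (q 0 - p 0) * (q 1 - p 1)
        exact mul_nonneg (by linarith) (by linarith)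
      · have := hpq 0
        change 0 ≤ q 0 - p 0
        linarith
    rw [Measure.real, h1, ENNReal.toReal_ofReal hvR0.le]
  have hvolQ : volume.real Q2 ≤ 4 * th ^ 2 := by
    have h1 : volume Q2 = ENNReal.ofReal ((2 * th) * (2 * th) * (zt - a 2)) := by
      rw [hQ2, volume_Box' (fun i => ?_), Fin.prod_univ_three]
      · congr 1
        change (c0 0 + th - (c0 0 - th)) * (c0 1 + th - (c0 1 - th)) * (zt - a 2) = _
        ring
      · fin_cases i
        · change c0 0 - th ≤ c0 0 + th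
          linarith
        · change c0 1 - th ≤ c0 1 + th
          linarith
        · change a 2 ≤ zt
          linarith [hap 2, hpq 2]
    have h2 : 0 ≤ zt - a 2 := by linarith [hap 2, hpq 2]
    rw [Measure.real, h1, ENNReal.toReal_ofReal (by positivity)]
    have h3 : zt - a 2 ≤ 1 := by linarith [hA 2, hAa 2]
    nlinarith [sq_nonneg th]
  obtain ⟨ρ, hρ, hρ1⟩ := B3_density hcd hcV.jac_pos hK1c hK2c hoff c0 th zb (B 2) kap kap' zm hth
    hzbB hBk (by rw [hkap']; linarith) hzm1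
    (fun x hx => by
      have := (hK1s hx 2).2
      linarith)
    (fun x hx => by
      have hx0 := hK2s hx 0
      have hx1 := hK2s hx 1
      change c0 0 - th < x 0 ∧ x 0 < c0 0 + th at hx0
      change c0 1 - th < x 1 ∧ x 1 < c0 1 + th at hx1
      constructor <;> rw [abs_lt] <;> constructor <;>
        linarith [hx0.1, hx0.2, hx1.1, hx1.2])
    (isOpen_Box _ _).measurableSet hK2s (volume_Box_ne_top _ _) isCompact_Icc hcR
    (by
      rw [hvolR]
      nlinarith [hvolQ])
  have hMV : Tub c0 th zb zm ⊆ V := fun x hx =>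
    Or.inr ⟨hx.1, hx.2.1, by linarith [hx.2.2.1], by linarith [hx.2.2.2]⟩
  have hρV : InIso V ρ := hρ.mono hMV
  -- `K` and `V`
  have hKV : ∀ x ∈ K, x ∈ V → x ∈ Tub c0 th zs zt ∧ B 2 ≤ x 2 := by
    intro x hxK hxV
    have hxB : x ∉ Box A B := fun h => (Set.disjoint_left.mp hKB) hxK h
    have hxT : x ∈ Tub c0 th zs zt := by
      rcases hxV with h | h
      · exact absurd (fun i => ⟨(hAa i).trans (h i).1, (h i).2.trans (hbB i)⟩ : x ∈ Box A B) hxB
      · exact h
    refine ⟨hxT, ?_⟩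
    by_contra hlt
    push Not at hlt
    obtain ⟨h4, h5⟩ := hTubx x hxT.1 hxT.2.1
    refine hxB fun i => ?_
    fin_cases i
    · change A 0 < x 0 ∧ x 0 < B 0
      constructor <;> linarith [hAa 0, hap 0, hqb 0, hbB 0, h4.1, h4.2]
    · change A 1 < x 1 ∧ x 1 < B 1
      constructor <;> linarith [hAa 1, hap 1, hqb 1, hbB 1, h5.1, h5.2]
    · change A 2 < x 2 ∧ x 2 < B 2
      have := hxT.2.2.1
      constructor <;> linarith [hAa 2, hap 2, hpq 2]
  have hmap : ∀ x ∈ Icc p q, kap < (ρ⁻¹ * c) x 2 := by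
    intro x hx
    have h1 := hcP x hx
    have h2 : c x ∉ Tub c0 th zb zm := fun h => by
      have := h.2.2.2
      linarith
    have h3 : ρ⁻¹ (c x) = c x := hρ.inv.idOff _ h2
    rw [Equiv.Perm.mul_apply, h3]
    linarith
  refine ⟨ρ⁻¹ * c, hρV.inv.mul hcV, ?_, hmap, ?_, ?_⟩
  · intro z hz
    have e : (ρ⁻¹ * c)⁻¹ = c⁻¹ * ρ := by group
    rw [e]
    by_cases hzV : z ∈ V
    · exact hρ1 z (Or.inl ⟨hKk z hz, (hKV z hz hzV).2⟩)
    · refine hρ1 z (Or.inr ⟨fun h => hzV ?_, fun h => hzV (hMV h)⟩)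
      rcases h with h | h
      · exact Or.inl (hK1s h)
      · exact hQ2V (hK2s h)
  · intro z hz hzT
    have hzV : z ∉ V := fun h => hzT (hKV z hz h).1
    exact (hρV.inv.mul hcV).inv.idOff z hzV
  · intro z hz hzP
    have h1 := hmap z hzP
    have h2 := hKk _ hz
    linarith

end Pool.Agent.QM59
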