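import Mathlib
import Pool.Agent.Lib.MP_decea1_gt_B.Clamp

/-!
# MP_decea1_gt (S14098), block B6 (b): concentric boxes of prescribed volume.
-/

set_option autoImplicit false

open MeasureTheory Set

namespace Pool.Agent.QM59

/-- the box concentric with and homothetic to `Box p q`, of the volume `w`
(if `0 < w`): lower corner -/
noncomputable def cLo (p q : E3) (w : ℝ) : E3 :=
  fun i => (p i + q i) / 2 - (w / ∏ j, (q j - p j)) ^ ((1 : ℝ) / 3) * ((q i - p i) / 2)

/-- upper corner -/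
noncomputable def cHi (p q : E3) (w : ℝ) : E3 :=
  fun i => (p i + q i) / 2 + (w / ∏ j, (q j - p j)) ^ ((1 : ℝ) / 3) * ((q i - p i) / 2)

private theorem prod_pos_conc {p q : E3} (h : ∀ i, p i < q i) : 0 < ∏ j, (q j - p j) :=
  Finset.prod_pos fun j _ => sub_pos.2 (h j)

theorem cLo_lt_cHi {p q : E3} (h : ∀ i, p i < q i) {w : ℝ} (hw : 0 < w) (i : Fin 3) :
    cLo p q w i < cHi p q w i := by
  have h1 : 0 < (w / ∏ j, (q j - p j)) ^ ((1 : ℝ) / 3) :=
    Real.rpow_pos_of_pos (div_pos hw (prod_pos_conc h)) _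
  have h2 : 0 < (q i - p i) / 2 := by linarith [h i]
  have h3 := mul_pos h1 h2
  simp only [cLo, cHi]
  linarith

/-- strictly monotone in `w` -/
theorem cLo_anti {p q : E3} (h : ∀ i, p i < q i) {w w' : ℝ} (hw : 0 < w) (hw' : w < w')
    (i : Fin 3) : cLo p q w' i < cLo p q w i ∧ cHi p q w i < cHi p q w' i := by
  have h1 : (w / ∏ j, (q j - p j)) ^ ((1 : ℝ) / 3) < (w' / ∏ j, (q j - p j)) ^ ((1 : ℝ) / 3) :=
    Real.rpow_lt_rpow (div_pos hw (prod_pos_conc h)).le
      (div_lt_div_of_pos_right hw' (prod_pos_conc h)) (by norm_num)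
  have h2 : 0 < (q i - p i) / 2 := by linarith [h i]
  have h3 := mul_lt_mul_of_pos_right h1 h2
  simp only [cLo, cHi]
  constructor <;> linarith

/-- `w` = the full volume gives `Box p q` -/
theorem cLo_full {p q : E3} (h : ∀ i, p i < q i) (i : Fin 3) :
    cLo p q (∏ j, (q j - p j)) i = p i ∧ cHi p q (∏ j, (q j - p j)) i = q i := by
  simp only [cLo, cHi, div_self (prod_pos_conc h).ne', Real.one_rpow]
  constructor <;> ring

theorem volume_real_Box {p q : E3} (h : ∀ i, p i < q i) :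
    volume.real (Box p q) = ∏ j, (q j - p j) := by
  have h1 : Box p q = Set.pi univ fun i => Ioo (p i) (q i) := by
    ext x
    simp [Box]
  rw [h1, Measure.real, Real.volume_pi_Ioo_toReal fun i => (h i).le]

theorem volume_real_Icc {p q : E3} (h : ∀ i, p i < q i) :
    volume.real (Icc p q) = ∏ j, (q j - p j) := by
  rw [Measure.real, Real.volume_Icc_pi_toReal fun i => (h i).le]

private theorem prod_cHi_sub_cLo {p q : E3} (h : ∀ i, p i < q i) {w : ℝ} (hw : 0 < w) :
    ∏ j, (cHi p q w j - cLo p q w j) = w := by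
  have h0 := prod_pos_conc h
  have h1 : 0 < w / ∏ j, (q j - p j) := div_pos hw h0
  have h2 : ∀ j, cHi p q w j - cLo p q w j =
      (w / ∏ j, (q j - p j)) ^ ((1 : ℝ) / 3) * (q j - p j) := by
    intro j
    simp only [cHi, cLo]
    ring
  simp_rw [h2]
  rw [Finset.prod_mul_distrib, Finset.prod_const, Finset.card_univ, Fintype.card_fin,
    ← Real.rpow_natCast, ← Real.rpow_mul h1.le]
  norm_num
  field_simp

theorem volume_real_cBox {p q : E3} (h : ∀ i, p i < q i) {w : ℝ} (hw : 0 < w) :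
    volume.real (Box (cLo p q w) (cHi p q w)) = w := by
  rw [volume_real_Box (cLo_lt_cHi h hw), prod_cHi_sub_cLo h hw]

theorem volume_real_cIcc {p q : E3} (h : ∀ i, p i < q i) {w : ℝ} (hw : 0 < w) :
    volume.real (Icc (cLo p q w) (cHi p q w)) = w := by
  rw [volume_real_Icc (cLo_lt_cHi h hw), prod_cHi_sub_cLo h hw]

end Pool.Agent.QM59
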