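import Mathlib
import Pool.Agent.Lib.MP_decea1_gt_B.Clamp

/-!
# MP_decea1_gt (S14098), block B4.2 (a): vertical tubes.
-/

set_option autoImplicit false

open MeasureTheory Set

namespace Pool.Agent.QM59

/-- closed vertical tube -/
def BTube (c : E3) (θ zs zt : ℝ) : Set E3 :=
  {x | |x 0 - c 0| ≤ θ ∧ |x 1 - c 1| ≤ θ ∧ zs ≤ x 2 ∧ x 2 ≤ zt}

/-- open vertical tube -/
def BTubeO (c : E3) (θ zs zt : ℝ) : Set E3 :=
  {x | |x 0 - c 0| < θ ∧ |x 1 - c 1| < θ ∧ zs < x 2 ∧ x 2 < zt}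

/-- the centre of a box -/
noncomputable def ctr (p q : E3) : E3 := fun i => (p i + q i) / 2

/-- the column of a box, upwards from its bottom -/
def BUpCol (A B : E3) : Set E3 :=
  {x | A 0 < x 0 ∧ x 0 < B 0 ∧ A 1 < x 1 ∧ x 1 < B 1 ∧ A 2 < x 2}

theorem BTubeO_subset (c : E3) (θ zs zt : ℝ) : BTubeO c θ zs zt ⊆ BTube c θ zs zt := by
  rintro x ⟨h0, h1, h2, h3⟩
  exact ⟨h0.le, h1.le, h2.le, h3.le⟩

theorem BTube_mono (c : E3) {θ θ' : ℝ} (h : θ ≤ θ') (zs zt : ℝ) :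
    BTube c θ zs zt ⊆ BTube c θ' zs zt := by
  rintro x ⟨h0, h1, h2, h3⟩
  exact ⟨h0.trans h, h1.trans h, h2, h3⟩

/-- a tube is a box -/
theorem BTube_eq (c : E3) (θ zs zt : ℝ) :
    BTube c θ zs zt = Icc ![c 0 - θ, c 1 - θ, zs] ![c 0 + θ, c 1 + θ, zt] := by
  ext x
  simp only [BTube, mem_ofPred_eq, mem_Icc, Pi.le_def, Fin.forall_fin_succ, abs_le]
  simp
  constructor
  · rintro ⟨⟨h1, h2⟩, ⟨h3, h4⟩, h5, h6⟩
    refine ⟨⟨?_, ?_, ?_⟩, ?_, ?_, ?_⟩ <;> linarith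
  · rintro ⟨⟨h1, h2, h3⟩, h4, h5, h6⟩
    refine ⟨⟨?_, ?_⟩, ⟨?_, ?_⟩, ?_, ?_⟩ <;> linarith

theorem BTubeO_eq (c : E3) (θ zs zt : ℝ) :
    BTubeO c θ zs zt = Box ![c 0 - θ, c 1 - θ, zs] ![c 0 + θ, c 1 + θ, zt] := by
  ext x
  simp only [BTubeO, mem_ofPred_eq, mem_Box, Fin.forall_fin_succ, abs_lt]
  simp
  constructor
  · rintro ⟨⟨h1, h2⟩, ⟨h3, h4⟩, h5, h6⟩
    refine ⟨⟨?_, ?_⟩, ⟨?_, ?_⟩, ?_, ?_⟩ <;> linarith
  · rintro ⟨⟨h1, h2⟩, ⟨h3, h4⟩, h5, h6⟩
    refine ⟨⟨?_, ?_⟩, ⟨?_, ?_⟩, ?_, ?_⟩ <;> linarith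

theorem isCompact_BTube (c : E3) (θ zs zt : ℝ) : IsCompact (BTube c θ zs zt) := by
  rw [BTube_eq]
  exact isCompact_Icc

theorem isOpen_BTubeO (c : E3) (θ zs zt : ℝ) : IsOpen (BTubeO c θ zs zt) := by
  rw [BTubeO_eq]
  exact isOpen_Box _ _

theorem volume_BTube_le (c : E3) {θ zs zt : ℝ} (hθ : 0 ≤ θ) (h0 : 0 ≤ zs) (h1 : zt ≤ 1) :
    volume (BTube c θ zs zt) ≤ ENNReal.ofReal (4 * θ ^ 2) := by
  rw [BTube_eq, Real.volume_Icc_pi, Fin.prod_univ_three]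
  simp only [Matrix.cons_val_zero, Matrix.cons_val_one, Matrix.cons_val]
  have e0 : c 0 + θ - (c 0 - θ) = 2 * θ := by ring
  have e1 : c 1 + θ - (c 1 - θ) = 2 * θ := by ring
  rw [e0, e1, ← ENNReal.ofReal_mul (by positivity), ← ENNReal.ofReal_mul (by positivity)]
  refine ENNReal.ofReal_le_ofReal ?_
  have h3 : zt - zs ≤ 1 := by linarith
  nlinarith [mul_le_mul_of_nonneg_left h3 (by positivity : 0 ≤ 2 * θ * (2 * θ))]

/-- the tube above `Icc p q` lies in the cube -/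
theorem BTubeO_subset_Cube {p q : E3} (hp : Icc p q ⊆ Cube) (hpq : ∀ i, p i < q i) {θ zs zt : ℝ}
    (hθ : ∀ i, θ < (q i - p i) / 2) (h0 : q 2 < zs) (h1 : zt < 1) :
    BTubeO (ctr p q) θ zs zt ⊆ Cube := by
  have hpp := hp (left_mem_Icc.mpr fun i => (hpq i).le)
  have hqq := hp (right_mem_Icc.mpr fun i => (hpq i).le)
  rw [mem_Cube] at hpp hqq
  rintro x ⟨h2, h3, h4, h5⟩
  rw [abs_lt] at h2 h3
  simp only [ctr] at h2 h3
  have a0 := hθ 0
  have a1 := hθ 1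
  have p0 := hpp 0
  have p1 := hpp 1
  have q0 := hqq 0
  have q1 := hqq 1
  have q2 := hqq 2
  rw [mem_Cube]
  intro i
  fin_cases i
  · change 0 < x 0 ∧ x 0 < 1
    constructor <;> linarith [h2.1, h2.2]
  · change 0 < x 1 ∧ x 1 < 1
    constructor <;> linarith [h3.1, h3.2]
  · change 0 < x 2 ∧ x 2 < 1
    constructor <;> linarith [q2.1]

/-- the tube above `Icc p q` lies in the column of every larger box -/
theorem BTubeO_subset_BUpCol {p q A B : E3} (hA : ∀ i, A i < p i ∧ p i < q i ∧ q i < B i)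
    {θ zs zt : ℝ} (hθ : ∀ i, θ < (q i - p i) / 2) (h0 : q 2 < zs) :
    BTubeO (ctr p q) θ zs zt ⊆ BUpCol A B := by
  rintro x ⟨h2, h3, h4, h5⟩
  rw [abs_lt] at h2 h3
  simp only [ctr] at h2 h3
  have a0 := hθ 0
  have a1 := hθ 1
  have p0 := hA 0
  have p1 := hA 1
  have p2 := hA 2
  refine ⟨?_, ?_, ?_, ?_, ?_⟩
  · linarith [h2.1]
  · linarith [h2.2]
  · linarith [h3.1]
  · linarith [h3.2]
  · linarith [p2.1, p2.2.1]

/-- the intersection of the tubes of radius `1/(n+1)` is a vertical segment -/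
theorem iInter_BTube (c : E3) {zs zt : ℝ} (h : zs ≤ zt) {r : ℝ} (hr : 0 < r) :
    ⋂ n : ℕ, BTube c (r / (n + 1)) zs zt =
      segment ℝ (![c 0, c 1, zs] : E3) ![c 0, c 1, zt] := by
  ext x
  simp only [mem_iInter]
  constructor
  · intro hx
    have lim : Filter.Tendsto (fun n : ℕ => r / ((n : ℝ) + 1)) Filter.atTop (nhds 0) :=
      tendsto_const_div_atTop_nhds_zero_nat r |>.comp (Filter.tendsto_add_atTop_nat 1) |>.congr
        fun n => by simp
    have h0 : |x 0 - c 0| ≤ 0 := ge_of_tendsto' lim fun n => (hx n).1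
    have h1 : |x 1 - c 1| ≤ 0 := ge_of_tendsto' lim fun n => (hx n).2.1
    have e0 : x 0 = c 0 := by
      have := abs_nonpos_iff.mp h0
      linarith
    have e1 : x 1 = c 1 := by
      have := abs_nonpos_iff.mp h1
      linarith
    obtain ⟨-, -, h2, h3⟩ := hx 0
    rw [segment_eq_image']
    rcases eq_or_lt_of_le h with h4 | h4
    · refine ⟨0, ⟨le_rfl, zero_le_one⟩, ?_⟩
      funext i
      fin_cases i
      · simpa using e0.symm
      · simpa using e1.symm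
      · simp
        linarith
    · refine ⟨(x 2 - zs) / (zt - zs), ⟨div_nonneg (by linarith) (by linarith), ?_⟩, ?_⟩
      · rw [div_le_one (by linarith)]
        linarith
      · funext i
        fin_cases i
        · simpa using e0.symm
        · simpa using e1.symm
        · have h5 : zt - zs ≠ 0 := by linarith
          simp
          field_simp
          ring
  · intro hx n
    rw [segment_eq_image'] at hx
    obtain ⟨t, ⟨ht0, ht1⟩, rfl⟩ := hx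
    have hrn : 0 ≤ r / ((n : ℝ) + 1) := by positivity
    refine ⟨?_, ?_, ?_, ?_⟩
    · simpa using hrn
    · simpa using hrn
    · simp
      nlinarith
    · simp
      nlinarith

end Pool.Agent.QM59
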