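import Mathlib
import Pool.Agent.Lib.MP_decea1_gt_A.Iso1
import Pool.Agent.Lib.MP_decea1_gt_B.B1a
import Pool.Agent.Lib.MP_decea1_gt_B.Tube

/-!
# MP_decea1_gt (S14098), block B3 (a): data for eating a box, the contraction into the tube.
-/

set_option autoImplicit false

open MeasureTheory Set

namespace Pool.Agent.QM59

/-- The data of B3. `Box A B` is the box to be eaten, `Icc p q ⊆ Box a b`, `Icc a b ⊆ Box A B`; the
tube starts at the height `zs` inside `Box a b` above `Icc p q` and ends at the height `zt` above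
`K`. -/
structure EatData (K : Set E3) (A B a b p q : E3) (κ zs zt : ℝ) : Prop where
  cpt : IsCompact K
  sub : K ⊆ Cube
  icc : Icc A B ⊆ Cube
  dis : Disjoint K (Box A B)
  lt : ∀ i, A i < a i ∧ a i < p i ∧ p i < q i ∧ q i < b i ∧ b i < B i
  zs1 : q 2 < zs
  zs2 : zs < b 2
  topK : ∀ x ∈ K, x 2 < κ
  topB : B 2 < κ
  zt1 : κ < zt
  zt2 : zt < 1

variable {K : Set E3} {A B a b p q : E3} {κ zs zt : ℝ}

/-- B3, the contraction `c = c₂ * c₁`.

Proof. Choose `a 2 < r₀ < r₁ < r₂ < p 2` and `R = Icc ![p 0, p 1, r₁] ![q 0, q 1, r₂]`,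
`ρ = (r₂ + p 2) / 2`, `κ < κ' < z < zt`, and `τ ∈ (0, 1)` with `τ * (z - r₁) < z - κ'`. Put
`zm = z - τ * (z - ρ)`, so `κ' < zm < z`. None of this depends on `θ`.
`c₁` := `CL` in `Box a b` for a closed box `Icc a' b'` with `a' i < p i`, `a' 2 < r₁`, `q i < b' i`
inside `Box a b`, the point `ctr p q`, `I = {0, 1}`, and a factor `q₁` with
`q₁ * (b' i - a' i) < θ / 4`; so `|(c₁ x) i - ctr p q i| < θ / 4` (`i = 0, 1`) and
`(c₁ x) 2 = x 2` for `x ∈ Icc p q ∪ R`.
`c₂` := `CL` in `Box ![c 0 - θ, c 1 - θ, a 2] ![c 0 + θ, c 1 + θ, zt]` (`c = ctr p q`) for the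
closed box `Icc ![c 0 - θ / 2, c 1 - θ / 2, r₀] ![c 0 + θ / 2, c 1 + θ / 2, z]`, a point of height
`z` on its top face, `I = {2}` and the factor `τ`: heights `h ↦ z - τ * (z - h)`. The large box is
contained in `Box a b ∪ BTubeO c θ zs zt`, because `zs < b 2` and `θ < (q i - p i) / 2`.
`x ∈ Icc p q` has height `≥ p 2 > ρ`, so `(c x) 2 > zm`; `x ∈ R` has a height in `[r₁, r₂]`, so
`κ' < z - τ * (z - r₁) ≤ (c x) 2 ≤ z - τ * (z - r₂) < zm`. -/
theorem Eat1 (h : EatData K A B a b p q κ zs zt) :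
    ∃ (R : Set E3) (κ' zm : ℝ), IsCompact R ∧ 0 < volume.real R ∧ κ < κ' ∧ κ' < zm ∧ zm < zt ∧
      ∀ θ : ℝ, 0 < θ → (∀ i, θ < (q i - p i) / 2) → ∃ c : Equiv.Perm E3,
        InIso (Box a b ∪ BTubeO (ctr p q) θ zs zt) c ∧
        (∀ x ∈ Icc p q, zm < (c x) 2) ∧
        ∀ x ∈ R, κ' < (c x) 2 ∧ (c x) 2 < zm ∧ |(c x) 0 - ctr p q 0| < θ / 2 ∧
          |(c x) 1 - ctr p q 1| < θ / 2 := by
  have l0 := h.lt 0
  have l1 := h.lt 1
  have l2 := h.lt 2
  have hBK := h.topB
  have hzt := h.zt1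
  have hzs1 := h.zs1
  have hzs2 := h.zs2
  obtain ⟨δ, hδ⟩ : ∃ δ : ℝ, δ = (p 2 - a 2) / 5 := ⟨_, rfl⟩
  have hδ0 : 0 < δ := by rw [hδ]; linarith [l2.2.1]
  have hδ5 : p 2 = a 2 + 5 * δ := by rw [hδ]; ring
  obtain ⟨e, he⟩ : ∃ e : ℝ, e = (zt - κ) / 3 := ⟨_, rfl⟩
  have he0 : 0 < e := by rw [he]; linarith
  have he3 : zt = κ + 3 * e := by rw [he]; ring
  obtain ⟨r₀, hr₀⟩ : ∃ r₀ : ℝ, r₀ = a 2 + δ := ⟨_, rfl⟩
  obtain ⟨r₁, hr₁⟩ : ∃ r₁ : ℝ, r₁ = a 2 + 2 * δ := ⟨_, rfl⟩
  obtain ⟨r₂, hr₂⟩ : ∃ r₂ : ℝ, r₂ = a 2 + 3 * δ := ⟨_, rfl⟩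
  obtain ⟨ρ, hρ⟩ : ∃ ρ : ℝ, ρ = a 2 + 4 * δ := ⟨_, rfl⟩
  obtain ⟨z, hz⟩ : ∃ z : ℝ, z = κ + 2 * e := ⟨_, rfl⟩
  have hzr : 0 < z - r₁ := by linarith [l2.2.2.1, l2.2.2.2.1, l2.2.2.2.2]
  obtain ⟨τ, hτ⟩ : ∃ τ : ℝ, τ = e / (2 * (z - r₁)) := ⟨_, rfl⟩
  have hτ0 : 0 < τ := by rw [hτ]; positivity
  have hτr : τ * (z - r₁) = e / 2 := by
    rw [hτ]
    field_simp
  have hτ1 : τ ≤ 1 := by
    by_contra hc
    push Not at hc
    have h1 := mul_lt_mul_of_pos_right hc hzr
    rw [hτr, one_mul] at h1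
    linarith [l2.2.2.1, l2.2.2.2.1, l2.2.2.2.2]
  have hτρ : τ * (z - ρ) = τ * (z - r₁) - τ * (2 * δ) := by
    rw [hρ, hr₁]; ring
  have hτδ : 0 < τ * δ := mul_pos hτ0 hδ0
  have hzρ : 0 < τ * (z - ρ) :=
    mul_pos hτ0 (by linarith [l2.2.2.1, l2.2.2.2.1, l2.2.2.2.2])
  refine ⟨Icc ![p 0, p 1, r₁] ![q 0, q 1, r₂], κ + e, z - τ * (z - ρ), isCompact_Icc, ?_,
    by linarith, by linarith, by linarith, fun θ hθ hθq => ?_⟩
  · have hle : (![p 0, p 1, r₁] : E3) ≤ ![q 0, q 1, r₂] := by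
      intro i
      fin_cases i
      · exact l0.2.2.1.le
      · exact l1.2.2.1.le
      · change r₁ ≤ r₂
        linarith
    rw [measureReal_def, Real.volume_Icc_pi_toReal hle, Fin.prod_univ_three]
    have h0 : 0 < q 0 - p 0 := sub_pos.mpr l0.2.2.1
    have h1 : 0 < q 1 - p 1 := sub_pos.mpr l1.2.2.1
    have h2 : 0 < r₂ - r₁ := by linarith
    exact mul_pos (mul_pos h0 h1) h2
  · have hθ0 := hθq 0
    have hθ1 := hθq 1
    have hc0 : ctr p q 0 = (p 0 + q 0) / 2 := rfl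
    have hc1 : ctr p q 1 = (p 1 + q 1) / 2 := rfl
    have hc2 : ctr p q 2 = (p 2 + q 2) / 2 := rfl
    obtain ⟨a', ha'⟩ : ∃ a' : E3, a' = ![(a 0 + p 0) / 2, (a 1 + p 1) / 2, r₀] := ⟨_, rfl⟩
    obtain ⟨b', hb'⟩ : ∃ b' : E3, b' = fun i => (q i + b i) / 2 := ⟨_, rfl⟩
    have ha0 : a' 0 = (a 0 + p 0) / 2 := by rw [ha']; rfl
    have ha1 : a' 1 = (a 1 + p 1) / 2 := by rw [ha']; rfl
    have ha2 : a' 2 = r₀ := by rw [ha']; rfl
    have hb0 : ∀ i, b' i = (q i + b i) / 2 := fun i => by rw [hb']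
    have haa : ∀ i, a i < a' i := by
      intro i
      fin_cases i
      · change a 0 < a' 0
        rw [ha0]
        linarith [l0.2.1]
      · change a 1 < a' 1
        rw [ha1]
        linarith [l1.2.1]
      · change a 2 < a' 2
        rw [ha2]
        linarith
    have hbb : ∀ i, b' i < b i := fun i => by
      rw [hb0]
      linarith [(h.lt i).2.2.2.1]
    have hap : ∀ i, a' i < p i := by
      intro i
      fin_cases i
      · change a' 0 < p 0
        rw [ha0]
        linarith [l0.2.1]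
      · change a' 1 < p 1
        rw [ha1]
        linarith [l1.2.1]
      · change a' 2 < p 2
        rw [ha2]
        linarith
    have hqb : ∀ i, q i < b' i := fun i => by
      rw [hb0]
      linarith [(h.lt i).2.2.2.1]
    have hctr : ctr p q ∈ Icc a' b' := by
      refine ⟨fun i => ?_, fun i => ?_⟩
      · have h1 := hap i
        have h2 := (h.lt i).2.2.1
        change a' i ≤ (p i + q i) / 2
        linarith
      · have h1 := hqb i
        have h2 := (h.lt i).2.2.1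
        change (p i + q i) / 2 ≤ b' i
        linarith
    obtain ⟨D, hD⟩ : ∃ D : ℝ, D = (b' 0 - a' 0) + (b' 1 - a' 1) := ⟨_, rfl⟩
    have hD0 : 0 < b' 0 - a' 0 := by linarith [hap 0, hqb 0, l0.2.2.1]
    have hD1 : 0 < b' 1 - a' 1 := by linarith [hap 1, hqb 1, l1.2.2.1]
    have hDp : 0 < D := by linarith
    obtain ⟨q₁, hq₁⟩ : ∃ q₁ : ℝ, q₁ = min 1 (θ / (8 * D)) := ⟨_, rfl⟩
    have hq0 : 0 < q₁ := by rw [hq₁]; exact lt_min one_pos (by positivity)
    have hq1 : q₁ ≤ 1 := by rw [hq₁]; exact min_le_left _ _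
    have hqD : q₁ * D ≤ θ / 8 := by
      have h1 : q₁ ≤ θ / (8 * D) := by rw [hq₁]; exact min_le_right _ _
      have h2 := mul_le_mul_of_nonneg_right h1 hDp.le
      have h3 : θ / (8 * D) * D = θ / 8 := by field_simp
      linarith
    obtain ⟨c₁, hc₁, hc₁x⟩ := CL a b a' b' (ctr p q) haa hbb hctr {0, 1} q₁ hq0 hq1
    have key1 : ∀ x ∈ Icc a' b', |(c₁ x) 0 - ctr p q 0| ≤ θ / 8 ∧
        |(c₁ x) 1 - ctr p q 1| ≤ θ / 8 ∧ (c₁ x) 2 = x 2 := by
      intro x hx
      have gen : ∀ i : Fin 3, 0 < b' i - a' i → b' i - a' i ≤ D →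
          (c₁ x) i = ctr p q i + q₁ * (x i - ctr p q i) → |(c₁ x) i - ctr p q i| ≤ θ / 8 := by
        intro i h1 h2 h3
        rw [h3, add_sub_cancel_left, abs_mul, abs_of_pos hq0]
        have h4 : |x i - ctr p q i| ≤ D := by
          rw [abs_le]
          have h5 := hx.1 i
          have h6 := hx.2 i
          have h7 := hctr.1 i
          have h8 := hctr.2 i
          constructor <;> linarith
        exact (mul_le_mul_of_nonneg_left h4 hq0.le).trans hqD
      refine ⟨gen 0 hD0 (by linarith) ?_, gen 1 hD1 (by linarith) ?_, ?_⟩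
      · rw [hc₁x x hx 0, if_pos (by decide)]
      · rw [hc₁x x hx 1, if_pos (by decide)]
      · rw [hc₁x x hx 2, if_neg (by decide)]
    obtain ⟨c₂, hc₂, hc₂x⟩ := CL ![ctr p q 0 - θ, ctr p q 1 - θ, a 2]
      ![ctr p q 0 + θ, ctr p q 1 + θ, zt] ![ctr p q 0 - θ / 2, ctr p q 1 - θ / 2, r₀]
      ![ctr p q 0 + θ / 2, ctr p q 1 + θ / 2, z] ![ctr p q 0, ctr p q 1, z]
      (by
        intro i
        fin_cases i
        · change ctr p q 0 - θ < ctr p q 0 - θ / 2
          linarith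
        · change ctr p q 1 - θ < ctr p q 1 - θ / 2
          linarith
        · change a 2 < r₀
          linarith)
      (by
        intro i
        fin_cases i
        · change ctr p q 0 + θ / 2 < ctr p q 0 + θ
          linarith
        · change ctr p q 1 + θ / 2 < ctr p q 1 + θ
          linarith
        · change z < zt
          linarith)
      (by
        refine ⟨fun i => ?_, fun i => ?_⟩
        · fin_cases i
          · change ctr p q 0 - θ / 2 ≤ ctr p q 0
            linarith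
          · change ctr p q 1 - θ / 2 ≤ ctr p q 1
            linarith
          · change r₀ ≤ z
            linarith
        · fin_cases i
          · change ctr p q 0 ≤ ctr p q 0 + θ / 2
            linarith
          · change ctr p q 1 ≤ ctr p q 1 + θ / 2
            linarith
          · change z ≤ z
            exact le_rfl) {2} τ hτ0 hτ1
    have key2 : ∀ x ∈ Icc a' b', x 2 ≤ z → (c₂ (c₁ x)) 2 = z - τ * (z - x 2) ∧
        |(c₂ (c₁ x)) 0 - ctr p q 0| ≤ θ / 8 ∧ |(c₂ (c₁ x)) 1 - ctr p q 1| ≤ θ / 8 := by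
      intro x hx hxz
      obtain ⟨k0, k1, k2⟩ := key1 x hx
      have k0' := abs_le.mp k0
      have k1' := abs_le.mp k1
      have hx2 := hx.1 2
      rw [ha2] at hx2
      have hmem : c₁ x ∈ Icc ![ctr p q 0 - θ / 2, ctr p q 1 - θ / 2, r₀]
          ![ctr p q 0 + θ / 2, ctr p q 1 + θ / 2, z] := by
        refine ⟨fun i => ?_, fun i => ?_⟩
        · fin_cases i
          · change ctr p q 0 - θ / 2 ≤ (c₁ x) 0
            linarith
          · change ctr p q 1 - θ / 2 ≤ (c₁ x) 1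
            linarith
          · change r₀ ≤ (c₁ x) 2
            rw [k2]
            exact hx2
        · fin_cases i
          · change (c₁ x) 0 ≤ ctr p q 0 + θ / 2
            linarith
          · change (c₁ x) 1 ≤ ctr p q 1 + θ / 2
            linarith
          · change (c₁ x) 2 ≤ z
            rw [k2]
            exact hxz
      have m0 := hc₂x _ hmem 0
      have m1 := hc₂x _ hmem 1
      have m2 := hc₂x _ hmem 2
      rw [if_neg (by decide)] at m0 m1
      rw [if_pos (by decide), k2] at m2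
      refine ⟨?_, ?_, ?_⟩
      · rw [m2]
        change z + τ * (x 2 - z) = z - τ * (z - x 2)
        ring
      · rw [m0]
        exact k0
      · rw [m1]
        exact k1
    refine ⟨c₂ * c₁, (hc₂.mono ?_).mul (hc₁.mono subset_union_left), fun x hx => ?_,
      fun x hx => ?_⟩
    · intro x hx
      have x0 := hx 0
      have x1 := hx 1
      have x2 := hx 2
      change ctr p q 0 - θ < x 0 ∧ x 0 < ctr p q 0 + θ at x0
      change ctr p q 1 - θ < x 1 ∧ x 1 < ctr p q 1 + θ at x1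
      change a 2 < x 2 ∧ x 2 < zt at x2
      by_cases hxs : zs < x 2
      · right
        refine ⟨?_, ?_, hxs, x2.2⟩
        · rw [abs_lt]
          constructor <;> linarith [x0.1, x0.2]
        · rw [abs_lt]
          constructor <;> linarith [x1.1, x1.2]
      · left
        push Not at hxs
        intro i
        fin_cases i
        · change a 0 < x 0 ∧ x 0 < b 0
          rw [hc0] at x0
          constructor <;> linarith [x0.1, x0.2, l0.2.1, l0.2.2.2.1]
        · change a 1 < x 1 ∧ x 1 < b 1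
          rw [hc1] at x1
          constructor <;> linarith [x1.1, x1.2, l1.2.1, l1.2.2.2.1]
        · change a 2 < x 2 ∧ x 2 < b 2
          exact ⟨x2.1, lt_of_le_of_lt hxs hzs2⟩
    · have hxm : x ∈ Icc a' b' :=
        ⟨fun i => (hap i).le.trans (hx.1 i), fun i => (hx.2 i).trans (hqb i).le⟩
      have hx2 := hx.2 2
      have hx1 := hx.1 2
      have hxz : x 2 ≤ z := by linarith [l2.2.2.2.1, l2.2.2.2.2]
      change z - τ * (z - ρ) < (c₂ (c₁ x)) 2
      rw [(key2 x hxm hxz).1]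
      have h1 : τ * (z - x 2) < τ * (z - ρ) := mul_lt_mul_of_pos_left (by linarith) hτ0
      linarith
    · have x1a := hx.1 0
      have x1b := hx.1 1
      have x1c := hx.1 2
      have x2a := hx.2 0
      have x2b := hx.2 1
      have x2c := hx.2 2
      change p 0 ≤ x 0 at x1a
      change p 1 ≤ x 1 at x1b
      change r₁ ≤ x 2 at x1c
      change x 0 ≤ q 0 at x2a
      change x 1 ≤ q 1 at x2b
      change x 2 ≤ r₂ at x2c
      have hxm : x ∈ Icc a' b' := by
        refine ⟨fun i => ?_, fun i => ?_⟩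
        · fin_cases i
          · exact (hap 0).le.trans x1a
          · exact (hap 1).le.trans x1b
          · change a' 2 ≤ x 2
            rw [ha2]
            linarith
        · fin_cases i
          · exact x2a.trans (hqb 0).le
          · exact x2b.trans (hqb 1).le
          · change x 2 ≤ b' 2
            linarith [hqb 2, l2.2.2.1]
      have hxz : x 2 ≤ z := by linarith [l2.2.2.1, l2.2.2.2.1, l2.2.2.2.2]
      obtain ⟨k2, k0, k1⟩ := key2 x hxm hxz
      change κ + e < (c₂ (c₁ x)) 2 ∧ (c₂ (c₁ x)) 2 < z - τ * (z - ρ) ∧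
        |(c₂ (c₁ x)) 0 - ctr p q 0| < θ / 2 ∧ |(c₂ (c₁ x)) 1 - ctr p q 1| < θ / 2
      rw [k2]
      have h1 : τ * (z - x 2) ≤ τ * (z - r₁) :=
        mul_le_mul_of_nonneg_left (by linarith) hτ0.le
      have h2 : τ * (z - ρ) < τ * (z - x 2) := mul_lt_mul_of_pos_left (by linarith) hτ0
      refine ⟨by linarith, by linarith, by linarith, by linarith⟩

end Pool.Agent.QM59
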