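import Mathlib
import Pool.Agent.Lib.MP_decea1_gt_B.B3
import Pool.Agent.Lib.MP_decea1_gt_B.Eat1

/-!
# MP_decea1_gt (S14098), block B3 (c): eating a box.
-/

set_option autoImplicit false

open MeasureTheory Set

namespace Pool.Agent.QM59

variable {K : Set E3} {A B a b p q : E3} {κ zs zt : ℝ}

/-- B3, from `B3eat` -/
theorem B3 (h : EatData K A B a b p q κ zs zt) :
    ∃ θ₀ : ℝ, 0 < θ₀ ∧ ∀ θ : ℝ, 0 < θ → θ < θ₀ → ∃ m : Equiv.Perm E3,
      InIso (Box a b ∪ BTubeO (ctr p q) θ zs zt) m ∧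
      (∀ z ∈ K, jac (fun y => m⁻¹ y) z = 1) ∧ ∀ x ∈ Icc p q, κ < (m x) 2 := by
  have hAB : A ≤ B := fun i => by
    have := h.lt i
    linarith [this.1, this.2.1, this.2.2.1, this.2.2.2.1, this.2.2.2.2]
  have hA : A ∈ Cube := h.icc ⟨le_rfl, hAB⟩
  have hB : B ∈ Cube := h.icc ⟨hAB, le_rfl⟩
  obtain ⟨θ₀, h1, h2⟩ := B3eat h.topK A B a b p q
    (fun i => ⟨(hA i).1, (h.lt i).1, (h.lt i).2.1, (h.lt i).2.2.1, (h.lt i).2.2.2.1,
      (h.lt i).2.2.2.2, (hB i).2⟩) h.dis h.topB zs zt h.zs1 h.zs2 h.zt1 h.zt2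
  refine ⟨θ₀, h1, fun θ hθ hθ0 => ?_⟩
  obtain ⟨-, m, hm, hm1, hm2, -, -⟩ := h2 θ hθ hθ0
  exact ⟨m, hm, hm1, hm2⟩

/-- `V` is contained in the cube -/
theorem B3cube (h : EatData K A B a b p q κ zs zt) {θ : ℝ} (hθ : ∀ i, θ < (q i - p i) / 2) :
    Box a b ∪ BTubeO (ctr p q) θ zs zt ⊆ Cube := by
  refine union_subset ?_ ?_
  · intro x hx
    apply h.icc
    constructor
    · intro i
      have h7 := h.lt i
      have h8 := hx i
      linarith [h7.1, h8.1]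
    · intro i
      have h7 := h.lt i
      have h8 := hx i
      linarith [h7.2.2.2.2, h8.2]
  · refine BTubeO_subset_Cube ?_ (fun i => (h.lt i).2.2.1) hθ h.zs1 h.zt2
    refine (Icc_subset_Icc ?_ ?_).trans h.icc
    · intro i
      exact ((h.lt i).1.trans (h.lt i).2.1).le
    · intro i
      exact ((h.lt i).2.2.2.1.trans (h.lt i).2.2.2.2).le

/-- `m⁻¹ = id` off `V`, and `K ∩ V` is contained in the tube -/
theorem B3N (h : EatData K A B a b p q κ zs zt) {θ : ℝ} {m : Equiv.Perm E3}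
    (hm : InIso (Box a b ∪ BTubeO (ctr p q) θ zs zt) m) :
    ∀ z ∈ K, z ∉ BTubeO (ctr p q) θ zs zt → m⁻¹ z = z := by
  intro z hz hzN
  apply hm.inv.idOff
  rintro (h6 | h6)
  · refine Set.disjoint_left.1 h.dis hz ?_
    intro i
    have h7 := h.lt i
    have h8 := h6 i
    constructor <;> linarith [h7.1, h7.2.2.2.2, h8.1, h8.2]
  · exact hzN h6

/-- `m⁻¹ (K ∩ N) ⊆ (Box a b \ Icc p q) ∪ N` -/
theorem B3W (h : EatData K A B a b p q κ zs zt) {θ : ℝ} {m : Equiv.Perm E3}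
    (hm : InIso (Box a b ∪ BTubeO (ctr p q) θ zs zt) m) (hP : ∀ x ∈ Icc p q, κ < (m x) 2) :
    ∀ z : E3, m z ∈ K ∩ BTubeO (ctr p q) θ zs zt →
      z ∈ (Box a b \ Icc p q) ∪ BTubeO (ctr p q) θ zs zt := by
  rintro z ⟨hzK, hzN⟩
  by_cases hzV : z ∈ Box a b ∪ BTubeO (ctr p q) θ zs zt
  · rcases hzV with h6 | h6
    · left
      refine ⟨h6, fun h7 => ?_⟩
      have h8 := hP z h7
      have h9 := h.topK _ hzK
      linarith
    · exact Or.inr h6
  · right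
    rw [hm.idOff z hzV] at hzN
    exact hzN

end Pool.Agent.QM59
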