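import Mathlib
import Pool.Agent.Lib.MP_decea1_gt_A.Meas
import Pool.Agent.Lib.MP_decea1_gt_B.Bump
import Pool.Agent.Lib.MP_decea1_gt_B.Eat1

/-!
# MP_decea1_gt (S14098), block B3 (b): the density in the tube.
-/

set_option autoImplicit false

open MeasureTheory Set

namespace Pool.Agent.QM59

variable {K : Set E3} {A B a b p q : E3} {κ zs zt : ℝ}

private theorem Eat2_zeta {z0 z1 k0 k1 : ℝ} (h0 : z0 < z1) (h1 : k0 < k1) :
    ∃ ζ : ℝ → ℝ, ContDiff ℝ smo ζ ∧ (∀ t, 0 ≤ ζ t ∧ ζ t ≤ 1) ∧ (∀ t, t ≤ z0 → ζ t = 0) ∧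
      (∀ t, k1 ≤ t → ζ t = 0) ∧ ∀ t, z1 ≤ t → t ≤ k0 → ζ t = 1 := by
  obtain ⟨f, hf, hf1, hf2, hf3⟩ := exists_step
  have d0 : 0 < z1 - z0 := sub_pos.2 h0
  have d1 : 0 < k1 - k0 := sub_pos.2 h1
  refine ⟨fun t => f ((t - z0) / (z1 - z0)) * f ((k1 - t) / (k1 - k0)), ?_, ?_, ?_, ?_, ?_⟩
  · refine (hf.comp ?_).mul (hf.comp ?_)
    · exact (contDiff_id.sub contDiff_const).div_const _
    · exact (contDiff_const.sub contDiff_id).div_const _
  · intro t
    refine ⟨mul_nonneg (hf1 _).1 (hf1 _).1, ?_⟩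
    calc f ((t - z0) / (z1 - z0)) * f ((k1 - t) / (k1 - k0)) ≤ 1 * 1 :=
          mul_le_mul (hf1 _).2 (hf1 _).2 (hf1 _).1 zero_le_one
      _ = 1 := one_mul 1
  · intro t ht
    have h2 : (t - z0) / (z1 - z0) ≤ 0 :=
      div_nonpos_of_nonpos_of_nonneg (sub_nonpos.2 ht) d0.le
    simp only [hf2 _ h2, zero_mul]
  · intro t ht
    have h2 : (k1 - t) / (k1 - k0) ≤ 0 :=
      div_nonpos_of_nonpos_of_nonneg (sub_nonpos.2 ht) d1.le
    simp only [hf2 _ h2, mul_zero]
  · intro t ht ht'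
    have h2 : 1 ≤ (t - z0) / (z1 - z0) := by
      rw [le_div_iff₀ d0]
      linarith
    have h3 : 1 ≤ (k1 - t) / (k1 - k0) := by
      rw [le_div_iff₀ d1]
      linarith
    simp only [hf3 _ h2, hf3 _ h3, mul_one]

private theorem Eat2_int {f : E3 → ℝ} (hf : Continuous f) {L : Set E3} (hL : IsCompact L)
    (h : ∀ x, x ∉ L → f x = 0) : Integrable f volume :=
  hf.integrable_of_hasCompactSupport (HasCompactSupport.intro hL h)

/-- B3, the density. Write `J = jac c⁻¹`, `M = BTubeO (ctr p q) θ zb zm`.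

Proof. `c⁻¹` is the identity off a compact subset `Kc` of `V = Box a b ∪ BTubeO (ctr p q) θ zs zt`, so
`J = 1` off `Kc` (`IdOff.jac_eq_one`), and `V ∩ {zb ≤ x 2} ⊆ BTubeO (ctr p q) θ zs zt` because
`b 2 < zb`. Let `ζ : ℝ → ℝ` be smooth with values in `[0, 1]`, `ζ = 1` on `[B 2, κ]` and
`ζ = 0` off a compact subset of `(zb, κ')`; `ω` a smooth function with values in `[0, 1]`, `ω = 1`
on the compact set `c '' R ⊆ M`, zero off a compact subset of `M` (`exists_bump`); `β ≥ 0` smooth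
with integral 1, zero off a compact subset of the nonempty open set `M ∩ {κ' < x 2}`
(`exists_unit_bump`). Put
`e = ∫ ((1 - ζ (x 2)) * J x * ω x / 2 - ζ (x 2) * (1 - J x))` and
`J' = ζ + (1 - ζ) * J * (1 - ω / 2) + e * β = J + ζ * (1 - J) - (1 - ζ) * J * ω / 2 + e * β`.
`e > 0`: `J > 0`; on `c '' R` one has `ζ = 0`, `ω = 1`, and `∫_{c '' R} J = volume R`
(`integral_image` for `c⁻¹`), so the first integral is at least `volume R / 2`; the function
`ζ (1 - J)` is zero off the tube `BTubeO (ctr p q) θ zs zt` and at most 1, so its integral is at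
most `4 θ²` (`volume_BTube_le`). Hence `J' > 0` and `J'` is smooth, `∫ (J' - J) = 0`, and
`J' - J` vanishes off a compact subset of `M` (for the term `ζ (1 - J)`: `Kc ∩ {x 2 ∈ supp ζ}`).
If `B 2 ≤ x 2 ≤ κ`, then `ζ = 1`, `β = 0` and `J' x = 1`. -/
theorem Eat2 (h : EatData K A B a b p q κ zs zt) {R : Set E3} (hR : IsCompact R)
    {κ' zm zb : ℝ} (h1 : κ < κ') (h2 : κ' < zm) (h3 : zm < zt) (h4 : b 2 < zb) (h5 : zb < B 2)
    {θ : ℝ} (hθ : 0 < θ) (hθ1 : ∀ i, θ < (q i - p i) / 2) (hθ2 : 8 * θ ^ 2 < volume.real R)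
    {c : Equiv.Perm E3} (hc : InIso (Box a b ∪ BTubeO (ctr p q) θ zs zt) c)
    (hcR : ∀ x ∈ R, κ' < (c x) 2 ∧ (c x) 2 < zm ∧ |(c x) 0 - ctr p q 0| < θ / 2 ∧
      |(c x) 1 - ctr p q 1| < θ / 2) :
    ∃ J' : E3 → ℝ, ContDiff ℝ smo J' ∧ (∀ x, 0 < J' x) ∧
      (∃ K' : Set E3, IsCompact K' ∧ K' ⊆ BTubeO (ctr p q) θ zb zm ∧
        ∀ x, x ∉ K' → J' x = jac (fun y => c⁻¹ y) x) ∧
      ∫ x, (jac (fun y => c⁻¹ y) x - J' x) = 0 ∧
      ∀ x : E3, B 2 ≤ x 2 → x 2 ≤ κ → J' x = 1 := by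
  obtain ⟨Kc, hKcV, hKc, hKcI⟩ := hc.inv.supp
  have hdif : IsDif c⁻¹ := hc.inv.isDif
  set J : E3 → ℝ := jac (fun y => c⁻¹ y) with hJdef
  have hJs : ContDiff ℝ smo J := contDiff_jac _ hdif.1
  have hJc : Continuous J := hJs.continuous
  have hJp : ∀ x, 0 < J x := fun x => hc.inv.jac_pos x
  have hJ1 : ∀ x, x ∉ Kc → J x = 1 := fun x hx => hKcI.jac_eq_one hKc.isClosed x hx
  have hκ : B 2 < κ := h.topB
  -- the bump functions
  obtain ⟨ζ, hζs, hζ01, hζ0, hζ0', hζ1⟩ := Eat2_zeta (z0 := (zb + B 2) / 2) (z1 := B 2)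
    (k0 := κ) (k1 := (κ + κ') / 2) (by linarith) (by linarith)
  have hproj : ContDiff ℝ smo (fun x : E3 => x 2) := contDiff_apply ℝ ℝ 2
  have hζx : ContDiff ℝ smo (fun x : E3 => ζ (x 2)) := hζs.comp hproj
  have hMo : IsOpen (BTubeO (ctr p q) θ zb zm) := isOpen_BTubeO _ _ _ _
  have hcc : Continuous (fun x => c x) := hc.isDif.1.continuous
  have hcR1 : IsCompact ((fun x => c x) '' R) := hR.image hcc
  have hcR2 : (fun x => c x) '' R ⊆ BTubeO (ctr p q) θ zb zm := by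
    rintro _ ⟨x, hx, rfl⟩
    obtain ⟨e1, e2, e3, e4⟩ := hcR x hx
    refine ⟨?_, ?_, ?_, e2⟩
    · exact lt_of_lt_of_le e3 (by linarith)
    · exact lt_of_lt_of_le e4 (by linarith)
    · show zb < (c x) 2
      linarith
  obtain ⟨ω, hωs, hω01, ⟨W, hWo, hRW, hW1⟩, Kω, hKω, hKωM, hω0⟩ :=
    exists_bump _ _ hMo hcR1 hcR2
  have hUo : IsOpen (BTubeO (ctr p q) θ zb zm ∩ {x : E3 | κ' < x 2}) :=
    hMo.inter (isOpen_lt continuous_const (continuous_apply 2))
  have hUne : (BTubeO (ctr p q) θ zb zm ∩ {x : E3 | κ' < x 2}).Nonempty := by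
    refine ⟨![ctr p q 0, ctr p q 1, (κ' + zm) / 2], ⟨?_, ?_, ?_, ?_⟩, ?_⟩
    · simpa using hθ
    · simpa using hθ
    · show zb < (κ' + zm) / 2
      linarith
    · show (κ' + zm) / 2 < zm
      linarith
    · show κ' < (κ' + zm) / 2
      linarith
  obtain ⟨β, hβs, hβ0, hβi, Kβ, hKβ, hKβU, hβz⟩ := exists_unit_bump hUo hUne
  -- the three functions
  have hKc2 : IsCompact (Kc ∩ {x : E3 | (zb + B 2) / 2 ≤ x 2 ∧ x 2 ≤ (κ + κ') / 2}) := by
    refine hKc.inter_right ?_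
    exact (isClosed_le continuous_const (continuous_apply 2)).inter
      (isClosed_le (continuous_apply 2) continuous_const)
  have hg1c : Continuous (fun x : E3 => ζ (x 2) * (1 - J x)) :=
    hζx.continuous.mul (continuous_const.sub hJc)
  have hg1z : ∀ x : E3, x ∉ Kc ∩ {x : E3 | (zb + B 2) / 2 ≤ x 2 ∧ x 2 ≤ (κ + κ') / 2} →
      ζ (x 2) * (1 - J x) = 0 := by
    intro x hx
    by_cases h6 : x ∈ Kc
    · have h7 : ζ (x 2) = 0 := by
        by_contra h8
        refine hx ⟨h6, ?_, ?_⟩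
        · by_contra h9
          exact h8 (hζ0 _ (not_le.1 h9).le)
        · by_contra h9
          exact h8 (hζ0' _ (not_le.1 h9).le)
      rw [h7, zero_mul]
    · rw [hJ1 x h6, sub_self, mul_zero]
  have hg1i : Integrable (fun x : E3 => ζ (x 2) * (1 - J x)) volume := Eat2_int hg1c hKc2 hg1z
  have hg2c : Continuous (fun x : E3 => (1 - ζ (x 2)) * J x * ω x / 2) :=
    (((continuous_const.sub hζx.continuous).mul hJc).mul hωs.continuous).div_const 2
  have hg2i : Integrable (fun x : E3 => (1 - ζ (x 2)) * J x * ω x / 2) volume :=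
    Eat2_int hg2c hKω fun x hx => by rw [hω0 x hx, mul_zero, zero_div]
  have hβint : Integrable β volume := Eat2_int hβs.continuous hKβ hβz
  have hg2n : ∀ x : E3, 0 ≤ (1 - ζ (x 2)) * J x * ω x / 2 := fun x =>
    div_nonneg (mul_nonneg (mul_nonneg (sub_nonneg.2 (hζ01 _).2) (hJp x).le) (hω01 x).1)
      zero_le_two
  -- the tube
  have hKcT : ∀ x ∈ Kc, zb < x 2 → x ∈ BTubeO (ctr p q) θ zs zt := by
    intro x hx hx2
    rcases hKcV hx with h6 | h6
    · exact absurd (h6 2).2 (by linarith)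
    · exact h6
  have hA0 : 0 < A 2 := by
    have h6 : A ∈ Icc A B := ⟨le_refl A, fun i => by
      have := h.lt i
      linarith [this.1, this.2.1, this.2.2.1, this.2.2.2.1, this.2.2.2.2]⟩
    exact ((h.icc h6) 2).1
  have hzs0 : 0 ≤ zs := by
    have h6 := h.lt 2
    have h7 := h.zs1
    linarith [h6.1, h6.2.1, h6.2.2.1]
  have hg1le : ∫ x : E3, ζ (x 2) * (1 - J x) ≤ 4 * θ ^ 2 := by
    have h6 : ∀ x : E3, ζ (x 2) * (1 - J x) ≤
        (BTube (ctr p q) θ zs zt).indicator (fun _ => (1 : ℝ)) x := by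
      intro x
      by_cases h7 : x ∈ BTube (ctr p q) θ zs zt
      · rw [indicator_of_mem h7]
        have h8 := (hζ01 (x 2)).1
        have h9 := (hζ01 (x 2)).2
        nlinarith [hJp x]
      · rw [indicator_of_notMem h7]
        refine le_of_eq (hg1z x fun h8 => h7 ?_)
        exact BTubeO_subset _ _ _ _ (hKcT x h8.1 (by linarith [h8.2.1]))
    have h7 : MeasurableSet (BTube (ctr p q) θ zs zt) :=
      (isCompact_BTube _ _ _ _).measurableSet
    have h8 := volume_BTube_le (ctr p q) hθ.le hzs0 h.zt2.le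
    have h9 : Integrable ((BTube (ctr p q) θ zs zt).indicator (fun _ => (1 : ℝ))) volume := by
      rw [integrable_indicator_iff h7]
      exact integrableOn_const (isCompact_BTube _ _ _ _).measure_lt_top.ne
    refine (integral_mono hg1i h9 h6).trans ?_
    rw [integral_indicator h7, setIntegral_const, smul_eq_mul, mul_one, Measure.real]
    exact ENNReal.toReal_le_of_le_ofReal (by positivity) h8
  have hg2le : volume.real R / 2 ≤ ∫ x : E3, (1 - ζ (x 2)) * J x * ω x / 2 := by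
    have hm : MeasurableSet ((fun x => c x) '' R) := hcR1.measurableSet
    have h6 : ∫ x in (fun x => c x) '' R, J x / 2 ≤
        ∫ x : E3, (1 - ζ (x 2)) * J x * ω x / 2 := by
      have h7 : ∫ x in (fun x => c x) '' R, J x / 2 =
          ∫ x in (fun x => c x) '' R, (1 - ζ (x 2)) * J x * ω x / 2 := by
        refine setIntegral_congr_fun hm ?_
        rintro x hx
        obtain ⟨y, hy, rfl⟩ := hx
        have h8 : ζ ((c y) 2) = 0 := hζ0' _ (by linarith [(hcR y hy).1])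
        have h9 : ω (c y) = 1 := hW1 _ (hRW ⟨y, hy, rfl⟩)
        simp only [h8, h9, sub_zero, one_mul, mul_one]
      rw [h7]
      exact setIntegral_le_integral hg2i (Filter.Eventually.of_forall hg2n)
    refine le_trans (le_of_eq ?_) h6
    rw [integral_div]
    congr 1
    have h7 := integral_image hdif hJp ((fun x => c x) '' R) hm (fun _ => 1)
    have h8 : (c⁻¹ : Equiv.Perm E3) '' ((fun x => c x) '' R) = R := by
      ext x
      constructor
      · rintro ⟨_, ⟨y, hy, rfl⟩, rfl⟩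
        simpa using hy
      · intro hx
        exact ⟨c x, ⟨x, hx, rfl⟩, by simp⟩
    rw [h8] at h7
    simp only [mul_one, setIntegral_const, smul_eq_mul] at h7
    exact h7
  -- the constant
  set e : ℝ := (∫ x : E3, (1 - ζ (x 2)) * J x * ω x / 2) - ∫ x : E3, ζ (x 2) * (1 - J x)
    with hedef
  have he : 0 < e := by
    rw [hedef]
    linarith
  refine ⟨fun x => J x + ζ (x 2) * (1 - J x) - (1 - ζ (x 2)) * J x * ω x / 2 + e * β x,
    ?_, ?_, ?_, ?_, ?_⟩
  · exact ((hJs.add (hζx.mul (contDiff_const.sub hJs))).sub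
      ((((contDiff_const.sub hζx).mul hJs).mul hωs).div_const 2)).add (contDiff_const.mul hβs)
  · intro x
    have e1 : J x + ζ (x 2) * (1 - J x) - (1 - ζ (x 2)) * J x * ω x / 2 + e * β x =
        ζ (x 2) + (1 - ζ (x 2)) * (J x * (1 - ω x / 2)) + e * β x := by ring
    show 0 < J x + ζ (x 2) * (1 - J x) - (1 - ζ (x 2)) * J x * ω x / 2 + e * β x
    rw [e1]
    have e2 : 0 ≤ e * β x := mul_nonneg he.le (hβ0 x)
    have e3 : 0 < J x * (1 - ω x / 2) :=
      mul_pos (hJp x) (by linarith [(hω01 x).2])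
    have e4 : 0 ≤ (1 - ζ (x 2)) * (J x * (1 - ω x / 2)) :=
      mul_nonneg (sub_nonneg.2 (hζ01 _).2) e3.le
    rcases (hζ01 (x 2)).1.eq_or_lt with h6 | h6
    · rw [← h6, sub_zero, one_mul, zero_add]
      exact add_pos_of_pos_of_nonneg e3 e2
    · linarith
  · refine ⟨(Kc ∩ {x : E3 | (zb + B 2) / 2 ≤ x 2 ∧ x 2 ≤ (κ + κ') / 2}) ∪ Kω ∪ Kβ,
      (hKc2.union hKω).union hKβ, ?_, ?_⟩
    · refine union_subset (union_subset ?_ hKωM) (hKβU.trans inter_subset_left)
      rintro x ⟨hx, hx1, hx2⟩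
      have h6 := hKcT x hx (by linarith)
      exact ⟨h6.1, h6.2.1, by linarith, by linarith⟩
    · intro x hx
      simp only [mem_union, not_or] at hx
      show J x + ζ (x 2) * (1 - J x) - (1 - ζ (x 2)) * J x * ω x / 2 + e * β x = J x
      rw [hg1z x hx.1.1, hω0 x hx.1.2, hβz x hx.2]
      ring
  · have e1 : (fun x : E3 => J x - (J x + ζ (x 2) * (1 - J x) - (1 - ζ (x 2)) * J x * ω x / 2 +
        e * β x)) = fun x : E3 => (1 - ζ (x 2)) * J x * ω x / 2 - ζ (x 2) * (1 - J x) -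
        e * β x := by
      funext x
      ring
    have e2 : Integrable (fun x : E3 => (1 - ζ (x 2)) * J x * ω x / 2 - ζ (x 2) * (1 - J x))
        volume := hg2i.sub hg1i
    rw [e1, integral_sub e2 (hβint.const_mul e), integral_sub hg2i hg1i,
      integral_const_mul, hβi, mul_one, hedef, sub_self]
  · intro x hx1 hx2
    have h6 : ζ (x 2) = 1 := hζ1 _ hx1 hx2
    have h7 : β x = 0 := hβz x fun h8 => by
      have h9 : κ' < x 2 := (hKβU h8).2
      linarith
    show J x + ζ (x 2) * (1 - J x) - (1 - ζ (x 2)) * J x * ω x / 2 + e * β x = 1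
    rw [h6, h7]
    ring

end Pool.Agent.QM59
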