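import Mathlib
import Pool.Agent.Lib.MP_decea1_gt_A.Iso1
import Pool.Agent.Lib.MP_decea1_gt_B.Clamp

/-!
# MP_decea1_gt (S14098), block B4.0: the outer component and the filled set.
-/

set_option autoImplicit false

open MeasureTheory Set

namespace Pool.Agent.QM59

/-- the base point outside the closed unit cube -/
def poo : E3 := fun _ => 2

/-- the connected component of `poo` in the complement of `A` -/
def BRoot (A : Set E3) : Set E3 := connectedComponentIn Aᶜ poo

/-- `A` together with all other components of the complement -/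
def BFill (A : Set E3) : Set E3 := (BRoot A)ᶜ

theorem poo_notMem {A : Set E3} (hA : A ⊆ Cube) : poo ∉ A := by
  intro h
  have h1 := (hA h 0).2
  simp only [poo, Pi.one_apply] at h1
  linarith

/-- `IsOpen.connectedComponentIn` -/
theorem isOpen_BRoot {A : Set E3} (hA : IsClosed A) : IsOpen (BRoot A) :=
  hA.isOpen_compl.connectedComponentIn

theorem BRoot_subset (A : Set E3) : BRoot A ⊆ Aᶜ := connectedComponentIn_subset _ _

theorem subset_BFill (A : Set E3) : A ⊆ BFill A :=
  subset_compl_comm.1 (BRoot_subset A)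

theorem isConnected_BRoot {A : Set E3} (hA : A ⊆ Cube) : IsConnected (BRoot A) :=
  isConnected_connectedComponentIn_iff.2 (poo_notMem hA)

theorem BRoot_anti {A B : Set E3} (h : A ⊆ B) : BRoot B ⊆ BRoot A :=
  connectedComponentIn_mono _ (compl_subset_compl.2 h)

theorem BFill_mono {A B : Set E3} (h : A ⊆ B) : BFill A ⊆ BFill B :=
  compl_subset_compl.2 (BRoot_anti h)

/-- a preconnected set which misses `A` and meets the outer component lies in it -/
theorem subset_BRoot {A S : Set E3} (hS : IsPreconnected S) (hSA : S ⊆ Aᶜ)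
    (h : (S ∩ BRoot A).Nonempty) : S ⊆ BRoot A := by
  obtain ⟨y, hy, hyA⟩ := h
  have h1 : BRoot A = connectedComponentIn Aᶜ y := connectedComponentIn_eq hyA
  rw [h1]
  exact hS.subset_connectedComponentIn hy hSA

private theorem poo_mem {A : Set E3} (h : poo ∉ A) : poo ∈ BRoot A :=
  mem_connectedComponentIn h

/-- The complement of a closed box is connected: it is the union of the six half spaces
`{x i < a i}`, `{b i < x i}` (convex, nonempty); two of them with different `i` meet, and the two
with the same `i` both meet a third one. -/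
theorem isConnected_compl_Icc (a b : E3) : IsConnected (Icc a b)ᶜ := by
  have hlo : ∀ i : Fin 3, IsPreconnected {x : E3 | x i < a i} := fun i =>
    (convex_halfSpace_lt (LinearMap.proj i : E3 →ₗ[ℝ] ℝ).isLinear (a i)).isPreconnected
  have hup : ∀ i : Fin 3, IsPreconnected {x : E3 | b i < x i} := fun i =>
    (convex_halfSpace_gt (LinearMap.proj i : E3 →ₗ[ℝ] ℝ).isLinear (b i)).isPreconnected
  have hlo' : ∀ i : Fin 3, {x : E3 | x i < a i} ⊆ (Icc a b)ᶜ := fun i x hx hx' =>
    absurd (hx'.1 i) (not_le.2 hx)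
  have hup' : ∀ i : Fin 3, {x : E3 | b i < x i} ⊆ (Icc a b)ᶜ := fun i x hx hx' =>
    absurd (hx'.2 i) (not_le.2 hx)
  have hp : ∀ i : Fin 3, (fun j => b j + 1 : E3) ∈ {x : E3 | b i < x i} := fun i =>
    lt_add_one (b i)
  refine ⟨⟨fun j => b j + 1, hup' 0 (hp 0)⟩,
    isPreconnected_of_forall (fun j => b j + 1) fun y hy => ?_⟩
  have hy' : (∃ i, y i < a i) ∨ ∃ i, b i < y i := by
    by_contra hcon
    push Not at hcon
    exact hy ⟨fun i => hcon.1 i, fun i => hcon.2 i⟩
  rcases hy' with ⟨i, hi⟩ | ⟨i, hi⟩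
  · obtain ⟨j, hj⟩ := exists_ne i
    refine ⟨{x : E3 | x i < a i} ∪ {x : E3 | b j < x j},
      union_subset (hlo' i) (hup' j), Or.inr (hp j), Or.inl hi, ?_⟩
    refine (hlo i).union' ⟨Function.update (fun j => b j + 1) i (a i - 1), ?_, ?_⟩ (hup j)
    · show Function.update (fun j => b j + 1 : E3) i (a i - 1) i < a i
      rw [Function.update_self]
      exact sub_one_lt (a i)
    · show b j < Function.update (fun j => b j + 1 : E3) i (a i - 1) j
      rw [Function.update_of_ne hj]
      exact lt_add_one (b j)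
  · exact ⟨{x : E3 | b i < x i}, hup' i, hp i, hi, hup i⟩

/-- `subset_BRoot` for the connected set `(Icc a b)ᶜ`, which contains `poo`. -/
theorem BFill_subset_Icc {A : Set E3} {a b : E3} (hA : A ⊆ Icc a b) (hp : poo ∉ Icc a b) :
    BFill A ⊆ Icc a b := by
  refine compl_subset_comm.1 (subset_BRoot (isConnected_compl_Icc a b).isPreconnected
    (compl_subset_compl.2 hA) ⟨poo, hp, poo_mem fun h => hp (hA h)⟩)

/-- by `exists_margin_Cube` the set `A` lies in a closed box inside the cube -/
theorem BFill_subset_Cube {A : Set E3} (hA : IsCompact A) (hAC : A ⊆ Cube) :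
    BFill A ⊆ Cube := by
  obtain ⟨e, he, he2, hm⟩ := exists_margin_Cube hA hAC
  have h1 : A ⊆ Icc (fun _ => e : E3) (fun _ => 1 - e) := fun x hx =>
    ⟨fun i => (hm x hx i).1.le, fun i => (hm x hx i).2.le⟩
  have h2 : poo ∉ Icc (fun _ => e : E3) (fun _ => 1 - e) := fun h => by
    have h3 := h.2 0
    simp only [poo] at h3
    linarith
  refine (BFill_subset_Icc h1 h2).trans fun x hx => ?_
  rw [mem_Cube]
  intro i
  have h3 := hx.1 i
  have h4 := hx.2 i
  simp only at h3 h4
  constructor <;> linarith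

theorem isCompact_BFill {A : Set E3} (hA : IsCompact A) (hAC : A ⊆ Cube) :
    IsCompact (BFill A) := by
  have h1 : BFill A ⊆ Icc (0 : E3) 1 := (BFill_subset_Cube hA hAC).trans fun x hx =>
    ⟨fun i => (hx i).1.le, fun i => (hx i).2.le⟩
  exact isCompact_Icc.of_isClosed_subset (isOpen_BRoot hA.isClosed).isClosed_compl h1

theorem isConnected_compl_BFill {A : Set E3} (hAC : A ⊆ Cube) : IsConnected (BFill A)ᶜ := by
  rw [BFill, compl_compl]
  exact isConnected_BRoot hAC

theorem BFill_eq {A : Set E3} (hAC : A ⊆ Cube) (hc : IsConnected Aᶜ) : BFill A = A := by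
  have h1 : BRoot A = Aᶜ := (BRoot_subset A).antisymm
    (subset_BRoot hc.isPreconnected Subset.rfl ⟨poo, poo_notMem hAC, poo_mem (poo_notMem hAC)⟩)
  rw [BFill, h1, compl_compl]

/-- The half space `{κ ≤ x 2}` is convex, contains `poo` and misses `A`. -/
theorem above_subset_BRoot {A : Set E3} {κ : ℝ} (hκ : κ ≤ 2) (h : ∀ x ∈ A, x 2 < κ) :
    {x : E3 | κ ≤ x 2} ⊆ BRoot A := by
  have h1 : {x : E3 | κ ≤ x 2} ⊆ Aᶜ := fun x hx hxA => absurd (h x hxA) (not_lt.2 hx)
  have h2 : poo ∈ {x : E3 | κ ≤ x 2} := hκ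
  exact subset_BRoot
    (convex_halfSpace_ge (LinearMap.proj 2 : E3 →ₗ[ℝ] ℝ).isLinear κ).isPreconnected h1
    ⟨poo, h2, poo_mem (h1 h2)⟩

/-- A homeomorphism which fixes `poo` maps the outer component of `A` to the outer component of the
image. -/
theorem BRoot_preimage {m : Equiv.Perm E3} (hm : InIso Cube m) (A : Set E3) :
    BRoot (m ⁻¹' A) = m ⁻¹' BRoot A := by
  obtain ⟨g, hg, -⟩ := hm.isDif.exists_homeo
  have hgm : (g : E3 → E3) = m := funext hg
  have hpoo : g poo = poo := by
    rw [hg]
    exact hm.idOff poo (poo_notMem Subset.rfl)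
  rw [← hgm]
  by_cases hp : poo ∈ A
  · have h1 : BRoot A = ∅ := connectedComponentIn_eq_empty fun h => h hp
    have h2 : BRoot (g ⁻¹' A) = ∅ := connectedComponentIn_eq_empty fun h => h (by
      show g poo ∈ A
      rwa [hpoo])
    rw [h1, h2, preimage_empty]
  · have h3 := g.image_connectedComponentIn (s := (g ⁻¹' A)ᶜ) (x := poo) (by
      show g poo ∉ A
      rwa [hpoo])
    have h4 : g '' (g ⁻¹' A)ᶜ = Aᶜ := by
      rw [← preimage_compl, image_preimage_eq _ g.surjective]
    rw [h4, hpoo] at h3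
    have h5 : g '' BRoot (g ⁻¹' A) = BRoot A := h3
    rw [← h5, preimage_image_eq _ g.injective]

end Pool.Agent.QM59
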