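import Mathlib
import Pool.Agent.Lib.MP_decea1_gt_B.Tube

/-!
# MP_decea1_gt (S14098), block B7 (c): the grid cubes which miss a compact set.
-/

set_option autoImplicit false

open MeasureTheory Set

namespace Pool.Agent.QM59

/-- lower corner of a grid cube -/
private noncomputable def WGlo (r : ℕ) (v : Fin 3 → Fin r) : E3 := fun i => ((v i : ℕ) : ℝ) / r

/-- upper corner of a grid cube -/
private noncomputable def WGhi (r : ℕ) (v : Fin 3 → Fin r) : E3 :=
  fun i => (((v i : ℕ) : ℝ) + 1) / r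

private theorem WG_lt {r : ℕ} (hr : 0 < r) (v : Fin 3 → Fin r) (i : Fin 3) :
    WGlo r v i < WGhi r v i := by
  have h : (0 : ℝ) < r := by exact_mod_cast hr
  simp only [WGlo, WGhi]
  exact div_lt_div_of_pos_right (lt_add_one _) h

private theorem WG_sub {r : ℕ} (hr : 0 < r) (v : Fin 3 → Fin r) (i : Fin 3) :
    WGhi r v i - WGlo r v i = 1 / r := by
  have h : (r : ℝ) ≠ 0 := by exact_mod_cast hr.ne'
  simp only [WGlo, WGhi]
  field_simp
  ring

private theorem WG_vol {r : ℕ} (hr : 0 < r) (v : Fin 3 → Fin r) :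
    volume.real (Box (WGlo r v) (WGhi r v)) = (1 / r : ℝ) ^ 3 := by
  rw [Measure.real, volume_Box' fun i => (WG_lt hr v i).le, Finset.prod_congr rfl
    fun i _ => WG_sub hr v i, ENNReal.toReal_ofReal (by positivity)]
  simp

private theorem WG_volI {r : ℕ} (hr : 0 < r) (v : Fin 3 → Fin r) :
    volume (Icc (WGlo r v) (WGhi r v)) = ENNReal.ofReal ((1 / r : ℝ) ^ 3) := by
  rw [Real.volume_Icc_pi, ← ENNReal.ofReal_prod_of_nonneg
    fun i _ => sub_nonneg.mpr (WG_lt hr v i).le, Finset.prod_congr rfl fun i _ => WG_sub hr v i]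
  simp

/-- two different cubes, the second not higher than the first one -/
private theorem WG_dis {r : ℕ} (hr : 0 < r) {v w : Fin 3 → Fin r} (hne : v ≠ w) (h : w 2 ≤ v 2) :
    Disjoint (BUpCol (WGlo r v) (WGhi r v)) (Box (WGlo r w) (WGhi r w)) := by
  have hr' : (0 : ℝ) < r := by exact_mod_cast hr
  rw [Set.disjoint_left]
  rintro x ⟨h1, h2, h3, h4, h5⟩ hx
  have key : ∀ a b : ℕ, ((a : ℕ) : ℝ) / r < (((b : ℕ) : ℝ) + 1) / r → a ≤ b := by
    intro a b hab
    rw [div_lt_div_iff_of_pos_right hr'] at hab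
    have h' : a < b + 1 := by exact_mod_cast hab
    omega
  simp only [WGlo, WGhi] at h1 h2 h3 h4 h5
  have k0 := hx 0
  have k1 := hx 1
  have k2 := hx 2
  simp only [WGlo, WGhi] at k0 k1 k2
  have e0 : v 0 = w 0 := Fin.ext (le_antisymm (key _ _ (h1.trans k0.2)) (key _ _ (k0.1.trans h2)))
  have e1 : v 1 = w 1 := Fin.ext (le_antisymm (key _ _ (h3.trans k1.2)) (key _ _ (k1.1.trans h4)))
  have e2 : v 2 = w 2 := le_antisymm (Fin.le_def.mpr (key _ _ (h5.trans k2.2))) h
  refine hne (funext fun i => ?_)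
  fin_cases i
  exacts [e0, e1, e2]

/-- every point of the cube lies in a closed grid cube -/
private theorem WG_mem {r : ℕ} (hr : 0 < r) {x : E3} (hx : x ∈ Cube) :
    ∃ v : Fin 3 → Fin r, x ∈ Icc (WGlo r v) (WGhi r v) := by
  have hr' : (0 : ℝ) < r := by exact_mod_cast hr
  have hb : ∀ i, ⌊(r : ℝ) * x i⌋₊ < r := by
    intro i
    rw [Nat.floor_lt (mul_nonneg hr'.le (hx i).1.le)]
    calc (r : ℝ) * x i < r * 1 := mul_lt_mul_of_pos_left (hx i).2 hr'
      _ = r := mul_one _
  refine ⟨fun i => ⟨⌊(r : ℝ) * x i⌋₊, hb i⟩, fun i => ?_, fun i => ?_⟩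
  · simp only [WGlo]
    rw [div_le_iff₀ hr', mul_comm (x i)]
    exact Nat.floor_le (mul_nonneg hr'.le (hx i).1.le)
  · simp only [WGhi]
    rw [le_div_iff₀ hr', mul_comm (x i)]
    exact (Nat.lt_floor_add_one _).le

/-- The open grid cubes of mesh `1/r` whose closure lies in the cube and which miss `K`, ordered by
decreasing height.

Proof. Let `r ≥ 3`, cubes `Q v = Box (fun i => v i / r) (fun i => (v i + 1) / r)` for
`v : Fin 3 → Fin r`. Let `G` be the set of all `v` with `0 < v i`, `v i + 1 < r` for all `i` and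
`Disjoint K (Icc ..)`. The closed cubes with `v ∉ G` are contained in the closed
`1/r`-neighbourhood of `K ∪ Cubeᶜ` (sup norm; such a closed cube meets `K` or contains a point of
the boundary of the cube), intersected with `Icc 0 1`. As `r → ∞` the measure of
`cthickening (1/r) (K ∪ Cubeᶜ) ∩ Icc 0 1` tends to the measure of `(K ∪ Cubeᶜ) ∩ Icc 0 1`, which is
`volume K` (`tendsto_measure_cthickening_of_isClosed` or `tendsto_measure_iInter_atTop`), so for large
`r` it is `< η`; all closed cubes together have the measure 1 (they cover `Icc 0 1`), so the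
cubes of `G` have total measure `≥ 1 - η`. The volume of a cube is `1/r³ ≤ 1/2`.
The list: for instance `(G.toList.mergeSort (fun v v' => v' 2 ≤ v 2)).map ..` (`List.pairwise_mergeSort`
together with `List.Nodup`), or a list indexed by `k = r - 1, ..., 0`. If `v ≠ v'` and `v' 2 ≤ v 2`,
then `BUpCol` of `Q v` is disjoint from `Q v'`: a common point has `v i = v' i` for `i = 0, 1` and
`v 2 / r < x 2 < (v' 2 + 1) / r`, so `v 2 ≤ v' 2`, so `v = v'`. -/
theorem WGrid {K : Set E3} (hK : IsCompact K) (hKC : K ⊆ Cube) {η : ℝ} (hη : volume.real K < η) :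
    ∃ l : List (E3 × E3),
      (∀ b ∈ l, (∀ i, b.1 i < b.2 i) ∧ Icc b.1 b.2 ⊆ Cube ∧ volume.real (Box b.1 b.2) ≤ 1 / 2 ∧
        Disjoint K (Box b.1 b.2)) ∧
      l.Pairwise (fun b b' => Disjoint (BUpCol b.1 b.2) (Box b'.1 b'.2)) ∧
      1 - η ≤ (l.map fun b => volume.real (Box b.1 b.2)).sum := by
  classical
  rcases le_or_gt 1 η with h1 | h1
  · exact ⟨[], by simp, by simp, by simpa using h1⟩
  have hCo : IsOpen Cube := isOpen_Box 0 1
  -- a compact subset `L` of `Cube \ K`
  have hUo : IsOpen (Cube \ K) := hCo.sdiff hK.isClosed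
  have hKt : volume K ≠ ⊤ := hK.measure_lt_top.ne
  have hU : ENNReal.ofReal (1 - η) < volume (Cube \ K) := by
    rw [measure_sdiff hKC hK.measurableSet.nullMeasurableSet hKt, volume_Cube,
      ← ofReal_measureReal hKt, ← ENNReal.ofReal_one, ← ENNReal.ofReal_sub _ measureReal_nonneg]
    exact (ENNReal.ofReal_lt_ofReal_iff (by linarith)).mpr (by linarith)
  obtain ⟨L, hLU, hL, hLv⟩ := hUo.exists_lt_isCompact hU
  obtain ⟨δ, hδ, hLδ⟩ := hL.exists_cthickening_subset_open hUo hLU
  obtain ⟨r, hr⟩ := exists_nat_gt (max (1 / δ) 2)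
  have hr2 : (2 : ℝ) < r := (le_max_right _ _).trans_lt hr
  have hr0 : (0 : ℝ) < r := by linarith
  have hrn : 0 < r := by exact_mod_cast hr0
  have hrδ : 1 / (r : ℝ) ≤ δ := by
    rw [div_le_iff₀ hr0, ← div_le_iff₀' hδ]
    exact ((le_max_left _ _).trans_lt hr).le
  -- the good cubes
  set G : Finset (Fin 3 → Fin r) :=
    Finset.univ.filter fun v => Icc (WGlo r v) (WGhi r v) ⊆ Cube \ K with hG
  have hcov : L ⊆ ⋃ v ∈ G, Icc (WGlo r v) (WGhi r v) := by
    intro x hx
    obtain ⟨v, hv⟩ := WG_mem hrn (hLU hx).1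
    refine mem_iUnion₂.mpr ⟨v, ?_, hv⟩
    rw [hG, Finset.mem_filter]
    refine ⟨Finset.mem_univ _, fun y hy => hLδ ?_⟩
    refine Metric.mem_cthickening_of_dist_le y x δ L hx ?_
    rw [dist_pi_le_iff hδ.le]
    intro i
    rw [Real.dist_eq, abs_le]
    have e1 := WG_sub hrn v i
    have e2 := hv.1 i
    have e3 := hv.2 i
    have e4 := hy.1 i
    have e5 := hy.2 i
    constructor <;> linarith
  have hsum : 1 - η ≤ ∑ _v ∈ G, (1 / r : ℝ) ^ 3 := by
    have h2 : ENNReal.ofReal (1 - η) ≤ ENNReal.ofReal (∑ _v ∈ G, (1 / r : ℝ) ^ 3) := by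
      refine hLv.le.trans ((measure_mono hcov).trans ((measure_biUnion_finset_le _ _).trans ?_))
      rw [ENNReal.ofReal_sum_of_nonneg fun _ _ => by positivity]
      exact Finset.sum_le_sum fun v _ => (WG_volI hrn v).le
    exact (ENNReal.ofReal_le_ofReal_iff (Finset.sum_nonneg fun _ _ => by positivity)).mp h2
  -- the list
  set l0 : List (Fin 3 → Fin r) :=
    G.toList.mergeSort (fun v w => decide (w 2 ≤ v 2)) with hl0
  have hperm : l0.Perm G.toList := List.mergeSort_perm _ _
  have hsort : l0.Pairwise (fun v w => w 2 ≤ v 2) := by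
    have := List.pairwise_mergeSort (le := fun v w : Fin 3 → Fin r => decide (w 2 ≤ v 2))
      (fun a b c h1 h2 => by simp only [decide_eq_true_eq] at h1 h2 ⊢; exact h2.trans h1)
      (fun a b => by
        simp only [Bool.or_eq_true, decide_eq_true_eq]
        exact le_total _ _) G.toList
    exact this.imp fun h => by simpa using h
  have hnd : l0.Pairwise (fun v w => v ≠ w) := (hperm.nodup_iff.mpr G.nodup_toList)
  refine ⟨l0.map fun v => (WGlo r v, WGhi r v), ?_, ?_, ?_⟩
  · intro b hb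
    obtain ⟨v, hv, rfl⟩ := List.mem_map.mp hb
    have hvG : v ∈ G := Finset.mem_toList.mp (hperm.mem_iff.mp hv)
    have hvC : Icc (WGlo r v) (WGhi r v) ⊆ Cube \ K := by
      rw [hG, Finset.mem_filter] at hvG
      exact hvG.2
    refine ⟨WG_lt hrn v, fun x hx => (hvC hx).1, ?_, ?_⟩
    · simp only
      rw [WG_vol hrn v]
      have h3 : (1 / r : ℝ) ≤ 1 / 2 := one_div_le_one_div_of_le (by norm_num) hr2.le
      have h4 : (0 : ℝ) ≤ 1 / r := by positivity
      calc (1 / r : ℝ) ^ 3 ≤ (1 / 2) ^ 3 := pow_le_pow_left₀ h4 h3 3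
        _ ≤ 1 / 2 := by norm_num
    · rw [Set.disjoint_left]
      intro x hxK hxB
      exact (hvC ⟨fun i => (hxB i).1.le, fun i => (hxB i).2.le⟩).2 hxK
  · rw [List.pairwise_map]
    exact (hsort.and hnd).imp fun h => WG_dis hrn h.2 h.1
  · rw [List.map_map, (hperm.map _).sum_eq]
    refine hsum.trans (le_of_eq ?_)
    rw [← Finset.sum_map_toList]
    congr 1
    exact List.map_congr_left fun v _ => (WG_vol hrn v).symm

end Pool.Agent.QM59
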