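import Mathlib
import Pool.Agent.Lib.MP_decea1_gt_B.B5

/-!
# MP_decea1_gt (S14098), block B5: shells, in the form used in B6.
-/

set_option autoImplicit false

open MeasureTheory Set

namespace Pool.Agent.QM59

/-- B5 from `B5shell` -/
theorem B5 {L R Ch : Set E3} (hL : IsCompact L) (hLC : L ⊆ Cube) (hRo : IsOpen R)
    (hRc : IsConnected R) (hCo : IsOpen Ch) (hCc : IsConnected Ch) (hd : Disjoint R Ch)
    (hU : Cube \ L = R ∪ Ch) {K0 : Set E3} (hK0 : IsCompact K0) (hK0C : K0 ⊆ Cube)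
    (hCK : Ch ⊆ K0) {a b p q : E3} (h : ∀ i, a i < p i ∧ p i < q i ∧ q i < b i)
    (hab : Icc a b ⊆ Cube) (h1 : volume.real (Icc p q) < volume.real Ch)
    (h2 : volume.real Ch + volume.real L < volume.real (Box a b)) :
    ∃ g : Equiv.Perm E3, InIso Cube g ∧ Vol g ∧ g '' L ⊆ Box a b \ Icc p q := by
  have e : L ∪ Ch = (L ∪ K0) \ R := by
    ext x
    constructor
    · rintro (hx | hx)
      · refine ⟨Or.inl hx, fun hR => ?_⟩
        have : x ∈ Cube \ L := by rw [hU]; exact Or.inl hR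
        exact this.2 hx
      · exact ⟨Or.inr (hCK hx), fun hR => Set.disjoint_left.mp hd hR hx⟩
    · rintro ⟨hx | hx, hR⟩
      · exact Or.inl hx
      · by_cases hxL : x ∈ L
        · exact Or.inl hxL
        · have : x ∈ Cube \ L := ⟨hK0C hx, hxL⟩
          rw [hU] at this
          exact Or.inr (this.resolve_left hR)
  have hcpt : IsCompact (L ∪ Ch) := by
    rw [e]
    exact (hL.union hK0).diff hRo
  have hle : a ≤ b := fun i => by linarith [(h i).1, (h i).2.1, (h i).2.2]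
  have ha : a ∈ Cube := hab ⟨le_rfl, hle⟩
  have hb : b ∈ Cube := hab ⟨hle, le_rfl⟩
  have h0 : ∀ i, 0 < a i ∧ a i < p i ∧ p i < q i ∧ q i < b i ∧ b i < 1 := fun i => by
    have h3 := (ha i).1
    have h4 := (hb i).2
    simp only [Pi.zero_apply, Pi.one_apply] at h3 h4
    exact ⟨h3, (h i).1, (h i).2.1, (h i).2.2, h4⟩
  have hChf : volume Ch ≠ ⊤ :=
    ne_top_of_le_ne_top hK0.measure_lt_top.ne (measure_mono hCK)
  have hLf : volume L ≠ ⊤ := hL.measure_lt_top.ne
  have hIf : volume (Icc p q) ≠ ⊤ := isCompact_Icc.measure_lt_top.ne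
  have hBf : volume (Box a b) ≠ ⊤ := volume_Box_ne_top a b
  refine B5shell hL hLC hRo hRc hCo hCc hd hU hcpt a b p q h0 ?_ ?_
  · exact (ENNReal.toReal_lt_toReal hIf hChf).mp h1
  · refine (ENNReal.toReal_lt_toReal (ENNReal.add_ne_top.mpr ⟨hChf, hLf⟩) hBf).mp ?_
    rw [ENNReal.toReal_add hChf hLf]
    exact h2

end Pool.Agent.QM59
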