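import Mathlib
import Pool.Agent.Lib.MP_decea1_gt_B.Arc2
import Pool.Agent.Lib.MP_decea1_gt_B.Fill
import Pool.Agent.Lib.MP_decea1_gt_B.Tube

/-!
# MP_decea1_gt (S14098), block B4.2 (THIN): filled orbits of thin tubes.
-/

set_option autoImplicit false

open MeasureTheory Set

namespace Pool.Agent.QM59

/-- A path misses small neighbourhoods: if the compact sets `A n` decrease to `A0` (so
`⋂ A n = A0`) and `A0ᶜ` is connected, every point off `A0` lies in the outer component of `A n`
for some `n`.

Proof. `A0ᶜ` is open and connected, hence path connected (`IsOpen.isConnected_iff_isPathConnected`).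
The range of a path from `z` to `poo` in `A0ᶜ` is compact and disjoint from `⋂ A n`, so it is
disjoint from one `A n` (`IsCompact.elim_directed_family_closed_of_isCompact` or
`IsCompact.inter_iInter_nonempty`). It is connected, contains `poo`, and misses `A n`. -/
theorem exists_mem_BRoot {A : ℕ → Set E3} {A0 : Set E3} (hA : ∀ n, IsCompact (A n))
    (hm : Antitone A) (hi : ⋂ n, A n = A0) (h0 : A 0 ⊆ Cube) (hc : IsConnected A0ᶜ)
    {z : E3} (hz : z ∉ A0) : ∃ n, z ∈ BRoot (A n) := by
  have hcl : IsClosed A0 := by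
    rw [← hi]
    exact isClosed_iInter fun n => (hA n).isClosed
  have hsub : ∀ n, A n ⊆ Cube := fun n => (hm (Nat.zero_le n)).trans h0
  have hA0 : A0 ⊆ Cube := by
    rw [← hi]
    exact (iInter_subset A 0).trans h0
  have hpc : IsPathConnected A0ᶜ :=
    (hcl.isOpen_compl.isConnected_iff_isPathConnected).mp hc
  obtain ⟨γ, hγ⟩ := hpc.joinedIn z hz poo (poo_notMem hA0)
  have hK : IsCompact (range γ) := isCompact_range γ.continuous
  by_contra hcon
  push Not at hcon
  have hne : ∀ n, (range γ ∩ A n).Nonempty := by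
    intro n
    by_contra h
    rw [not_nonempty_iff_eq_empty] at h
    apply hcon n
    have h1 : range γ ⊆ (A n)ᶜ := by
      intro x hx hxA
      have : x ∈ range γ ∩ A n := ⟨hx, hxA⟩
      rw [h] at this
      exact this
    have h2 : IsPreconnected (range γ) := isPreconnected_range γ.continuous
    have h3 : poo ∈ BRoot (A n) := mem_connectedComponentIn (poo_notMem (hsub n))
    refine subset_BRoot h2 h1 ⟨poo, ?_, h3⟩ ?_
    · exact ⟨1, γ.target⟩
    · exact ⟨0, γ.source⟩
  have h4 : (⋂ n, range γ ∩ A n).Nonempty := by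
    refine IsCompact.nonempty_iInter_of_directed_nonempty_isCompact_isClosed
      (fun n => range γ ∩ A n) ?_ hne (fun n => hK.inter (hA n))
      (fun n => hK.isClosed.inter (hA n).isClosed)
    refine directed_of_isDirected_le ?_
    intro i j hij
    exact inter_subset_inter_right _ (hm hij)
  obtain ⟨x, hx⟩ := h4
  rw [mem_iInter] at hx
  have hx1 : x ∈ ⋂ n, A n := mem_iInter.mpr fun n => (hx n).2
  rw [hi] at hx1
  obtain ⟨t, rfl⟩ := (hx 0).1
  exact hγ t hx1

/-- In the situation of `exists_mem_BRoot` the measure of `BFill (A n)` tends to the measure of `A0`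
(`tendsto_measure_iInter_atTop` for the antitone sequence `BFill (A n)` with intersection `A0`). -/
theorem tendsto_BFill {A : ℕ → Set E3} {A0 : Set E3} (hA : ∀ n, IsCompact (A n))
    (hm : Antitone A) (hi : ⋂ n, A n = A0) (h0 : A 0 ⊆ Cube) (hc : IsConnected A0ᶜ) {s : ℝ}
    (hs : 0 < s) : ∃ n, volume (BFill (A n)) < volume A0 + ENNReal.ofReal s := by
  have hsub : ∀ n, A n ⊆ Cube := fun n => (hm (Nat.zero_le n)).trans h0
  have hcap : ⋂ n, BFill (A n) = A0 := by
    apply Subset.antisymm
    · intro z hz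
      by_contra hzA
      obtain ⟨n, hn⟩ := exists_mem_BRoot hA hm hi h0 hc hzA
      exact (mem_iInter.mp hz n) hn
    · intro z hz
      rw [← hi] at hz
      exact mem_iInter.mpr fun n => subset_BFill _ (mem_iInter.mp hz n)
  have hcomp : ∀ n, IsCompact (BFill (A n)) := fun n => isCompact_BFill (hA n) (hsub n)
  have hanti : Antitone fun n => BFill (A n) := fun i j hij => BFill_mono (hm hij)
  have ht := tendsto_measure_iInter_atTop (μ := (volume : Measure E3))
    (fun n => (hcomp n).measurableSet.nullMeasurableSet) hanti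
    ⟨0, (hcomp 0).measure_lt_top.ne⟩
  rw [hcap] at ht
  have hfin : volume A0 ≠ ⊤ := by
    rw [← hcap]
    exact ((measure_mono (iInter_subset _ 0)).trans_lt (hcomp 0).measure_lt_top).ne
  have hlt : volume A0 < volume A0 + ENNReal.ofReal s :=
    ENNReal.lt_add_right hfin (by simpa using hs)
  obtain ⟨n, hn⟩ := (ht.eventually (gt_mem_nhds hlt)).exists
  exact ⟨n, hn⟩

/-- B4.2 (THIN).

Proof. Choose `r > 0` with `BTube c r zs zt ⊆ Cube` and put
`A n = Icc a b ∪ ⋃ k, g k '' BTube c (r / (n + 1)) zs zt`. These are compact subsets of the cube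
(`g k` preserves the cube as it is the identity off the cube), antitone, and the intersection is
`A0 = Icc a b ∪ ⋃ k, g k '' segment` by `iInter_BTube` (a finite union commutes with the
intersection of an antitone sequence: `iInter_iUnion_of_antitone` or by hand; `g k` is injective, so
the image commutes with the intersection: `image_iInter`). `A0ᶜ = (Icc a b)ᶜ \ Arcs` is connected by
`nonsep` and `isConnected_compl_Icc`, and `volume A0 = volume (Icc a b)` by `volume_Arcs`. Use
`tendsto_BFill`, `θ₀ = r / (n + 1)`, and `BFill_mono` for `θ < θ₀`. -/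
theorem THIN {a b : E3} (hab : Icc a b ⊆ Cube) {c : E3} {zs zt : ℝ}
    (hc0 : 0 < c 0 ∧ c 0 < 1) (hc1 : 0 < c 1 ∧ c 1 < 1) (hz : 0 < zs ∧ zs ≤ zt ∧ zt < 1)
    {ι : Type} [Finite ι] (g : ι → Equiv.Perm E3) (hg : ∀ k, IsDif (g k))
    (hgC : ∀ k, IdOff Cube (g k)) {s : ℝ} (hs : 0 < s) :
    ∃ θ₀ : ℝ, 0 < θ₀ ∧ ∀ θ : ℝ, 0 < θ → θ < θ₀ → BTube c θ zs zt ⊆ Cube ∧
      volume (BFill (Icc a b ∪ ⋃ k, g k '' BTube c θ zs zt)) <
        volume (Icc a b) + ENNReal.ofReal s := by
  -- the radius
  obtain ⟨r, hr, hr0, hr1⟩ : ∃ r : ℝ, 0 < r ∧ (r < c 0 ∧ r < 1 - c 0) ∧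
      (r < c 1 ∧ r < 1 - c 1) := by
    refine ⟨min (min (c 0) (1 - c 0)) (min (c 1) (1 - c 1)) / 2, ?_, ?_, ?_⟩
    · have h1 : 0 < min (min (c 0) (1 - c 0)) (min (c 1) (1 - c 1)) :=
        lt_min (lt_min hc0.1 (by linarith [hc0.2])) (lt_min hc1.1 (by linarith [hc1.2]))
      linarith
    all_goals
      have h1 : 0 < min (min (c 0) (1 - c 0)) (min (c 1) (1 - c 1)) :=
        lt_min (lt_min hc0.1 (by linarith [hc0.2])) (lt_min hc1.1 (by linarith [hc1.2]))
      have h2 := min_le_left (min (c 0) (1 - c 0)) (min (c 1) (1 - c 1))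
      have h3 := min_le_right (min (c 0) (1 - c 0)) (min (c 1) (1 - c 1))
      have h4 := min_le_left (c 0) (1 - c 0)
      have h5 := min_le_right (c 0) (1 - c 0)
      have h6 := min_le_left (c 1) (1 - c 1)
      have h7 := min_le_right (c 1) (1 - c 1)
      constructor <;> linarith
  have htube : BTube c r zs zt ⊆ Cube := by
    rintro x ⟨h1, h2, h3, h4⟩
    rw [abs_le] at h1 h2
    rw [mem_Cube]
    intro i
    fin_cases i
    · simp only [Fin.zero_eta]
      constructor <;> linarith [h1.1, h1.2, hr0.1, hr0.2]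
    · simp only [Fin.mk_one]
      constructor <;> linarith [h2.1, h2.2, hr1.1, hr1.2]
    · simp only [Fin.reduceFinMk]
      constructor <;> linarith [hz.1, hz.2.2]
  have hgpres : ∀ k, ∀ x ∈ Cube, g k x ∈ Cube := by
    intro k x hx
    by_contra h
    have h1 := hgC k _ h
    have h2 : g k x = x := (g k).injective h1
    exact h (by rw [h2]; exact hx)
  have hrn : ∀ n : ℕ, 0 < r / ((n : ℝ) + 1) := fun n => by positivity
  have hrmono : ∀ i j : ℕ, i ≤ j → r / ((j : ℝ) + 1) ≤ r / ((i : ℝ) + 1) := by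
    intro i j hij
    have : (i : ℝ) ≤ j := by exact_mod_cast hij
    gcongr
  have hrle : ∀ n : ℕ, r / ((n : ℝ) + 1) ≤ r := fun n => by
    have := hrmono 0 n (Nat.zero_le n)
    simpa using this
  set B : ℕ → Set E3 := fun n => ⋃ k, g k '' BTube c (r / (n + 1)) zs zt with hB
  set A : ℕ → Set E3 := fun n => Icc a b ∪ B n with hAdef
  have hAc : ∀ n, IsCompact (A n) := fun n =>
    isCompact_Icc.union (isCompact_iUnion fun k =>
      (isCompact_BTube _ _ _ _).image (hg k).1.continuous)
  have hanti : Antitone A := by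
    intro i j hij
    refine union_subset_union_right _ (iUnion_mono fun k => image_mono ?_)
    exact BTube_mono c (hrmono i j hij) zs zt
  have hA0C : A 0 ⊆ Cube := by
    refine union_subset hab (iUnion_subset fun k => ?_)
    rintro _ ⟨x, hx, rfl⟩
    exact hgpres k x (htube (BTube_mono c (hrle 0) zs zt hx))
  set P : E3 := ![c 0, c 1, zs] with hP
  set Q : E3 := ![c 0, c 1, zt] with hQ
  have hgs : ∀ k, ContDiff ℝ smo (fun x => g k x) := fun k => (hg k).1
  have hBcap : ⋂ n, B n = Arcs (fun k x => g k x) (fun _ => P) (fun _ => Q) := by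
    have h1 : ⋂ n, B n = ⋃ k, ⋂ n : ℕ, g k '' BTube c (r / ((n : ℝ) + 1)) zs zt := by
      refine iInter_iUnion_of_antitone fun k i j hij => image_mono ?_
      exact BTube_mono c (hrmono i j hij) zs zt
    rw [h1]
    unfold Arcs
    refine iUnion_congr fun k => ?_
    rw [← image_iInter (g k).bijective, iInter_BTube c hz.2.1 hr]
  have hcap : ⋂ n, A n = Icc a b ∪ Arcs (fun k x => g k x) (fun _ => P) (fun _ => Q) := by
    rw [← hBcap, hAdef]
    exact (union_iInter _ _).symm
  have hconn : IsConnected (Icc a b ∪ Arcs (fun k x => g k x) (fun _ => P) (fun _ => Q))ᶜ := by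
    rw [compl_union, ← Set.sdiff_eq]
    exact nonsep isClosed_Icc.isOpen_compl (isConnected_compl_Icc a b) _ hgs _ _
  obtain ⟨n, hn⟩ := tendsto_BFill hAc hanti hcap hA0C hconn hs
  refine ⟨r / ((n : ℝ) + 1), hrn n, fun θ hθ hθn => ⟨?_, ?_⟩⟩
  · exact (BTube_mono c (hθn.le.trans (hrle n)) zs zt).trans htube
  · have hmono : Icc a b ∪ ⋃ k, g k '' BTube c θ zs zt ⊆ A n := by
      refine union_subset_union_right _ (iUnion_mono fun k => image_mono ?_)
      exact BTube_mono c hθn.le zs zt
    refine (measure_mono (BFill_mono hmono)).trans_lt (hn.trans_le ?_)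
    refine add_le_add ?_ le_rfl
    refine (measure_union_le _ _).trans ?_
    rw [volume_Arcs _ hgs, add_zero]

end Pool.Agent.QM59
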