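import Mathlib
import Pool.Agent.Lib.MP_decea1_gt_B.B2m
import Pool.Agent.Lib.MP_decea1_gt_B.Eat
import Pool.Agent.Lib.MP_decea1_gt_B.Thin

/-!
# MP_decea1_gt (S14098), block B: one surgery step (B2.3, B3 and B4.2 together).
-/

set_option autoImplicit false

open MeasureTheory Set

namespace Pool.Agent.QM59

/-- the words used in B2.3 -/
def Bwd (x y : Equiv.Perm E3) (n : ℕ) (k : Fin 3 × Fin (n + 1)) : Equiv.Perm E3 :=
  ((![x, y, x * y] k.1) ^ (k.2 : ℕ))⁻¹

/-- what a surgery step gives -/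
structure SurgOut (Γ : Subgroup (Equiv.Perm E3)) (φ : Equiv.Perm E3 → ℝ) (K : Set E3)
    (a b p q : E3) (κ : ℝ) (x y : Equiv.Perm E3) (τ e : ℝ) (N : Set E3) (m : Equiv.Perm E3) :
    Prop where
  iso : InIso Cube m
  off : ∀ z, z ∉ Box a b → z ∉ N → m z = z
  opn : IsOpen N
  cube : N ⊆ Cube
  above : N ⊆ {z : E3 | q 2 < z 2}
  col : N ⊆ BUpCol p q
  vol : volume N ≤ ENNReal.ofReal τ
  jac1 : ∀ z ∈ K, jac (fun y => m⁻¹ y) z = 1
  up : ∀ z ∈ Icc p q, κ < (m z) 2
  memx : m⁻¹ * x * m ∈ Γ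
  memy : m⁻¹ * y * m ∈ Γ
  offx : IdOff (m ⁻¹' K) (m⁻¹ * x * m)
  offy : IdOff (m ⁻¹' K) (m⁻¹ * y * m)
  near : |dphi φ (m⁻¹ * x * m) (m⁻¹ * y * m) - dphi φ x y| ≤ e

variable {Γ : Subgroup (Equiv.Perm E3)} {φ : Equiv.Perm E3 → ℝ} {D : ℝ}

private theorem Bwd_mem {Γ : Subgroup (Equiv.Perm E3)} {x y : Equiv.Perm E3} (hx : x ∈ Γ)
    (hy : y ∈ Γ) (n : ℕ) (k : Fin 3 × Fin (n + 1)) : Bwd x y n k ∈ Γ := by
  unfold Bwd
  refine Γ.inv_mem (Γ.pow_mem ?_ _)
  obtain ⟨k1, -⟩ := k
  fin_cases k1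
  · exact hx
  · exact hy
  · exact Γ.mul_mem hx hy

private theorem pow_fix {g : Equiv.Perm E3} {z : E3} (h : g z = z) (i : ℕ) : (g ^ i) z = z := by
  induction i with
  | zero => rfl
  | succ i ih => rw [pow_succ', Equiv.Perm.mul_apply, ih, h]

/-- The surgery step. The hypothesis `hDB` bounds the defect on filled sets which are a little larger
than `Icc a b`, minus the box `Box p q`.

Proof. Let `c = ctr p q`, `θ` smaller than `θ₀` of `B3`, than `θ₀` of `THIN` for the words `Bwd x y n`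
(they are `IsDif` and the identity off the cube since `x, y` are in `Γ`, `Good.dif`, `Good.supp`)
and `s`, than all `(q i - p i) / 2`, and `4 θ² ≤ τ`. Let `m` be as in `B3`,
`N = BTubeO c θ zs zt`, `F = BFill (Icc a b ∪ ⋃ k, Bwd x y n k '' BTube c θ zs zt)` and
`L = F \ Box p q`. Apply `B2transfer` with this `N` and `L` (`hN` from `B3N`). Its hypothesis `h1`: let
`g ∈ {x, y, x * y}`, `i < n` and `(g ^ i) z ∈ Zset K N m g`. First `z ∈ F`: if `(g ^ i) z ∈ K ∩ N`, then
`z ∈ Bwd '' BTube` with exponent `i`; if `g ((g ^ i) z) ∈ K ∩ N`, the same with the exponent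
`i + 1 ≤ n`; if `m ((g ^ i) z) ∈ K ∩ N`, then by `B3W` `(g ^ i) z ∈ Box a b ∪ N`, and if it is in
`Box a b`, then `z` is in `Box a b` too, as `g` is the identity on `Box A B` (`g` is the identity off
`K`, and `K` misses `Box A B`; so `(g ^ i)` is the identity on `Box A B` and injective). Second
`z ∉ Box p q`: otherwise `g ^ i` fixes `z`, `z ∉ K`, `g z = z ∉ K` and `m z ∉ K` because
`κ < (m z) 2`. The hypothesis `h2` is the same with the words `y` and `x * y`: if `x (y z) ∈ K ∩ N`,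
then `z` is in the image under `(x * y)⁻¹`. -/
theorem Surg (hΓ : Good Γ) (hφ : HQ Γ φ D) {K : Set E3} {A B a b p q : E3} {κ zs zt : ℝ}
    (h : EatData K A B a b p q κ zs zt) {x y : Equiv.Perm E3} (hx : x ∈ Γ) (hy : y ∈ Γ)
    (hxK : IdOff K x) (hyK : IdOff K y) {n : ℕ} (hn : 1 ≤ n) {s τ c : ℝ} (hs : 0 < s)
    (hτ : 0 < τ)
    (hDB : ∀ F : Set E3, IsCompact F → F ⊆ Cube → IsConnected Fᶜ → Icc a b ⊆ F →
      volume F < volume (Icc a b) + ENNReal.ofReal s → DB Γ φ (F \ Box p q) c) :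
    ∃ (N : Set E3) (m : Equiv.Perm E3),
      SurgOut Γ φ K a b p q κ x y τ (3 * (D / n) + 4 * c) N m := by
  have hpq : ∀ i, p i < q i := fun i => (h.lt i).2.2.1
  have hPab : Box p q ⊆ Box a b := fun z hz i =>
    ⟨(h.lt i).2.1.trans (hz i).1, (hz i).2.trans (h.lt i).2.2.2.1⟩
  have habAB : Box a b ⊆ Box A B := fun z hz i =>
    ⟨(h.lt i).1.trans (hz i).1, (hz i).2.trans (h.lt i).2.2.2.2⟩
  have hab : Icc a b ⊆ Cube := fun z hz => h.icc
    ⟨fun i => ((h.lt i).1.le).trans (hz.1 i), fun i => (hz.2 i).trans (h.lt i).2.2.2.2.le⟩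
  have hcab : ctr p q ∈ Icc a b := ⟨fun i => by
      have k := h.lt i
      show a i ≤ (p i + q i) / 2
      linarith [k.2.1, k.2.2.1], fun i => by
      have k := h.lt i
      show (p i + q i) / 2 ≤ b i
      linarith [k.2.2.1, k.2.2.2.1]⟩
  have hcC := hab hcab
  have hqC : q ∈ Cube := hab ⟨fun i => by
      have k := h.lt i
      linarith [k.2.1, k.2.2.1], fun i => (h.lt i).2.2.2.1.le⟩
  have hz0 : 0 < zs := (hqC 2).1.trans h.zs1
  have hzz : zs ≤ zt := by
    have k := (h.lt 2).2.2.2.2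
    linarith [h.zs2, h.topB, h.zt1]
  -- the identity on the box
  have hfix : ∀ g : Equiv.Perm E3, IdOff K g → ∀ z ∈ Box A B, g z = z := fun g hg z hz =>
    hg z fun hzK => Set.disjoint_left.1 h.dis hzK hz
  -- the radius
  obtain ⟨θ₁, hθ₁, hB3⟩ := B3 h
  obtain ⟨θ₂, hθ₂, hTHIN⟩ := THIN hab (c := ctr p q) (hcC 0) (hcC 1) ⟨hz0, hzz, h.zt2⟩
    (Bwd x y n) (fun k => hΓ.dif _ (Bwd_mem hx hy n k)) (fun k => by
      obtain ⟨K', hK', -, hoff⟩ := hΓ.supp _ (Bwd_mem hx hy n k)
      exact hoff.mono hK') hs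
  obtain ⟨θ, hθ, hθ1, hθ2, hθ3, hθ4⟩ : ∃ θ : ℝ, 0 < θ ∧ θ < θ₁ ∧ θ < θ₂ ∧
      (∀ i, θ < (q i - p i) / 2) ∧ 4 * θ ^ 2 ≤ τ := by
    obtain ⟨w, hw, hw'⟩ : ∃ w : ℝ, 0 < w ∧ ∀ i, w < (q i - p i) / 2 := by
      refine ⟨min (min ((q 0 - p 0) / 4) ((q 1 - p 1) / 4)) ((q 2 - p 2) / 4), ?_, ?_⟩
      · refine lt_min (lt_min ?_ ?_) ?_
        · linarith [hpq 0]
        · linarith [hpq 1]
        · linarith [hpq 2]
      · intro i
        have k0 := hpq 0
        have k1 := hpq 1
        have k2 := hpq 2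
        fin_cases i
        · exact ((min_le_left _ _).trans (min_le_left _ _)).trans_lt (by simp; linarith)
        · exact ((min_le_left _ _).trans (min_le_right _ _)).trans_lt (by simp; linarith)
        · exact (min_le_right _ _).trans_lt (by simp; linarith)
    refine ⟨min (min (θ₁ / 2) (θ₂ / 2)) (min w (min (τ / 4) 1)), ?_, ?_, ?_, ?_, ?_⟩
    · exact lt_min (lt_min (by positivity) (by positivity))
        (lt_min hw (lt_min (by positivity) one_pos))
    · exact ((min_le_left _ _).trans (min_le_left _ _)).trans_lt (by linarith)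
    · exact ((min_le_left _ _).trans (min_le_right _ _)).trans_lt (by linarith)
    · intro i
      exact ((min_le_right _ _).trans (min_le_left _ _)).trans_lt (hw' i)
    · set θ := min (min (θ₁ / 2) (θ₂ / 2)) (min w (min (τ / 4) 1)) with hθd
      have k0 : 0 < θ := lt_min (lt_min (by positivity) (by positivity))
        (lt_min hw (lt_min (by positivity) one_pos))
      have k1 : θ ≤ τ / 4 :=
        (min_le_right _ _).trans ((min_le_right _ _).trans (min_le_left _ _))
      have k2 : θ ≤ 1 :=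
        (min_le_right _ _).trans ((min_le_right _ _).trans (min_le_right _ _))
      nlinarith
  obtain ⟨m, hm, hj, hup⟩ := hB3 θ hθ hθ1
  obtain ⟨hTC, hTv⟩ := hTHIN θ hθ hθ2
  set N := BTubeO (ctr p q) θ zs zt with hN
  have hVC : Box a b ∪ N ⊆ Cube := B3cube h hθ3
  have hNT : N ⊆ BTube (ctr p q) θ zs zt := BTubeO_subset _ _ _ _
  -- the filled set
  set A' : Set E3 := Icc a b ∪ ⋃ k, Bwd x y n k '' BTube (ctr p q) θ zs zt with hA'
  have hA'C : A' ⊆ Cube := by
    refine union_subset hab (iUnion_subset fun k => ?_)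
    obtain ⟨K', hK', -, hoff⟩ := hΓ.supp _ (Bwd_mem hx hy n k)
    rintro _ ⟨z, hz, rfl⟩
    exact ((hoff.mono hK').mem_iff z).2 (hTC hz)
  have hA'c : IsCompact A' := by
    refine isCompact_Icc.union (isCompact_iUnion fun k => ?_)
    exact (isCompact_BTube _ _ _ _).image (hΓ.dif _ (Bwd_mem hx hy n k)).1.continuous
  set F := BFill A' with hF
  have hA'F : A' ⊆ F := subset_BFill A'
  have hDBL : DB Γ φ (F \ Box p q) c :=
    hDB F (isCompact_BFill hA'c hA'C) (BFill_subset_Cube hA'c hA'C)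
      (isConnected_compl_BFill hA'C) (subset_union_left.trans hA'F) hTv
  -- the points of the box are not in the sets `Zset`
  have hout : ∀ g : Equiv.Perm E3, IdOff K g → ∀ z ∈ Box p q, z ∉ Zset K N m g := by
    intro g hg z hz hZ
    have hzAB : z ∈ Box A B := habAB (hPab hz)
    have hzK : z ∉ K := fun hzK => Set.disjoint_left.1 h.dis hzK hzAB
    rcases hZ with (hZ | hZ) | hZ
    · exact hzK hZ.1
    · have k1 : g z ∈ K := hZ.1
      rw [hfix g hg z hzAB] at k1
      exact hzK k1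
    · have k1 := hup z ⟨fun i => (hz i).1.le, fun i => (hz i).2.le⟩
      have k2 := h.topK (m z) hZ.1
      linarith
  -- membership in the filled set
  have hin : ∀ (k : Fin 3 × Fin (n + 1)) (z : E3), (Bwd x y n k)⁻¹ z ∈ N → z ∈ A' := by
    intro k z hz
    refine Or.inr (mem_iUnion.2 ⟨k, (Bwd x y n k)⁻¹ z, hNT hz, ?_⟩)
    exact (Bwd x y n k).apply_symm_apply z
  have hidx : ∀ g, (g = x ∨ g = y ∨ g = x * y) → ∀ i : ℕ, i < n + 1 → ∀ z : E3,
      (g ^ i) z ∈ N → z ∈ A' := by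
    intro g hg i hi z hz
    obtain ⟨k1, hk1⟩ : ∃ k1 : Fin 3, (![x, y, x * y] : Fin 3 → Equiv.Perm E3) k1 = g := by
      rcases hg with rfl | rfl | rfl
      · exact ⟨0, rfl⟩
      · exact ⟨1, rfl⟩
      · exact ⟨2, rfl⟩
    refine hin (k1, ⟨i, hi⟩) z ?_
    have e : (Bwd x y n (k1, ⟨i, hi⟩))⁻¹ = g ^ i := by
      unfold Bwd
      rw [inv_inv, hk1]
    rw [e]
    exact hz
  have hgK : ∀ g, (g = x ∨ g = y ∨ g = x * y) → IdOff K g := by
    rintro g (rfl | rfl | rfl)
    · exact hxK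
    · exact hyK
    · exact hxK.mul hyK
  have hW := B3W h hm hup
  have h1 : ∀ g, (g = x ∨ g = y ∨ g = x * y) → ∀ i < n, ∀ z, (g ^ i) z ∈ Zset K N m g →
      z ∈ F \ Box p q := by
    intro g hg i hi z hz
    have hgK' := hgK g hg
    refine ⟨hA'F ?_, fun hzP => ?_⟩
    · rcases hz with (hz | hz) | hz
      · exact hidx g hg i (by omega) z hz.2
      · refine hidx g hg (i + 1) (by omega) z ?_
        rw [pow_succ', Equiv.Perm.mul_apply]
        exact hz.2
      · rcases hW _ hz with hw | hw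
        · have k1 : (g ^ i) ((g ^ i) z) = (g ^ i) z := pow_fix (hfix g hgK' _ (habAB hw.1)) i
          have k2 : (g ^ i) z = z := (g ^ i).injective k1
          rw [k2] at hw
          exact Or.inl ⟨fun i => (hw.1 i).1.le, fun i => (hw.1 i).2.le⟩
        · exact hidx g hg i (by omega) z hw
    · have k1 : (g ^ i) z = z := pow_fix (hfix g hgK' z (habAB (hPab hzP))) i
      rw [k1] at hz
      exact hout g hgK' z hzP hz
  have h2 : ∀ z, y z ∈ Zset K N m x → z ∈ F \ Box p q := by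
    intro z hz
    refine ⟨hA'F ?_, fun hzP => ?_⟩
    · rcases hz with (hz | hz) | hz
      · refine hidx y (Or.inr (Or.inl rfl)) 1 (by omega) z ?_
        rw [pow_one]
        exact hz.2
      · refine hidx (x * y) (Or.inr (Or.inr rfl)) 1 (by omega) z ?_
        rw [pow_one, Equiv.Perm.mul_apply]
        exact hz.2
      · rcases hW _ hz with hw | hw
        · have k1 : y (y z) = y z := hfix y hyK _ (habAB hw.1)
          have k2 : y z = z := y.injective k1
          rw [k2] at hw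
          exact Or.inl ⟨fun i => (hw.1 i).1.le, fun i => (hw.1 i).2.le⟩
        · refine hidx y (Or.inr (Or.inl rfl)) 1 (by omega) z ?_
          rw [pow_one]
          exact hw
    · rw [hfix y hyK z (habAB (hPab hzP))] at hz
      exact hout x hxK z hzP hz
  obtain ⟨r1, r2, r3, r4, r5⟩ := B2transfer hΓ hφ h.cpt.isClosed (hm.mono hVC) hj hx hy hxK hyK
    (B3N h hm) hDBL n hn h1 h2
  refine ⟨N, m, ?_⟩
  exact {
    iso := hm.mono hVC
    off := fun z hz1 hz2 => hm.idOff z fun hz => hz.elim hz1 hz2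
    opn := isOpen_BTubeO _ _ _ _
    cube := subset_union_right.trans hVC
    above := fun z hz => h.zs1.trans hz.2.2.1
    col := fun z hz => by
      obtain ⟨k0, k1, k2, -⟩ := hz
      have t0 := hθ3 0
      have t1 := hθ3 1
      have c0 : ctr p q 0 = (p 0 + q 0) / 2 := rfl
      have c1 : ctr p q 1 = (p 1 + q 1) / 2 := rfl
      rw [c0, abs_lt] at k0
      rw [c1, abs_lt] at k1
      refine ⟨by linarith, by linarith, by linarith, by linarith, ?_⟩
      linarith [hpq 2, h.zs1]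
    vol := (measure_mono hNT).trans ((volume_BTube_le _ hθ.le hz0.le h.zt2.le).trans
      (ENNReal.ofReal_le_ofReal hθ4))
    jac1 := hj
    up := hup
    memx := r1
    memy := r2
    offx := r3
    offy := r4
    near := r5 }

end Pool.Agent.QM59
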