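import Mathlib
import Pool.Agent.Lib.MP_decea1_gt_B.Surg
import Pool.Agent.Lib.MP_decea1_gt_B.Shl

/-!
# MP_decea1_gt (S14098), block B6 (a): one-chamber sets, the chamber after a surgery.
-/

set_option autoImplicit false

open MeasureTheory Set

namespace Pool.Agent.QM59

/-- `L` is a compact set around the open box `Box p q`, with connected complement of the union. -/
structure OC (L : Set E3) (p q : E3) : Prop where
  cpt : IsCompact L
  sub : L ⊆ Cube
  lt : ∀ i, p i < q i
  icc : Icc p q ⊆ Cube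
  dis : Disjoint L (Box p q)
  bdry : Icc p q \ Box p q ⊆ L
  conn : IsConnected (L ∪ Box p q)ᶜ
  half : volume.real (Box p q) ≤ 1 / 2

/-- `(L ∪ Box p q)ᶜ` minus the complement of the cube; `L ∪ Box p q = L ∪ Icc p q` is compact and
`isConnected_Cube_diff` applies. -/
theorem OC.conn_Cube {L : Set E3} {p q : E3} (h : OC L p q) :
    IsCompact (L ∪ Box p q) ∧ IsConnected (Cube \ (L ∪ Box p q)) := by
  have e : L ∪ Box p q = L ∪ Icc p q := by
    refine Subset.antisymm (union_subset_union_right _ (Box_subset_Icc p q)) ?_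
    rintro x (hx | hx)
    · exact Or.inl hx
    · by_cases hb : x ∈ Box p q
      · exact Or.inr hb
      · exact Or.inl (h.bdry ⟨hx, hb⟩)
  have hc : IsCompact (L ∪ Box p q) := by
    rw [e]
    exact h.cpt.union isCompact_Icc
  refine ⟨hc, isConnected_Cube_diff hc ?_ h.conn⟩
  exact union_subset h.sub ((Box_subset_Icc p q).trans h.icc)

/-- a height between `L` and the top of the cube: by `exists_margin_Cube` for `L ∪ Icc p q` -/
theorem OC.exists_height {L : Set E3} {p q : E3} (h : OC L p q) :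
    ∃ κ : ℝ, κ < 1 ∧ q 2 < κ ∧ ∀ x ∈ L, x 2 < κ := by
  obtain ⟨e, he, -, hm⟩ := exists_margin_Cube (h.cpt.union (isCompact_Icc (a := p) (b := q)))
    (union_subset h.sub h.icc)
  have hq : q ∈ Icc p q := ⟨fun i => (h.lt i).le, le_rfl⟩
  exact ⟨1 - e, by linarith, (hm q (Or.inr hq) 2).2, fun x hx => (hm x (Or.inl hx) 2).2⟩

/-- what B5 and the sum over the shells need -/
structure Chb (v t s : ℝ) (L' R Ch K0 : Set E3) : Prop where
  cpt : IsCompact L'
  sub : L' ⊆ Cube
  Ro : IsOpen R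
  Rc : IsConnected R
  Co : IsOpen Ch
  Cc : IsConnected Ch
  dis : Disjoint R Ch
  un : Cube \ L' = R ∪ Ch
  K0c : IsCompact K0
  K0C : K0 ⊆ Cube
  CK0 : Ch ⊆ K0
  volL : volume.real L' < v
  volC1 : t - 2 * s ≤ volume.real Ch
  volC2 : volume.real Ch ≤ t + 2 * s

/-- The chamber without surgery: `L' = L`, `R = Cube \ (L ∪ Box p q)`, `Ch = Box p q`,
`K0 = Icc p q`, `t = vol (Box p q)`. -/
theorem Chb0 {L : Set E3} {p q : E3} (h : OC L p q) {v s : ℝ} (hv : volume.real L < v)
    (hs : 0 ≤ s) :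
    Chb v (volume.real (Box p q)) s L (Cube \ (L ∪ Box p q)) (Box p q) (Icc p q) := by
  obtain ⟨hc, hconn⟩ := h.conn_Cube
  refine ⟨h.cpt, h.sub, isOpen_Cube.sdiff hc.isClosed, hconn, isOpen_Box p q,
    isConnected_Box p q h.lt, ?_, ?_, isCompact_Icc, h.icc, Box_subset_Icc p q, hv, by linarith,
    by linarith⟩
  · exact Set.disjoint_left.2 fun x hx hx' => hx.2 (Or.inr hx')
  · ext x
    constructor
    · rintro ⟨h1, h2⟩
      by_cases hb : x ∈ Box p q
      · exact Or.inr hb
      · exact Or.inl ⟨h1, fun h3 => h3.elim h2 hb⟩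
    · rintro (hx | hx)
      · exact ⟨hx.1, fun h3 => hx.2 (Or.inl h3)⟩
      · exact ⟨h.icc (Box_subset_Icc p q hx), fun h3 => Set.disjoint_left.1 h.dis h3 hx⟩

/-- The chamber after a surgery in `Box a b ⊆ Box p q` which takes out `Icc p' q'`: `L' = m ⁻¹' L`,
`R = m ⁻¹' (Cube \ (L ∪ Box p q))`, `Ch = m ⁻¹' Box p q`, `K0 = m ⁻¹' Icc p q`.

Proof. `m` is a homeomorphism (`IsDif.exists_homeo`) which preserves the cube. `volume L' = volume L`
by `volume_image_of_jac` for `m⁻¹`. `Box p q \ (Box a b ∪ N) ⊆ Ch` because `m = id` there, and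
`Ch ⊆ (Box p q ∪ N) \ Icc p' q'`: if `m z ∈ Box p q` and `z ∉ Box a b ∪ N`, then `z = m z`; if
`z ∈ Icc p' q'`, then `(m z) 2 > κ > q 2`. So
`vol (Box p q) - vol (Box a b) - τ ≤ vol Ch ≤ vol (Box p q) + τ - vol (Icc p' q')`. -/
theorem Chb1 {Γ : Subgroup (Equiv.Perm E3)} {φ : Equiv.Perm E3 → ℝ} {L : Set E3} {p q : E3}
    (h : OC L p q) {a b p' q' : E3} {κ : ℝ} (hκ : q 2 < κ) {x y : Equiv.Perm E3} {τ e : ℝ}
    {N : Set E3} {m : Equiv.Perm E3} (hm : SurgOut Γ φ L a b p' q' κ x y τ e N m)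
    (hab : Box a b ⊆ Box p q) (hpq : Icc p' q' ⊆ Box a b) {v t s : ℝ}
    (hv : volume.real L < v) (hτ : 0 ≤ τ)
    (h1 : t - 2 * s ≤ volume.real (Box p q) - volume.real (Box a b) - τ)
    (h2 : volume.real (Box p q) + τ - volume.real (Icc p' q') ≤ t + 2 * s) :
    Chb v t s (m ⁻¹' L) (m ⁻¹' (Cube \ (L ∪ Box p q))) (m ⁻¹' Box p q) (m ⁻¹' Icc p q) := by
  have h0 := Chb0 (s := 0) h hv le_rfl
  have hd := hm.iso.isDif
  have hmc : Continuous fun x => m x := hd.1.continuous
  have hsc : Continuous fun x => m.symm x := hd.2.continuous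
  have himg : ∀ S : Set E3, m ⁻¹' S = (fun x => m.symm x) '' S := fun S =>
    (m.image_symm_eq_preimage S).symm
  have hC : m ⁻¹' Cube = Cube := by
    have h3 := m.preimage_image Cube
    rwa [hm.iso.image_eq Subset.rfl] at h3
  have hsubC : ∀ S : Set E3, S ⊆ Cube → m ⁻¹' S ⊆ Cube := fun S hS => by
    have h3 : m ⁻¹' S ⊆ m ⁻¹' Cube := preimage_mono hS
    rwa [hC] at h3
  have hvL : volume.real (m ⁻¹' L) = volume.real L := by
    have h3 := volume_image_of_jac hd.inv L h.cpt.measurableSet hm.jac1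
    rw [Measure.real, Measure.real, himg L]
    exact congrArg ENNReal.toReal h3
  have hfN : volume N ≠ ⊤ := (hm.vol.trans_lt ENNReal.ofReal_lt_top).ne
  have hfP : volume (Box p q) ≠ ⊤ := volume_Box_ne_top p q
  have hfA : volume (Box a b) ≠ ⊤ := volume_Box_ne_top a b
  have hfC : volume (m ⁻¹' Box p q) ≠ ⊤ := by
    refine ne_top_of_le_ne_top (b := volume Cube) (by rw [volume_Cube]; simp) (measure_mono ?_)
    exact hsubC _ ((Box_subset_Icc p q).trans h.icc)
  have hNτ : volume.real N ≤ τ := ENNReal.toReal_le_of_le_ofReal hτ hm.vol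
  refine ⟨?_, hsubC _ h.sub, h0.Ro.preimage hmc, ?_, h0.Co.preimage hmc, ?_,
    h0.dis.preimage _, ?_, ?_, hsubC _ h.icc, preimage_mono (Box_subset_Icc p q), ?_, ?_, ?_⟩
  · rw [himg]
    exact h.cpt.image hsc
  · rw [himg]
    exact h0.Rc.image _ hsc.continuousOn
  · rw [himg]
    exact h0.Cc.image _ hsc.continuousOn
  · rw [← preimage_union, ← h0.un, preimage_sdiff, hC]
  · rw [himg]
    exact (isCompact_Icc (a := p) (b := q)).image hsc
  · rw [hvL]
    exact hv
  · have hsub : Box p q ⊆ (m ⁻¹' Box p q) ∪ (Box a b ∪ N) := by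
      intro z hz
      by_cases hza : z ∈ Box a b
      · exact Or.inr (Or.inl hza)
      · by_cases hzN : z ∈ N
        · exact Or.inr (Or.inr hzN)
        · left
          change m z ∈ Box p q
          rw [hm.off z hza hzN]
          exact hz
    have h3 : volume.real (Box p q) ≤ volume.real ((m ⁻¹' Box p q) ∪ (Box a b ∪ N)) :=
      measureReal_mono hsub (measure_union_ne_top hfC (measure_union_ne_top hfA hfN))
    have h4 := measureReal_union_le (μ := volume) (m ⁻¹' Box p q) (Box a b ∪ N)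
    have h5 := measureReal_union_le (μ := volume) (Box a b) N
    linarith
  · have hdisj : Disjoint (m ⁻¹' Box p q) (Icc p' q') := by
      refine Set.disjoint_left.2 fun z hz hz' => ?_
      have h3 := hm.up z hz'
      have h4 : (m z) 2 < q 2 := (show m z ∈ Box p q from hz) 2 |>.2
      linarith
    have hsub : (m ⁻¹' Box p q) ∪ Icc p' q' ⊆ Box p q ∪ N := by
      refine union_subset (fun z hz => ?_) ((hpq.trans hab).trans subset_union_left)
      by_contra hcon
      have h3 : z ∉ Box p q := fun h4 => hcon (Or.inl h4)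
      have h4 : z ∉ N := fun h5 => hcon (Or.inr h5)
      have h5 := hm.off z (fun h6 => h3 (hab h6)) h4
      exact h3 (by rw [← h5]; exact hz)
    have h3 := measureReal_union (μ := volume) hdisj measurableSet_Icc hfC
      isCompact_Icc.measure_lt_top.ne
    have h4 : volume.real ((m ⁻¹' Box p q) ∪ Icc p' q') ≤ volume.real (Box p q ∪ N) :=
      measureReal_mono hsub (measure_union_ne_top hfP hfN)
    have h5 := measureReal_union_le (μ := volume) (Box p q) N
    linarith

end Pool.Agent.QM59
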