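import Mathlib
import Pool.Agent.Lib.MP_decea1_gt_B.OC
import Pool.Agent.Lib.MP_decea1_gt_B.Conc

/-!
# MP_decea1_gt (S14098), block B6 (c): the shells.
-/

set_option autoImplicit false

open MeasureTheory Set

namespace Pool.Agent.QM59

variable {Γ : Subgroup (Equiv.Perm E3)} {φ : Equiv.Perm E3 → ℝ} {D : ℝ}

/-- B6, the sum over the shells. Given for every `j < k` a pair `X j, Y j` of elements of `Γ`
supported in `L' j`, and chambers as in `Chb` with `t j = t - j * δ`, the values of `dphi` add up.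

Proof. For `j < k` let `p₋ = cLo 0 1 (t - jδ - 3s)`, `q₋ = cHi 0 1 (t - jδ - 3s)` (closed box of this
volume, concentric with the cube) and `p₊ = cLo 0 1 (t - jδ + 3s + v)`, `q₊ = cHi 0 1 (..)`. `B5` gives
`g j ∈ InIso Cube`, `Vol (g j)`, `g j '' L' j ⊆ Box p₊ q₊ \ Icc p₋ q₋ =: S j`; `g j ∈ Γ` by `Good.iso`.
`S j` and `S i` are disjoint for `j < i`: `Box p₊(i) q₊(i) ⊆ Icc p₋(j) q₋(j)` because
`t - iδ + 3s + v ≤ t - jδ - 3s`. Apply `B03` to `g j * X j * (g j)⁻¹`, `g j * Y j * (g j)⁻¹`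
(`IdOff.conj`) and `HQ.dphi_conj`. -/
theorem One1 (hΓ : Good Γ) (hφ : HQ Γ φ D) {k : ℕ} {t δ s v : ℝ} (hs : 0 < s) (hv : 0 < v)
    (hδ : 6 * s + v < δ) (ht : (k : ℝ) * δ + δ ≤ t) (ht1 : t + 3 * s + v < 1)
    (L' R Ch K0 : ℕ → Set E3)
    (hC : ∀ j < k, Chb v (t - j * δ) s (L' j) (R j) (Ch j) (K0 j))
    (X Y : ℕ → Equiv.Perm E3) (hX : ∀ j < k, X j ∈ Γ) (hY : ∀ j < k, Y j ∈ Γ)
    (hXL : ∀ j < k, IdOff (L' j) (X j)) (hYL : ∀ j < k, IdOff (L' j) (Y j)) :
    ∑ j ∈ Finset.range k, dphi φ (X j) (Y j) ≤ D := by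
  have h01 : ∀ i : Fin 3, (0 : E3) i < (1 : E3) i := fun i => by simp
  have hδ0 : 0 < δ := by linarith
  have hjk : ∀ j < k, (j : ℝ) + 1 ≤ k := fun j hj => by exact_mod_cast hj
  have hw0 : ∀ j < k, 0 < t - j * δ - 3 * s := by
    intro j hj
    have := hjk j hj
    nlinarith
  have hww : ∀ j : ℕ, t - j * δ - 3 * s < t - j * δ + 3 * s + v := fun j => by linarith
  have hw1 : ∀ j : ℕ, t - j * δ + 3 * s + v < 1 := by
    intro j
    have : (0 : ℝ) ≤ j * δ := by positivity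
    linarith
  have hprod : ∏ j : Fin 3, ((1 : E3) j - (0 : E3) j) = 1 := by simp
  have hcub : ∀ j < k, Icc (cLo 0 1 (t - j * δ + 3 * s + v)) (cHi 0 1 (t - j * δ + 3 * s + v)) ⊆
      Cube := by
    intro j hj x hx i
    have h1 := cLo_anti h01 ((hw0 j hj).trans (hww j)) (hw1 j) i
    have h2 := cLo_full h01 i
    rw [hprod] at h2
    rw [h2.1, h2.2] at h1
    exact ⟨h1.1.trans_le (hx.1 i), (hx.2 i).trans_lt h1.2⟩
  have hex : ∀ j, ∃ g : Equiv.Perm E3, j < k → g ∈ Γ ∧ g '' L' j ⊆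
      Box (cLo 0 1 (t - j * δ + 3 * s + v)) (cHi 0 1 (t - j * δ + 3 * s + v)) \
        Icc (cLo 0 1 (t - j * δ - 3 * s)) (cHi 0 1 (t - j * δ - 3 * s)) := by
    intro j
    by_cases hj : j < k
    · have hc := hC j hj
      have hV1 := volume_real_cIcc h01 (hw0 j hj)
      have hV2 := volume_real_cBox h01 ((hw0 j hj).trans (hww j))
      obtain ⟨g, hg1, hg2, hg3⟩ := B5 hc.cpt hc.sub hc.Ro hc.Rc hc.Co hc.Cc hc.dis hc.un hc.K0c
        hc.K0C hc.CK0 (a := cLo 0 1 (t - j * δ + 3 * s + v))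
        (b := cHi 0 1 (t - j * δ + 3 * s + v)) (p := cLo 0 1 (t - j * δ - 3 * s))
        (q := cHi 0 1 (t - j * δ - 3 * s))
        (fun i => ⟨(cLo_anti h01 (hw0 j hj) (hww j) i).1, cLo_lt_cHi h01 (hw0 j hj) i,
          (cLo_anti h01 (hw0 j hj) (hww j) i).2⟩) (hcub j hj)
        (by rw [hV1]; have := hc.volC1; linarith)
        (by rw [hV2]; have h1 := hc.volC2; have h2 := hc.volL; linarith)
      exact ⟨g, fun _ => ⟨hΓ.iso g hg1 hg2, hg3⟩⟩
    · exact ⟨1, fun h => absurd h hj⟩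
  choose g hg using hex
  have hdis : ∀ i < k, ∀ j < i, Disjoint
      (Box (cLo 0 1 (t - i * δ + 3 * s + v)) (cHi 0 1 (t - i * δ + 3 * s + v)))
      (Icc (cLo 0 1 (t - j * δ - 3 * s)) (cHi 0 1 (t - j * δ - 3 * s)))ᶜ := by
    intro i hi j hj
    rw [Set.disjoint_compl_right_iff_subset]
    intro x hx
    have hij : (j : ℝ) + 1 ≤ i := by exact_mod_cast hj
    have hlt : t - i * δ + 3 * s + v < t - j * δ - 3 * s := by nlinarith
    have h1 : ∀ l, _ := fun l => cLo_anti h01 ((hw0 i hi).trans (hww i)) hlt l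
    exact ⟨fun l => ((h1 l).1.trans (hx l).1).le, fun l => ((hx l).2.trans (h1 l).2).le⟩
  have key := B03 hφ (Finset.range k) (fun j : ℕ =>
      Box (cLo 0 1 (t - j * δ + 3 * s + v)) (cHi 0 1 (t - j * δ + 3 * s + v)) \
        Icc (cLo 0 1 (t - j * δ - 3 * s)) (cHi 0 1 (t - j * δ - 3 * s)))
    (fun j => g j * X j * (g j)⁻¹) (fun j => g j * Y j * (g j)⁻¹)
    (fun j hj => by
      have hj' := Finset.mem_range.1 hj
      exact Γ.mul_mem (Γ.mul_mem (hg j hj').1 (hX j hj')) (Γ.inv_mem (hg j hj').1))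
    (fun j hj => by
      have hj' := Finset.mem_range.1 hj
      exact Γ.mul_mem (Γ.mul_mem (hg j hj').1 (hY j hj')) (Γ.inv_mem (hg j hj').1))
    (fun j hj => ((hXL j (Finset.mem_range.1 hj)).conj (g j)).mono (hg j (Finset.mem_range.1 hj)).2)
    (fun j hj => ((hYL j (Finset.mem_range.1 hj)).conj (g j)).mono (hg j (Finset.mem_range.1 hj)).2)
    (fun i hi j hj hij => by
      have hi' := Finset.mem_range.1 hi
      have hj' := Finset.mem_range.1 hj
      rcases lt_or_gt_of_ne hij with h | h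
      · exact ((hdis j hj' i h).mono diff_subset fun x hx => hx.2).symm
      · exact (hdis i hi' j h).mono diff_subset fun x hx => hx.2)
  refine le_trans (le_of_eq ?_) key
  refine Finset.sum_congr rfl fun j hj => ?_
  have hj' := Finset.mem_range.1 hj
  exact (hφ.dphi_conj (hX j hj') (hY j hj') (hg j hj').1).symm

end Pool.Agent.QM59
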