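import Mathlib
import Pool.Agent.Lib.MP_decea1_gt_B.One1

/-!
# MP_decea1_gt (S14098), block B6 (d): one-chamber sets of small measure, large chamber.
-/

set_option autoImplicit false

open MeasureTheory Set

namespace Pool.Agent.QM59

variable {Γ : Subgroup (Equiv.Perm E3)} {φ : Equiv.Perm E3 → ℝ} {D : ℝ}

/-- B6, one surgery, `1 ≤ j < k`: `t = vol (Box p q)`, the box of volume `j δ` is taken out.

Proof. `Icc p' q'` := concentric box of volume `jδ` (`cLo`, `cHi`), `Box a b` := concentric box of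
volume `jδ + s`; `jδ + s < t`. Heights: `κ` from `OC.exists_height`, `zs` between `q' 2` and `b 2`,
`zt` between `κ` and `1`. `Surg` with `A, B = p, q` and `τ = s`; the constant
`c = 2 * D * (jδ + 2s)` is obtained from `B15'` (with `DB.mono_set`), as
`jδ + 2s ≤ 1 / 2`. Then `Chb1` with `τ = s`:
`t - jδ - 2s ≤ t - (jδ + s) - s` and `t + s - jδ ≤ t - jδ + 2s`. -/
theorem One2a (hΓ : Good Γ) (hφ : HQ Γ φ D) {L : Set E3} {p q : E3} (h : OC L p q)
    {x y : Equiv.Perm E3} (hx : x ∈ Γ) (hy : y ∈ Γ) (hxL : IdOff L x) (hyL : IdOff L y)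
    {n : ℕ} (hn : 1 ≤ n) {w s v : ℝ} (hw : 0 < w) (hs : 0 < s)
    (hwt : w + s < volume.real (Box p q)) (hw2 : w + 2 * s ≤ 1 / 2)
    (hv : volume.real L < v) :
    ∃ (L' R Ch K0 : Set E3) (X Y : Equiv.Perm E3),
      Chb v (volume.real (Box p q) - w) s L' R Ch K0 ∧ X ∈ Γ ∧ Y ∈ Γ ∧ IdOff L' X ∧
      IdOff L' Y ∧ |dphi φ X Y - dphi φ x y| ≤ 3 * (D / n) + 4 * (2 * D * (w + 2 * s)) := by
  have hq : 0 < w + s := by linarith
  have hprod : volume.real (Box p q) = ∏ j, (q j - p j) := volume_real_Box h.lt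
  have hwt' : w + s < ∏ j, (q j - p j) := hprod ▸ hwt
  set a : E3 := cLo p q (w + s) with ha
  set b : E3 := cHi p q (w + s) with hb
  set p' : E3 := cLo p q w with hp'
  set q' : E3 := cHi p q w with hq'
  have l1 : ∀ i, p i < a i ∧ b i < q i := fun i => by
    have h1 := cLo_anti h.lt hq hwt' i
    have h2 := cLo_full h.lt i
    rw [h2.1, h2.2] at h1
    exact h1
  have l2 : ∀ i, a i < p' i ∧ q' i < b i := fun i => cLo_anti h.lt hw (by linarith) i
  have l3 : ∀ i, p' i < q' i := fun i => cLo_lt_cHi h.lt hw i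
  obtain ⟨κ, hκ1, hκq, hκL⟩ := h.exists_height
  have hE : EatData L p q a b p' q' κ ((q' 2 + b 2) / 2) ((κ + 1) / 2) :=
    { cpt := h.cpt
      sub := h.sub
      icc := h.icc
      dis := h.dis
      lt := fun i => ⟨(l1 i).1, (l2 i).1, l3 i, (l2 i).2, (l1 i).2⟩
      zs1 := by have := (l2 2).2; linarith
      zs2 := by have := (l2 2).2; linarith
      topK := hκL
      topB := hκq
      zt1 := by linarith
      zt2 := by linarith }
  have vI : volume.real (Icc a b) = w + s := volume_real_cIcc h.lt hq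
  have vB : volume.real (Box a b) = w + s := volume_real_cBox h.lt hq
  have vI' : volume.real (Icc p' q') = w := volume_real_cIcc h.lt hw
  have vIe : volume (Icc a b) = ENNReal.ofReal (w + s) := by
    rw [← vI, measureReal_def, ENNReal.ofReal_toReal isCompact_Icc.measure_lt_top.ne]
  have hDB : ∀ F : Set E3, IsCompact F → F ⊆ Cube → IsConnected Fᶜ → Icc a b ⊆ F →
      volume F < volume (Icc a b) + ENNReal.ofReal s →
      DB Γ φ (F \ Box p' q') (2 * D * (w + 2 * s)) := by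
    intro F hF hFC hFc _ hFv
    refine (B15' hΓ hφ hF hFC hFc (w + 2 * s) (by linarith) hw2 ?_).mono_set sdiff_subset
    refine hFv.le.trans ?_
    rw [vIe, ← ENNReal.ofReal_add hq.le hs.le]
    exact ENNReal.ofReal_le_ofReal (by linarith)
  obtain ⟨N, m, hS⟩ := Surg hΓ hφ hE hx hy hxL hyL hn hs hs hDB
  refine ⟨m ⁻¹' L, m ⁻¹' (Cube \ (L ∪ Box p q)), m ⁻¹' Box p q, m ⁻¹' Icc p q,
    m⁻¹ * x * m, m⁻¹ * y * m, ?_, hS.memx, hS.memy, hS.offx, hS.offy, hS.near⟩
  refine Chb1 h hκq hS (fun z hz i => ⟨(l1 i).1.trans (hz i).1, (hz i).2.trans (l1 i).2⟩)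
    (Icc_subset_Box a b p' q' (fun i => (l2 i).1) (fun i => (l2 i).2)) hv hs.le ?_ ?_
  · rw [vB]
    linarith
  · rw [vI']
    linarith

/-- B6, case 2.

Proof. `One2a` with `w = j * δ` for `1 ≤ j < k`, and `Chb0` for `j = 0`; `One1`. So
`k * dphi x y ≤ D + ∑ e_j` with `e_j ≤ 3 (D / n) + 8 D (k δ + 2 s)`; let `n → ∞` (or take `n` with
`3 D / n ≤ ε'` for every `ε'`). -/
theorem One2 (hΓ : Good Γ) (hφ : HQ Γ φ D) {L : Set E3} {p q : E3} (h : OC L p q)
    {x y : Equiv.Perm E3} (hx : x ∈ Γ) (hy : y ∈ Γ) (hxL : IdOff L x) (hyL : IdOff L y)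
    {k : ℕ} (hk : 1 ≤ k) {δ s v : ℝ} (hs : 0 < s) (hv0 : 0 < v) (hδ : 6 * s + v < δ)
    (ht : (k : ℝ) * δ + δ ≤ volume.real (Box p q)) (hk2 : (k : ℝ) * δ + 2 * s ≤ 1 / 2)
    (hv : volume.real L < v) :
    dphi φ x y ≤ D / k + 8 * D * (k * δ + 2 * s) := by
  have hk0 : (0 : ℝ) < k := by exact_mod_cast hk
  have hk1 : (1 : ℝ) ≤ k := by exact_mod_cast hk
  have hδ0 : 0 < δ := by linarith
  set V : ℝ := volume.real (Box p q) with hV
  have hV2 : V ≤ 1 / 2 := h.half
  have hkδ : δ ≤ k * δ := by nlinarith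
  have ht1 : V + 3 * s + v < 1 := by linarith
  -- the bound for every `n`
  have key : ∀ n : ℕ, 1 ≤ n →
      dphi φ x y ≤ D / k + 8 * D * (k * δ + 2 * s) + 3 * (D / n) := by
    intro n hn
    have hn0 : (0 : ℝ) < n := by exact_mod_cast hn
    have step : ∀ j : ℕ, ∃ (L' R Ch K0 : Set E3) (X Y : Equiv.Perm E3), j < k →
        Chb v (V - j * δ) s L' R Ch K0 ∧ X ∈ Γ ∧ Y ∈ Γ ∧ IdOff L' X ∧
        IdOff L' Y ∧ |dphi φ X Y - dphi φ x y| ≤
          3 * (D / n) + 4 * (2 * D * (k * δ + 2 * s)) := by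
      intro j
      by_cases hj : j < k
      · rcases Nat.eq_zero_or_pos j with h0 | h0
        · subst h0
          refine ⟨L, Cube \ (L ∪ Box p q), Box p q, Icc p q, x, y, fun _ =>
            ⟨?_, hx, hy, hxL, hyL, ?_⟩⟩
          · have := Chb0 h hv hs.le
            simpa using this
          · rw [sub_self, abs_zero]
            have := hφ.nonneg
            positivity
        · have hj0 : (0 : ℝ) < j := by exact_mod_cast h0
          have hjk : (j : ℝ) + 1 ≤ k := by exact_mod_cast hj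
          have e1 : (j : ℝ) * δ + δ ≤ k * δ := by nlinarith
          obtain ⟨L', R, Ch, K0, X, Y, c1, c2, c3, c4, c5, c6⟩ :=
            One2a hΓ hφ h hx hy hxL hyL hn (w := j * δ) (s := s) (v := v)
              (by positivity) hs (by linarith) (by linarith) hv
          refine ⟨L', R, Ch, K0, X, Y, fun _ => ⟨c1, c2, c3, c4, c5, c6.trans ?_⟩⟩
          have hD := hφ.nonneg
          have e2 : 2 * D * ((j : ℝ) * δ + 2 * s) ≤ 2 * D * (k * δ + 2 * s) :=
            mul_le_mul_of_nonneg_left (by linarith) (by positivity)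
          linarith
      · exact ⟨∅, ∅, ∅, ∅, 1, 1, fun h' => absurd h' hj⟩
    choose L' R Ch K0 X Y hall using step
    have hsum := One1 hΓ hφ hs hv0 hδ ht ht1 L' R Ch K0 (fun j hj => (hall j hj).1) X Y
      (fun j hj => (hall j hj).2.1) (fun j hj => (hall j hj).2.2.1)
      (fun j hj => (hall j hj).2.2.2.1) (fun j hj => (hall j hj).2.2.2.2.1)
    have hlow : ∑ _j ∈ Finset.range k,
        (dphi φ x y - (3 * (D / n) + 4 * (2 * D * (k * δ + 2 * s)))) ≤
          ∑ j ∈ Finset.range k, dphi φ (X j) (Y j) := by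
      refine Finset.sum_le_sum fun j hj => ?_
      have h1 := (hall j (Finset.mem_range.mp hj)).2.2.2.2.2
      have h2 := (abs_le.mp h1).1
      linarith
    rw [Finset.sum_const, Finset.card_range, nsmul_eq_mul] at hlow
    have h3 := hlow.trans hsum
    have h4 : dphi φ x y - (3 * (D / n) + 4 * (2 * D * (k * δ + 2 * s))) ≤ D / k := by
      rw [le_div_iff₀ hk0, mul_comm]
      exact h3
    linarith
  refine le_of_forall_pos_le_add fun ε hε => ?_
  obtain ⟨n, hn⟩ := exists_nat_gt (3 * D / ε)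
  have hD := hφ.nonneg
  have hn1 : 3 * D / ε < ((n + 1 : ℕ) : ℝ) := by
    push_cast
    linarith
  have h5 := key (n + 1) (by omega)
  have h6 : 3 * (D / ((n + 1 : ℕ) : ℝ)) ≤ ε := by
    rw [← mul_div_assoc, div_le_iff₀ (by positivity)]
    rw [div_lt_iff₀ hε] at hn1
    linarith
  linarith

end Pool.Agent.QM59
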