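import Mathlib
import Pool.Agent.Lib.MP_decea1_gt_B.One2

/-!
# MP_decea1_gt (S14098), block B6: the one-chamber lemma.
-/

set_option autoImplicit false

open MeasureTheory Set

namespace Pool.Agent.QM59

variable {Γ : Subgroup (Equiv.Perm E3)} {φ : Equiv.Perm E3 → ℝ} {D : ℝ}

/-- B6.

Proof. Choose `k ≥ 1` with `D / k ≤ ε / 4`, then `δ > 0` with `(k + 2) * δ ≤ 1 / 4` and
`8 * D * ((k + 2) * δ) ≤ ε / 4`, and `s = δ / 16`, `v = δ / 4` (so `6s + v < δ`, `2s ≤ δ`).
By `DB.of_le` only `dphi x y ≤ ε` has to be shown. If `vol (Box p q) < (k + 1) δ`, apply `B15'` to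
`L ∪ Box p q` (compact, connected complement, measure `≤ v + (k + 1) δ ≤ (k + 2) δ ≤ 1 / 2`) and
`DB.mono_set`. Otherwise `One2`: `D / k + 8 D (k δ + 2 s) ≤ ε / 4 + ε / 4`. -/
theorem B6 (hΓ : Good Γ) (hφ : HQ Γ φ D) {ε : ℝ} (hε : 0 < ε) :
    ∃ v : ℝ, 0 < v ∧ ∀ (L : Set E3) (p q : E3), OC L p q → volume.real L < v →
      DB Γ φ L ε := by
  have hD := hφ.nonneg
  obtain ⟨k0, hk0⟩ := exists_nat_gt (4 * D / ε)
  set k : ℕ := k0 + 1 with hk
  have hkR : (1 : ℝ) ≤ k := by rw [hk]; push_cast; have := k0.cast_nonneg (α := ℝ); linarith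
  have hkpos : (0 : ℝ) < k := by linarith
  have hDk : D / k ≤ ε / 4 := by
    rw [div_le_iff₀ hkpos]
    have h1 : 4 * D < k0 * ε := (div_lt_iff₀ hε).mp hk0
    have h2 : (k : ℝ) = k0 + 1 := by rw [hk]; push_cast; rfl
    rw [h2]
    nlinarith
  set δ : ℝ := min (1 / (4 * (k + 2))) (ε / (32 * (D + 1) * (k + 2))) with hδ
  have hδ0 : 0 < δ := lt_min (by positivity) (by positivity)
  have hδ1 : (k + 2) * δ ≤ 1 / 4 := by
    have h1 : δ ≤ 1 / (4 * (k + 2)) := min_le_left _ _
    rw [le_div_iff₀ (by positivity)] at h1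
    linarith
  have hδ2 : 8 * D * ((k + 2) * δ) ≤ ε / 4 := by
    have h1 : δ ≤ ε / (32 * (D + 1) * (k + 2)) := min_le_right _ _
    rw [le_div_iff₀ (by positivity)] at h1
    have h2 : 0 ≤ (k + 2) * δ := by positivity
    nlinarith
  refine ⟨δ / 4, by linarith, fun L p q h hL => ?_⟩
  by_cases hc : volume.real (Box p q) < (k + 1) * δ
  · have hLf : volume L ≠ ⊤ := h.cpt.measure_lt_top.ne
    have hBf : volume (Box p q) ≠ ⊤ := volume_Box_ne_top p q
    have hBC : Box p q ⊆ Cube := fun x hx => h.icc ⟨fun i => (hx i).1.le, fun i => (hx i).2.le⟩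
    have hv : volume (L ∪ Box p q) ≤ ENNReal.ofReal ((k + 2) * δ) := by
      refine (measure_union_le _ _).trans ?_
      rw [← ENNReal.ofReal_toReal hLf, ← ENNReal.ofReal_toReal hBf,
        ← ENNReal.ofReal_add ENNReal.toReal_nonneg ENNReal.toReal_nonneg]
      refine ENNReal.ofReal_le_ofReal ?_
      have h3 : (volume L).toReal < δ / 4 := hL
      have h4 : (volume (Box p q)).toReal < (k + 1) * δ := hc
      nlinarith
    have h5 := B15' hΓ hφ h.conn_Cube.1 (union_subset h.sub hBC) h.conn ((k + 2) * δ)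
      (by positivity) (by linarith) hv
    refine (h5.mono_set subset_union_left).mono ?_
    have h6 : 0 ≤ D * ((k + 2) * δ) := by positivity
    linarith
  · push Not at hc
    refine DB.of_le hφ (fun x hx y hy hxL hyL _ => ?_) hε.le
    have h7 := One2 hΓ hφ h hx hy hxL hyL (k := k) (by omega) (δ := δ) (s := δ / 16) (v := δ / 4)
      (by linarith) (by linarith) (by linarith) (by linarith) (by nlinarith) hL
    have h8 : 8 * D * (k * δ + 2 * (δ / 16)) ≤ 8 * D * ((k + 2) * δ) := by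
      have : k * δ + 2 * (δ / 16) ≤ (k + 2) * δ := by nlinarith
      exact mul_le_mul_of_nonneg_left this (by linarith)
    linarith

end Pool.Agent.QM59
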