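import Mathlib
import Pool.Agent.Lib.MP_decea1_gt_B.One
import Pool.Agent.Lib.MP_decea1_gt_B.Surg

/-!
# MP_decea1_gt (S14098), block B7 (a): eating one cube.
-/

set_option autoImplicit false

open MeasureTheory Set

namespace Pool.Agent.QM59

variable {Γ : Subgroup (Equiv.Perm E3)} {φ : Equiv.Perm E3 → ℝ} {D : ℝ}

private theorem volReal_Box {a b : E3} (h : ∀ i, a i ≤ b i) :
    volume.real (Box a b) = ∏ i, (b i - a i) := by
  rw [Measure.real, volume_Box' h, ENNReal.toReal_ofReal]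
  exact Finset.prod_nonneg fun i _ => sub_nonneg.mpr (h i)

private theorem volReal_Icc {a b : E3} (h : a ≤ b) :
    volume.real (Icc a b) = ∏ i, (b i - a i) := Real.volume_Icc_pi_toReal h

/-- The filled set minus the box is a one-chamber set.

`L = F \ Box p q`: compact; `Icc p q ⊆ Icc a b ⊆ F`; `(L ∪ Box p q)ᶜ = Fᶜ`. -/
theorem OC_of_fill {F : Set E3} (hF : IsCompact F) (hFC : F ⊆ Cube) (hc : IsConnected Fᶜ)
    {p q : E3} (h : ∀ i, p i < q i) (hpF : Icc p q ⊆ F) (hh : volume.real (Box p q) ≤ 1 / 2) :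
    OC (F \ Box p q) p q := by
  have h1 : F \ Box p q ⊆ F := fun x hx => hx.1
  refine ⟨hF.diff (isOpen_Box p q), h1.trans hFC, h, hpF.trans hFC, ?_,
    fun x hx => ⟨hpF hx.1, hx.2⟩, ?_, hh⟩
  · exact Set.disjoint_left.mpr fun x hx hx' => hx.2 hx'
  · have h2 : F \ Box p q ∪ Box p q = F := by
      ext x
      constructor
      · rintro (hx | hx)
        · exact hx.1
        · exact hpF (Box_subset_Icc p q hx)
      · intro hx
        by_cases hb : x ∈ Box p q
        · exact Or.inr hb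
        · exact Or.inl ⟨hx, hb⟩
    rw [h2]
    exact hc

/-- Concentric boxes inside a given box which nearly fill it
(`A i < a i < p i < q i < b i < B i`). -/
theorem exists_inner {A B : E3} (h : ∀ i, A i < B i) {σ : ℝ} (hσ : 0 < σ) :
    ∃ a b p q : E3, (∀ i, A i < a i ∧ a i < p i ∧ p i < q i ∧ q i < b i ∧ b i < B i) ∧
      volume.real (Box A B) - σ < volume.real (Icc p q) := by
  have hV : volume.real (Box A B) = ∏ i, (B i - A i) := volReal_Box fun i => (h i).le
  have hVp : 0 < ∏ i, (B i - A i) := Finset.prod_pos fun i _ => sub_pos.mpr (h i)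
  obtain ⟨V, hVd⟩ : ∃ V, V = ∏ i, (B i - A i) := ⟨_, rfl⟩
  rw [← hVd] at hV hVp
  obtain ⟨t, ht0, ht1, ht2⟩ : ∃ t : ℝ, 0 < t ∧ t ≤ 1 / 4 ∧ 6 * t * V < σ := by
    refine ⟨min (1 / 4) (σ / (12 * (V + 1))), lt_min (by norm_num) (by positivity),
      min_le_left _ _, ?_⟩
    have h1 : min (1 / 4) (σ / (12 * (V + 1))) ≤ σ / (12 * (V + 1)) := min_le_right _ _
    have h2 : 6 * (σ / (12 * (V + 1))) * V < σ := by
      rw [mul_div_assoc', div_mul_eq_mul_div, div_lt_iff₀ (by positivity)]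
      nlinarith
    have h3 : 6 * min (1 / 4) (σ / (12 * (V + 1))) * V ≤ 6 * (σ / (12 * (V + 1))) * V := by
      gcongr
    linarith
  refine ⟨fun i => A i + t / 2 * (B i - A i), fun i => B i - t / 2 * (B i - A i),
    fun i => A i + t * (B i - A i), fun i => B i - t * (B i - A i), fun i => ?_, ?_⟩
  · have h1 := sub_pos.mpr (h i)
    have h2 : 0 < t * (B i - A i) := mul_pos ht0 h1
    have h3 : t * (B i - A i) ≤ 1 / 4 * (B i - A i) := by gcongr
    simp only
    refine ⟨by linarith, by linarith, by linarith, by linarith, by linarith⟩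
  · have h4 : (fun i => A i + t * (B i - A i) : E3) ≤ fun i => B i - t * (B i - A i) := by
      intro i
      have h1 := sub_pos.mpr (h i)
      have h3 : t * (B i - A i) ≤ 1 / 4 * (B i - A i) := by gcongr
      simp only
      linarith
    have h5 : volume.real (Icc (fun i => A i + t * (B i - A i) : E3)
        (fun i => B i - t * (B i - A i))) = (1 - 2 * t) ^ 3 * V := by
      rw [volReal_Icc h4, hVd, Fin.prod_univ_three, Fin.prod_univ_three]
      ring
    rw [h5, hV]
    have h6 : 1 - 6 * t ≤ (1 - 2 * t) ^ 3 := by nlinarith [sq_nonneg t]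
    have h7 : (1 - 6 * t) * V ≤ (1 - 2 * t) ^ 3 * V := by gcongr
    linarith

/-- What is known after one cube has been eaten. -/
structure WOut (Γ : Subgroup (Equiv.Perm E3)) (φ : Equiv.Perm E3 → ℝ) (K : Set E3) (A B : E3)
    (x y : Equiv.Perm E3) (e τ : ℝ) (K' : Set E3) (x' y' : Equiv.Perm E3) (N P : Set E3) :
    Prop where
  cpt : IsCompact K'
  cube : K' ⊆ Cube
  sub : K' ⊆ K ∪ BUpCol A B
  memx : x' ∈ Γ
  memy : y' ∈ Γ
  offx : IdOff K' x'
  offy : IdOff K' y'
  near : |dphi φ x' y' - dphi φ x y| ≤ e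
  mN : MeasurableSet N
  mP : MeasurableSet P
  PB : P ⊆ Box A B
  loss : volume.real (Box A B) - τ ≤ volume.real P - volume.real N
  rootP : P ⊆ BRoot K'
  rootE : ∀ E : Set E3, E ⊆ BRoot K → Disjoint E (Box A B) → E \ N ⊆ BRoot K'
  NC : N ⊆ Cube

/-- B7, one cube.

Proof. Let `v` be as in `B6` for `e / 8`, `n` with `3 * (D / n) ≤ e / 2`,
`σ = min (v / 2) (τ / 2)`.
`exists_inner` with `σ`. Let `κ < zt` be below `1`, above `B 2` and above `K`
(`exists_margin_Cube` for `K ∪ Icc A B`), `zs` between `q 2` and `b 2`. Apply `Surg` with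
`s = v / 2`, `c = e / 8`, and `τ / 2` for `τ`: its hypothesis `hDB` follows from `B6` and
`OC_of_fill`
(`vol (F \ Box p q) = vol F - vol (Box p q) < vol (Icc a b) + v / 2 - vol (Icc p q) ≤ v`, as
`vol (Icc a b) ≤ vol (Box A B)`). `K' = m ⁻¹' K`, `x' = m⁻¹ * x * m`, `y' = m⁻¹ * y * m`,
`P = Icc p q`. `K' ⊆ K ∪ Box a b ∪ N` because `m = id` off `Box a b ∪ N`.
`BRoot K' = m ⁻¹' BRoot K` (`BRoot_preimage`); `P ⊆ BRoot K'` by `SurgOut.up` and
`above_subset_BRoot`; for `z ∈ E \ N` one has `z ∉ Box a b`, so `m z = z ∈ BRoot K`. -/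
theorem WStep (hΓ : Good Γ) (hφ : HQ Γ φ D) {e : ℝ} (he : 0 < e) {τ : ℝ} (hτ : 0 < τ)
    {K : Set E3} (hK : IsCompact K) (hKC : K ⊆ Cube) {x y : Equiv.Perm E3} (hx : x ∈ Γ)
    (hy : y ∈ Γ) (hxK : IdOff K x) (hyK : IdOff K y) {A B : E3} (hAB : ∀ i, A i < B i)
    (hABC : Icc A B ⊆ Cube) (hh : volume.real (Box A B) ≤ 1 / 2)
    (hd : Disjoint K (Box A B)) :
    ∃ (K' : Set E3) (x' y' : Equiv.Perm E3) (N P : Set E3),
      WOut Γ φ K A B x y e τ K' x' y' N P := by
  have hD : 0 ≤ D := hφ.nonneg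
  obtain ⟨v, hv, hB6⟩ := B6 hΓ hφ (ε := e / 8) (by positivity)
  obtain ⟨n, hn⟩ := exists_nat_ge (6 * D / e)
  obtain ⟨a, b, p, q, hlt, hvol⟩ := exists_inner hAB (σ := min (v / 2) (τ / 2))
    (lt_min (by positivity) (by positivity))
  have hσ1 : min (v / 2) (τ / 2) ≤ v / 2 := min_le_left _ _
  have hσ2 : min (v / 2) (τ / 2) ≤ τ / 2 := min_le_right _ _
  obtain ⟨e', he', he2, hm⟩ := exists_margin_Cube (hK.union (isCompact_Icc (a := A) (b := B)))
    (union_subset hKC hABC)
  have hABle : A ≤ B := fun i => (hAB i).le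
  have hBmem : B ∈ Icc A B := ⟨hABle, le_rfl⟩
  have hED : EatData K A B a b p q (1 - e') ((q 2 + b 2) / 2) (1 - e' / 2) := by
    refine ⟨hK, hKC, hABC, hd, hlt, ?_, ?_, fun x hx => (hm x (Or.inl hx) 2).2,
      (hm B (Or.inr hBmem) 2).2, by linarith, by linarith⟩
    · linarith [(hlt 2).2.2.2.1]
    · linarith [(hlt 2).2.2.2.1]
  -- inclusions
  have hIab : Icc a b ⊆ Box A B := Icc_subset_Box A B a b (fun i => (hlt i).1)
    (fun i => (hlt i).2.2.2.2)
  have hIpq : Icc p q ⊆ Box a b := Icc_subset_Box a b p q (fun i => (hlt i).2.1)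
    (fun i => (hlt i).2.2.2.1)
  have hBab : Box a b ⊆ Box A B := (Box_subset_Icc a b).trans hIab
  have hIpqAB : Icc p q ⊆ Box A B := hIpq.trans hBab
  have hpq : ∀ i, p i < q i := fun i => (hlt i).2.2.1
  have hBf : volume (Box A B) ≠ ⊤ := volume_Box_ne_top A B
  have hIB : volume.real (Icc p q) = volume.real (Box p q) := by
    rw [volReal_Icc fun i => (hpq i).le, volReal_Box fun i => (hpq i).le]
  have hhpq : volume.real (Box p q) ≤ 1 / 2 :=
    (measureReal_mono ((Box_subset_Icc p q).trans hIpqAB) hBf).trans hh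
  have hDB : ∀ F : Set E3, IsCompact F → F ⊆ Cube → IsConnected Fᶜ → Icc a b ⊆ F →
      volume F < volume (Icc a b) + ENNReal.ofReal (v / 2) → DB Γ φ (F \ Box p q) (e / 8) := by
    intro F hF hFC hFc habF hvF
    have hpF : Icc p q ⊆ F := (hIpq.trans (Box_subset_Icc a b)).trans habF
    refine hB6 _ p q (OC_of_fill hF hFC hFc hpq hpF hhpq) ?_
    have hIf : volume (Icc a b) ≠ ⊤ := isCompact_Icc.measure_lt_top.ne
    have h1 : volume.real F < volume.real (Icc a b) + v / 2 := by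
      have h2 := (ENNReal.toReal_lt_toReal hF.measure_lt_top.ne
        (ENNReal.add_ne_top.mpr ⟨hIf, ENNReal.ofReal_ne_top⟩)).mpr hvF
      rwa [ENNReal.toReal_add hIf ENNReal.ofReal_ne_top,
        ENNReal.toReal_ofReal (by positivity)] at h2
    have h2 : volume.real (Icc a b) ≤ volume.real (Box A B) := measureReal_mono hIab hBf
    have h3 : volume.real (F \ Box p q) = volume.real F - volume.real (Box p q) := by
      rw [measureReal_sdiff ((Box_subset_Icc p q).trans hpF) (isOpen_Box p q).measurableSet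
        hF.measure_lt_top.ne]
    rw [h3]
    linarith
  obtain ⟨N, m, hS⟩ := Surg hΓ hφ hED hx hy hxK hyK (n := n + 1) (by omega) (s := v / 2)
    (τ := τ / 2) (c := e / 8) (by positivity) (by positivity) hDB
  have hn2 : 3 * (D / ((n + 1 : ℕ) : ℝ)) ≤ e / 2 := by
    have h1 : 6 * D / e ≤ (n : ℝ) + 1 := by linarith
    rw [div_le_iff₀ he] at h1
    have h2 : (0 : ℝ) < (n : ℝ) + 1 := by positivity
    push_cast
    rw [mul_div_assoc', div_le_iff₀ h2]
    linarith
  refine ⟨m ⁻¹' K, m⁻¹ * x * m, m⁻¹ * y * m, N, Icc p q, ?_⟩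
  refine ⟨?_, ?_, ?_, hS.memx, hS.memy, hS.offx, hS.offy, ?_, hS.opn.measurableSet,
    measurableSet_Icc, hIpqAB, ?_, ?_, ?_, hS.cube⟩
  · rw [show (m ⁻¹' K : Set E3) = m.symm '' K from (m.symm.image_eq_preimage_symm K).symm]
    exact hK.image hS.iso.isDif.2.continuous
  · intro z hz
    by_contra hn
    have h1 : m z = z := hS.iso.idOff z hn
    rw [mem_preimage, h1] at hz
    exact hn (hKC hz)
  · intro z hz
    by_cases hab : z ∈ Box a b
    · right
      have h1 := hBab hab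
      exact ⟨(h1 0).1, (h1 0).2, (h1 1).1, (h1 1).2, (h1 2).1⟩
    · by_cases hN : z ∈ N
      · right
        obtain ⟨h1, h2, h3, h4, h5⟩ := hS.col hN
        have g0 := hlt 0
        have g1 := hlt 1
        have g2 := hlt 2
        refine ⟨?_, ?_, ?_, ?_, ?_⟩ <;>
          linarith [g0.1, g0.2.1, g0.2.2.2.1, g0.2.2.2.2, g1.1, g1.2.1, g1.2.2.2.1,
            g1.2.2.2.2, g2.1, g2.2.1]
      · left
        rwa [mem_preimage, hS.off z hab hN] at hz
  · refine hS.near.trans ?_
    linarith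
  · have h1 : volume.real N ≤ τ / 2 := by
      rw [← ENNReal.toReal_ofReal (show (0 : ℝ) ≤ τ / 2 by positivity)]
      exact ENNReal.toReal_mono ENNReal.ofReal_ne_top hS.vol
    linarith
  · intro z hz
    rw [BRoot_preimage hS.iso]
    exact above_subset_BRoot (by linarith) (fun x hx => (hm x (Or.inl hx) 2).2)
      (hS.up z hz).le
  · intro E hE hdE z hz
    rw [BRoot_preimage hS.iso, mem_preimage,
      hS.off z (fun h1 => Set.disjoint_left.mp hdE hz.1 (hBab h1)) hz.2]
    exact hE hz.1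

end Pool.Agent.QM59
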