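import Mathlib
import Pool.Agent.Lib.MP_decea1_gt_B.WStep

/-!
# MP_decea1_gt (S14098), block B7 (b): eating a list of cubes.
-/

set_option autoImplicit false

open MeasureTheory Set

namespace Pool.Agent.QM59

variable {Γ : Subgroup (Equiv.Perm E3)} {φ : Equiv.Perm E3 → ℝ} {D : ℝ}

private theorem WInd_box (A B : E3) : Box A B ⊆ BUpCol A B := fun _ hx =>
  ⟨(hx 0).1, (hx 0).2, (hx 1).1, (hx 1).2, (hx 2).1⟩

private theorem WInd_fin {S : Set E3} (h : S ⊆ Cube) : volume S ≠ ⊤ :=
  ne_top_of_le_ne_top (by rw [volume_Cube]; exact ENNReal.one_ne_top) (measure_mono h)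

/-- Eating the boxes of the list `l` one after the other. `E0` is a part of the outer component which
is disjoint from all boxes of the list.

Proof. Induction on `l` with everything generalised. For `(A, B) :: l` apply `WStep`, then the
induction hypothesis to `K', x', y'` and `E1 = (E0 \ N) ∪ P`. The later boxes are disjoint from
`BUpCol A B`, hence from `K'` (`WOut.sub`) and from `P ⊆ Box A B ⊆ BUpCol A B`.
`vol E1 = vol (E0 \ N) + vol P ≥ vol E0 - vol N + vol P` (`P` is disjoint from `E0`). -/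
theorem WInd (hΓ : Good Γ) (hφ : HQ Γ φ D) {e : ℝ} (he : 0 < e) {τ : ℝ} (hτ : 0 < τ)
    (l : List (E3 × E3)) : ∀ (K : Set E3) (x y : Equiv.Perm E3) (E0 : Set E3),
    IsCompact K → K ⊆ Cube → x ∈ Γ → y ∈ Γ → IdOff K x → IdOff K y →
    (∀ b ∈ l, (∀ i, b.1 i < b.2 i) ∧ Icc b.1 b.2 ⊆ Cube ∧ volume.real (Box b.1 b.2) ≤ 1 / 2 ∧
      Disjoint K (Box b.1 b.2) ∧ Disjoint E0 (Box b.1 b.2)) →
    l.Pairwise (fun b b' => Disjoint (BUpCol b.1 b.2) (Box b'.1 b'.2)) →
    MeasurableSet E0 → E0 ⊆ BRoot K → E0 ⊆ Cube →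
    ∃ (K' : Set E3) (x' y' : Equiv.Perm E3) (E' : Set E3),
      IsCompact K' ∧ K' ⊆ Cube ∧ x' ∈ Γ ∧ y' ∈ Γ ∧ IdOff K' x' ∧ IdOff K' y' ∧
      |dphi φ x' y' - dphi φ x y| ≤ l.length * e ∧ MeasurableSet E' ∧ E' ⊆ BRoot K' ∧
      E' ⊆ Cube ∧
      volume.real E0 + (l.map fun b => volume.real (Box b.1 b.2)).sum - l.length * τ ≤
        volume.real E' := by
  induction l with
  | nil =>
    intro K x y E0 hK hKC hx hy hxK hyK _ _ hm hr hC
    refine ⟨K, x, y, E0, hK, hKC, hx, hy, hxK, hyK, ?_, hm, hr, hC, ?_⟩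
    · simp
    · simp
  | cons b l ih =>
    intro K x y E0 hK hKC hx hy hxK hyK hb hp hm hr hC
    obtain ⟨hb1, hb2, hb3, hb4, hb5⟩ := hb b (List.mem_cons_self)
    obtain ⟨K', x', y', N, P, h⟩ := WStep hΓ hφ he hτ hK hKC hx hy hxK hyK hb1 hb2 hb3 hb4
    rw [List.pairwise_cons] at hp
    have hPC : P ⊆ Cube := h.PB.trans ((Box_subset_Icc _ _).trans hb2)
    have hEN : E0 \ N ⊆ Cube := Set.sdiff_subset.trans hC
    have hE1C : (E0 \ N) ∪ P ⊆ Cube := Set.union_subset hEN hPC
    obtain ⟨K2, x2, y2, E', g1, g2, g3, g4, g5, g6, g7, g8, g9, g10, g11⟩ :=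
      ih K' x' y' ((E0 \ N) ∪ P) h.cpt h.cube h.memx h.memy h.offx h.offy (by
        intro b' hb'
        obtain ⟨c1, c2, c3, c4, c5⟩ := hb b' (List.mem_cons_of_mem _ hb')
        have hd := hp.1 b' hb'
        refine ⟨c1, c2, c3, ?_, ?_⟩
        · exact (Set.disjoint_union_left.2 ⟨c4, hd⟩).mono_left h.sub
        · refine Set.disjoint_union_left.2 ⟨c5.mono_left Set.sdiff_subset, ?_⟩
          exact hd.mono_left (h.PB.trans (WInd_box _ _))) hp.2
        ((hm.diff h.mN).union h.mP) (Set.union_subset (h.rootE E0 hr hb5) h.rootP) hE1C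
    refine ⟨K2, x2, y2, E', g1, g2, g3, g4, g5, g6, ?_, g8, g9, g10, ?_⟩
    · have t1 := abs_sub_le (dphi φ x2 y2) (dphi φ x' y') (dphi φ x y)
      have t2 := h.near
      simp only [List.length_cons]
      push_cast
      linarith
    · have hdis : Disjoint (E0 \ N) P :=
        (hb5.mono_left Set.sdiff_subset).mono_right h.PB
      have v1 : volume.real ((E0 \ N) ∪ P) = volume.real (E0 \ N) + volume.real P :=
        measureReal_union hdis h.mP (WInd_fin hEN) (WInd_fin hPC)
      have v2 : volume.real E0 ≤ volume.real (E0 \ N) + volume.real N := by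
        refine (measureReal_mono (fun z hz => ?_)
          (WInd_fin (Set.union_subset hEN h.NC))).trans (measureReal_union_le _ _)
        by_cases hzN : z ∈ N
        · exact Or.inr hzN
        · exact Or.inl ⟨hz, hzN⟩
      have v3 := h.loss
      simp only [List.length_cons, List.map_cons, List.sum_cons]
      push_cast
      linarith

end Pool.Agent.QM59
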