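import Mathlib
import Pool.Agent.Lib.MP_decea1_gt_B.WInd
import Pool.Agent.Lib.MP_decea1_gt_B.WGrid

/-!
# MP_decea1_gt (S14098), block B7: the wall lemma.
-/

set_option autoImplicit false

open MeasureTheory Set

namespace Pool.Agent.QM59

variable {Γ : Subgroup (Equiv.Perm E3)} {φ : Equiv.Perm E3 → ℝ} {D : ℝ}

/-- B7.

Proof. `η = min (ε / (24 * D + 24)) (1 / 12)`. Let `K`, `x`, `y` be given, `l` from `WGrid` for `η`,
`q = l.length + 1`. `WInd` with `e = ε / (2 q)`, `τ = η / q`, `E0 = ∅`: `K', x', y', E'` with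
`|dphi x' y' - dphi x y| ≤ ε / 2` and `volume.real E' ≥ 1 - 2η`. `BFill K' ⊆ Cube \ E'` is compact
with connected complement and has measure `≤ 2η ≤ 1 / 2`; it contains `K'`. `B15'` gives
`|dphi x' y'| ≤ 2 D (2 η) ≤ ε / 6`. -/
theorem wall (hΓ : Good Γ) (hφ : HQ Γ φ D) : ∀ ε : ℝ, 0 < ε → ∃ η : ℝ, 0 < η ∧
    ∀ K : Set E3, K ⊆ Cube → IsCompact K → volume K < ENNReal.ofReal η → DB Γ φ K ε := by
  intro ε hε
  have hD := hφ.nonneg
  have hden : 0 < 24 * D + 24 := by positivity
  refine ⟨min (ε / (24 * D + 24)) (1 / 12), lt_min (div_pos hε hden) (by norm_num), ?_⟩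
  intro K hKC hK hKη x hx y hy hxK hyK
  set η : ℝ := min (ε / (24 * D + 24)) (1 / 12) with hηdef
  have hη0 : 0 < η := lt_min (div_pos hε hden) (by norm_num)
  have hη1 : η ≤ ε / (24 * D + 24) := min_le_left _ _
  have hη2 : η ≤ 1 / 12 := min_le_right _ _
  have hKr : volume.real K < η := ENNReal.toReal_lt_of_lt_ofReal hKη
  obtain ⟨l, hl1, hl2, hl3⟩ := WGrid hK hKC hKr
  set q : ℝ := (l.length : ℝ) + 1 with hq
  have hq0 : 0 < q := by positivity
  have hlq : (l.length : ℝ) ≤ q := by rw [hq]; linarith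
  obtain ⟨K', x', y', E', h1, h2, h3, h4, h5, h6, h7, h8, h9, h10, h11⟩ :=
    WInd hΓ hφ (e := ε / (2 * q)) (by positivity) (τ := η / q) (by positivity) l K x y ∅
      hK hKC hx hy hxK hyK
      (fun b hb => ⟨(hl1 b hb).1, (hl1 b hb).2.1, (hl1 b hb).2.2.1, (hl1 b hb).2.2.2,
        Set.empty_disjoint _⟩) hl2 MeasurableSet.empty (Set.empty_subset _) (Set.empty_subset _)
  have h12 : (l.length : ℝ) * (ε / (2 * q)) ≤ ε / 2 := by
    calc (l.length : ℝ) * (ε / (2 * q)) ≤ q * (ε / (2 * q)) :=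
          mul_le_mul_of_nonneg_right hlq (by positivity)
      _ = ε / 2 := by field_simp
  have h13 : (l.length : ℝ) * (η / q) ≤ η := by
    calc (l.length : ℝ) * (η / q) ≤ q * (η / q) :=
          mul_le_mul_of_nonneg_right hlq (by positivity)
      _ = η := by field_simp
  have h14 : volume.real (∅ : Set E3) = 0 := by simp
  have h15 : 1 - 2 * η ≤ volume.real E' := by linarith
  have hFC : BFill K' ⊆ Cube := BFill_subset_Cube h1 h2
  have hFc : IsCompact (BFill K') := isCompact_BFill h1 h2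
  have hd : Disjoint (BFill K') E' := by
    rw [Set.disjoint_left]
    intro z hz hz'
    exact hz (h9 hz')
  have hcube : volume.real Cube = 1 := by
    unfold Measure.real
    rw [volume_Cube]
    rfl
  have hCfin : volume Cube ≠ ⊤ := by
    rw [volume_Cube]
    exact ENNReal.one_ne_top
  have h16 : volume.real (BFill K') + volume.real E' ≤ 1 := by
    rw [← hcube, ← measureReal_union hd h8 (measure_ne_top_of_subset hFC hCfin)
      (measure_ne_top_of_subset h10 hCfin)]
    exact measureReal_mono (Set.union_subset hFC h10) hCfin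
  have h17 : volume (BFill K') ≤ ENNReal.ofReal (2 * η) := by
    rw [← ENNReal.ofReal_toReal (measure_ne_top_of_subset hFC hCfin)]
    apply ENNReal.ofReal_le_ofReal
    have h18 : (volume (BFill K')).toReal = volume.real (BFill K') := rfl
    rw [h18]
    linarith
  have h19 := B15' hΓ hφ hFc hFC (isConnected_compl_BFill h2) (2 * η) (by positivity)
    (by linarith) h17 x' h3 y' h4 (h5.mono (subset_BFill K')) (h6.mono (subset_BFill K'))
  have h20 : 2 * D * (2 * η) ≤ ε / 2 := by
    have h21 : η * (24 * D + 24) ≤ ε := by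
      rwa [le_div_iff₀ hden] at hη1
    nlinarith
  have h22 : |dphi φ x y| ≤ |dphi φ x' y'| + |dphi φ x' y' - dphi φ x y| := by
    have h23 : dphi φ x y = dphi φ x' y' - (dphi φ x' y' - dphi φ x y) := by ring
    calc |dphi φ x y| = |dphi φ x' y' - (dphi φ x' y' - dphi φ x y)| := by rw [← h23]
      _ ≤ _ := abs_sub _ _
  linarith

end Pool.Agent.QM59
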