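import Mathlib
import Pool.Agent.Lib.MP_decea1_gt_B.Wall

/-!
# MP_decea1_gt (S14098), block B8: almost additivity.
-/

set_option autoImplicit false

open MeasureTheory Set

namespace Pool.Agent.QM59

variable {Γ : Subgroup (Equiv.Perm E3)} {φ : Equiv.Perm E3 → ℝ} {D : ℝ}

private theorem NAdd_pre (hΓ : Good Γ) {g : Equiv.Perm E3} (hg : g ∈ Γ) {K : Set E3}
    (hK : K ⊆ Cube) (hc : IsCompact K) :
    (∀ z, g z ∈ K → z ∈ Cube) ∧ IsCompact (g ⁻¹' K) ∧ volume (g ⁻¹' K) = volume K := by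
  have hg' : g⁻¹ ∈ Γ := Γ.inv_mem hg
  have e : (g⁻¹ : Equiv.Perm E3) '' K = g ⁻¹' K := Equiv.image_eq_preimage_symm g⁻¹ K
  refine ⟨fun z hz => ?_, ?_, ?_⟩
  · obtain ⟨S, hS, -, hoff⟩ := hΓ.supp g hg
    exact ((hoff.mono hS).apply_mem_iff z).1 (hK hz)
  · rw [← e]
    exact hc.image (hΓ.dif _ hg').1.continuous
  · rw [← e]
    exact Vol.volume_image (hΓ.dif _ hg') (hΓ.vol _ hg') K

/-- B8.

Proof. `n ≥ 1` with `D / n ≤ ε / 2`, `η` from `wall` for `ε / 2`, `v = η / n`. The set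
`L = ⋃ i < n, (x ^ i) ⁻¹' K` is compact (`x` is a homeomorphism), contained in the cube (`x` preserves
the cube), and of measure `< n v = η` (`Vol.volume_image` for `x⁻¹ ^ i`; if `n v = 0`... `v > 0`).
`B04'` with `DB Γ φ L (ε / 2)`. -/
theorem NA (hΓ : Good Γ) (hφ : HQ Γ φ D) : ∀ ε : ℝ, 0 < ε → ∃ v : ℝ, 0 < v ∧
    ∀ x ∈ Γ, ∀ u ∈ Γ, ∀ K : Set E3, K ⊆ Cube → IsCompact K → volume K < ENNReal.ofReal v →
      IdOff K u → |φ (x * u) - φ x - φ u| ≤ ε := by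
  intro ε hε
  obtain ⟨n, hn⟩ := exists_nat_gt (2 * D / ε)
  have hD := hφ.nonneg
  have hn0 : (0 : ℝ) < n := lt_of_le_of_lt (by positivity) hn
  have hn1 : 1 ≤ n := by
    have : 0 < n := by exact_mod_cast hn0
    exact this
  have hDn : D / n ≤ ε / 2 := by
    rw [div_lt_iff₀ hε] at hn
    rw [div_le_iff₀ hn0]
    linarith
  obtain ⟨η, hη, hw⟩ := wall hΓ hφ (ε / 2) (by positivity)
  refine ⟨η / n, by positivity, ?_⟩
  intro x hx u hu K hK hKc hKv hoff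
  obtain ⟨L, hL⟩ : ∃ L : Set E3, L = ⋃ i ∈ Finset.range n, (x ^ i) ⁻¹' K := ⟨_, rfl⟩
  have hpre : ∀ i : ℕ, (∀ z, (x ^ i) z ∈ K → z ∈ Cube) ∧ IsCompact ((x ^ i) ⁻¹' K) ∧
      volume ((x ^ i) ⁻¹' K) = volume K := fun i => NAdd_pre hΓ (Γ.pow_mem hx i) hK hKc
  have hLc : IsCompact L := by
    rw [hL]
    exact (Finset.range n).isCompact_biUnion fun i _ => (hpre i).2.1
  have hLs : L ⊆ Cube := by
    rw [hL]
    refine iUnion₂_subset fun i _ z hz => ?_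
    exact (hpre i).1 z hz
  have hLv : volume L < ENNReal.ofReal η := by
    have h1 : volume L ≤ ∑ i ∈ Finset.range n, volume ((x ^ i) ⁻¹' K) := by
      rw [hL]
      exact measure_biUnion_finset_le _ _
    have h2 : ∑ i ∈ Finset.range n, volume ((x ^ i) ⁻¹' K) = n * volume K := by
      rw [Finset.sum_congr rfl fun i _ => (hpre i).2.2, Finset.sum_const, Finset.card_range,
        nsmul_eq_mul]
    have h3 : (n : ENNReal) * volume K < n * ENNReal.ofReal (η / n) := by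
      refine (ENNReal.mul_lt_mul_iff_right ?_ (ENNReal.natCast_ne_top n)).2 hKv
      simpa using (by omega : n ≠ 0)
    have h4 : (n : ENNReal) * ENNReal.ofReal (η / n) = ENNReal.ofReal η := by
      rw [← ENNReal.ofReal_natCast, ← ENNReal.ofReal_mul hn0.le]
      congr 1
      field_simp
    rw [h2] at h1
    rw [h4] at h3
    exact lt_of_le_of_lt h1 h3
  have hDB := hw L hLs hLc hLv
  have h := B04' hφ hx hu hDB n hn1 hoff (fun i hi z hz => by
    rw [hL]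
    exact mem_iUnion₂.2 ⟨i, Finset.mem_range.2 hi, hz⟩)
  linarith

/-- B8'.

Proof. `(x * u) * (y * w) = (x * y) * (y⁻¹ * u * y) * w`, and `y⁻¹ * u * y` is the identity off
`y ⁻¹' K`, which has the same measure. `NA` with `ε / 4` four times (twice for this product, once for
each of `φ (x * u)`, `φ (y * w)`) and `φ (y⁻¹ * u * y) = φ u`. -/
theorem NAc (hΓ : Good Γ) (hφ : HQ Γ φ D) : ∀ ε : ℝ, 0 < ε → ∃ v : ℝ, 0 < v ∧
    ∀ x ∈ Γ, ∀ y ∈ Γ, ∀ u ∈ Γ, ∀ w ∈ Γ, ∀ K : Set E3, K ⊆ Cube → IsCompact K →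
      volume K < ENNReal.ofReal v → IdOff K u → IdOff K w →
        |dphi φ (x * u) (y * w) - dphi φ x y| ≤ ε := by
  intro ε hε
  obtain ⟨v, hv, h⟩ := NA hΓ hφ (ε / 4) (by positivity)
  refine ⟨v, hv, ?_⟩
  intro x hx y hy u hu w hw K hK hKc hKv hoffu hoffw
  obtain ⟨u', hu'⟩ : ∃ u' : Equiv.Perm E3, u' = y⁻¹ * u * y := ⟨_, rfl⟩
  have hu'Γ : u' ∈ Γ := by
    rw [hu']
    exact Γ.mul_mem (Γ.mul_mem (Γ.inv_mem hy) hu) hy
  have hpre := NAdd_pre hΓ hy hK hKc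
  have hxy : x * y ∈ Γ := Γ.mul_mem hx hy
  have hoff' : IdOff (y ⁻¹' K) u' := by
    rw [hu']
    exact hoffu.conj' y
  have a1 := h (x * y * u') (Γ.mul_mem hxy hu'Γ) w hw K hK hKc hKv hoffw
  have a2 := h (x * y) hxy u' hu'Γ (y ⁻¹' K) (fun z hz => hpre.1 z hz) hpre.2.1
    (by rw [hpre.2.2]; exact hKv) hoff'
  have a3 := h x hx u hu K hK hKc hKv hoffu
  have a4 := h y hy w hw K hK hKc hKv hoffw
  have a5 : φ u' = φ u := by
    rw [hu']
    exact hφ.map_conj' hu hy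
  have e1 : x * u * (y * w) = x * y * u' * w := by
    rw [hu']
    group
  simp only [dphi]
  rw [e1]
  rw [a5] at a2
  rw [abs_le] at a1 a2 a3 a4 ⊢
  constructor
  · linarith [a1.1, a2.1, a3.2, a4.2]
  · linarith [a1.2, a2.2, a3.1, a4.1]

end Pool.Agent.QM59
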